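import Mathlib

set_option autoImplicit false

/-!
PROJECT BBR (MP_80b7d7_lc, helper82), module BBR-AlM.

Plan. Induction on a + b (generalising a b l A B; e.g. on n with a + b ≤ n or = n). If a = 0: no element of A occurs, take
S = A, T = B, L = [l] (every s ∈ l has g s ∉ A since count ≥ 1 otherwise: List.count_pos_iff). Same if b = 0, or if A = ∅ or
B = ∅ (S = ∅ or T = ∅, L = [l]). Otherwise let A(c), B(c) be the sets of the elements of A, B which occur in the prefix
l.take c (A.filter (· ∈ (l.take c).map g)). If neither 2 |A(c)| ≥ |A| nor 2 |B(c)| ≥ |B| for c = length: S = A \ A(length),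
T = B, L = [l]. Otherwise take the least such c (Nat.find), c ≥ 1; l.take c = l.take (c-1) ++ [s]; since A, B are disjoint, s adds
an element to at most one of A(·), B(·). If 2|A(c)| ≥ |A| holds and g s ∉ B, then |B(c)| = |B(c-1)| and 2 |B(c-1)| < |B|, so
S1 = A(c), T1 = B \ B(c) have at least half of the elements; the block l.take c avoids T1; on l.drop c the elements of S1
have count ≤ a - 1 (they occur in l.take c), those of T1 count ≤ b; apply the induction hypothesis to l.drop c and put
the block l.take c in front. Symmetric in the other case (if g s ∈ B then A(c) = A(c-1), so the B-condition holds).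
-/

namespace Pool.Agent.BBR

open Finset

section
variable {α V : Type} [DecidableEq V] (g : α → V)

private def occ (A : Finset V) (l : List α) : Finset V := A.filter fun v => v ∈ l.map g

private theorem mem_occ {A : Finset V} {l : List α} {v : V} :
    v ∈ occ g A l ↔ v ∈ A ∧ v ∈ l.map g := by
  unfold occ; rw [mem_filter]

private theorem occ_sub (A : Finset V) (l : List α) : occ g A l ⊆ A := filter_subset _ _

private theorem occ_append_of_notMem {A : Finset V} {l : List α} {s : α} (hs : g s ∉ A) :
    occ g A (l ++ [s]) = occ g A l := by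
  ext v
  rw [mem_occ, mem_occ, List.map_append, List.mem_append, List.map_singleton,
    List.mem_singleton]
  constructor
  · rintro ⟨h1, h2 | h2⟩
    · exact ⟨h1, h2⟩
    · exact absurd (h2 ▸ h1) hs
  · rintro ⟨h1, h2⟩
    exact ⟨h1, Or.inl h2⟩

private theorem trivial_case {A B S T : Finset V} {a b : ℕ} (l : List α) (hS : S ⊆ A)
    (hT : T ⊆ B) (h1 : A.card ≤ 2 ^ (a + b) * S.card) (h2 : B.card ≤ 2 ^ (a + b) * T.card)
    (h : (∀ s ∈ l, g s ∉ S) ∨ (∀ s ∈ l, g s ∉ T)) :
    ∃ S ⊆ A, ∃ T ⊆ B, A.card ≤ 2 ^ (a + b) * S.card ∧ B.card ≤ 2 ^ (a + b) * T.card ∧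
      ∃ L : List (List α), L.length ≤ a + b + 1 ∧ L.flatten = l ∧
        ∀ c ∈ L, (∀ s ∈ c, g s ∉ S) ∨ (∀ s ∈ c, g s ∉ T) := by
  refine ⟨S, hS, T, hT, h1, h2, [l], ?_, ?_, ?_⟩
  · rw [List.length_singleton]; omega
  · simp
  · intro c hc
    rw [List.mem_singleton] at hc
    rw [hc]; exact h

private theorem le_pow_mul (n q : ℕ) : q ≤ 2 ^ n * q :=
  Nat.le_mul_of_pos_left q (Nat.two_pow_pos n)

private theorem count_drop {l : List α} {c a : ℕ} {v : V} (h : v ∈ (l.take c).map g)
    (hc : (l.map g).count v ≤ a + 1) : ((l.drop c).map g).count v ≤ a := by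
  have h1 : (l.map g).count v = ((l.take c).map g).count v + ((l.drop c).map g).count v := by
    rw [← List.count_append, ← List.map_append, List.take_append_drop]
  have h2 : 0 < ((l.take c).map g).count v := List.count_pos_iff.2 h
  omega

private theorem count_drop_le {l : List α} {c b : ℕ} {v : V}
    (hc : (l.map g).count v ≤ b) : ((l.drop c).map g).count v ≤ b := by
  have h1 : (l.map g).count v = ((l.take c).map g).count v + ((l.drop c).map g).count v := by
    rw [← List.count_append, ← List.map_append, List.take_append_drop]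
  omega

/-- The statement for given `a`, `b`. -/
private def St (a b : ℕ) : Prop :=
  ∀ (l : List α) (A B : Finset V), Disjoint A B → (∀ v ∈ A, (l.map g).count v ≤ a) →
    (∀ v ∈ B, (l.map g).count v ≤ b) →
    ∃ S ⊆ A, ∃ T ⊆ B, A.card ≤ 2 ^ (a + b) * S.card ∧ B.card ≤ 2 ^ (a + b) * T.card ∧
      ∃ L : List (List α), L.length ≤ a + b + 1 ∧ L.flatten = l ∧
        ∀ c ∈ L, (∀ s ∈ c, g s ∉ S) ∨ (∀ s ∈ c, g s ∉ T)

private theorem St.symm {a b : ℕ} (h : St (α := α) g a b) : St (α := α) g b a := by
  intro l A B hAB hA hB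
  obtain ⟨S, hS, T, hT, h1, h2, L, h3, h4, h5⟩ := h l B A hAB.symm hB hA
  refine ⟨T, hT, S, hS, ?_, ?_, L, ?_, h4, fun c hc => (h5 c hc).symm⟩
  · rw [add_comm b a]; exact h2
  · rw [add_comm b a]; exact h1
  · rw [add_comm b a]; exact h3

private theorem step_case {a b : ℕ} (ih : St (α := α) g a b) {l : List α} {A B : Finset V}
    (hAB : Disjoint A B) (hA : ∀ v ∈ A, (l.map g).count v ≤ a + 1)
    (hB : ∀ v ∈ B, (l.map g).count v ≤ b) {c : ℕ}
    (h1 : A.card ≤ 2 * (occ g A (l.take c)).card) (h2 : 2 * (occ g B (l.take c)).card ≤ B.card) :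
    ∃ S ⊆ A, ∃ T ⊆ B, A.card ≤ 2 ^ (a + 1 + b) * S.card ∧ B.card ≤ 2 ^ (a + 1 + b) * T.card ∧
      ∃ L : List (List α), L.length ≤ a + 1 + b + 1 ∧ L.flatten = l ∧
        ∀ c ∈ L, (∀ s ∈ c, g s ∉ S) ∨ (∀ s ∈ c, g s ∉ T) := by
  obtain ⟨A', hA'⟩ : ∃ A', A' = occ g A (l.take c) := ⟨_, rfl⟩
  obtain ⟨B', hB'⟩ : ∃ B', B' = B \ occ g B (l.take c) := ⟨_, rfl⟩
  have sA : A' ⊆ A := by rw [hA']; exact occ_sub g _ _
  have sB : B' ⊆ B := by rw [hB']; exact sdiff_subset
  have cB : B.card ≤ 2 * B'.card := by
    rw [hB', card_sdiff_of_subset (occ_sub g _ _)]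
    omega
  rw [← hA'] at h1
  obtain ⟨S, hS, T, hT, e1, e2, L, e3, e4, e5⟩ := ih (l.drop c) A' B'
    (disjoint_of_subset_left sA (disjoint_of_subset_right sB hAB))
    (fun v hv => by
      rw [hA', mem_occ] at hv
      exact count_drop g hv.2 (hA v hv.1))
    (fun v hv => count_drop_le g (hB v (sB hv)))
  refine ⟨S, hS.trans sA, T, hT.trans sB, ?_, ?_, l.take c :: L, ?_, ?_, ?_⟩
  · calc A.card ≤ 2 * A'.card := h1
      _ ≤ 2 * (2 ^ (a + b) * S.card) := Nat.mul_le_mul_left _ e1
      _ = 2 ^ (a + 1 + b) * S.card := by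
          rw [show a + 1 + b = (a + b) + 1 by ring, pow_succ]; ring
  · calc B.card ≤ 2 * B'.card := cB
      _ ≤ 2 * (2 ^ (a + b) * T.card) := Nat.mul_le_mul_left _ e2
      _ = 2 ^ (a + 1 + b) * T.card := by
          rw [show a + 1 + b = (a + b) + 1 by ring, pow_succ]; ring
  · rw [List.length_cons]; omega
  · rw [List.flatten_cons, e4, List.take_append_drop]
  · intro d hd
    rw [List.mem_cons] at hd
    rcases hd with rfl | hd
    · right
      intro s hs hT'
      have h3 := hT hT'
      rw [hB', mem_sdiff, mem_occ] at h3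
      exact h3.2 ⟨h3.1, List.mem_map.2 ⟨s, hs, rfl⟩⟩
    · exact e5 d hd

private theorem main_case {a b : ℕ} (ih1 : St (α := α) g a (b + 1))
    (ih2 : St (α := α) g (a + 1) b) : St (α := α) g (a + 1) (b + 1) := by
  intro l A B hAB hA hB
  by_cases hex : ∃ c, A.card ≤ 2 * (occ g A (l.take c)).card ∨
      B.card ≤ 2 * (occ g B (l.take c)).card
  · classical
    have hspec := Nat.find_spec hex
    have hmin := fun m (hm : m < Nat.find hex) => Nat.find_min hex hm
    obtain ⟨c, hc⟩ : ∃ c, c = Nat.find hex := ⟨_, rfl⟩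
    rw [← hc] at hspec hmin
    rcases Nat.eq_zero_or_pos c with h0 | hpos
    · -- the empty prefix: `A` or `B` is empty
      rw [h0] at hspec
      have e1 : ∀ X : Finset V, occ g X (l.take 0) = ∅ := by
        intro X
        ext v
        rw [mem_occ]
        simp
      rw [e1, e1, card_empty, mul_zero] at hspec
      rcases hspec with h | h
      · refine trivial_case g l (empty_subset A) (Subset.refl B) ?_ (le_pow_mul _ _)
          (Or.inl fun s _ => notMem_empty _)
        omega
      · refine trivial_case g l (Subset.refl A) (empty_subset B) (le_pow_mul _ _) ?_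
          (Or.inr fun s _ => notMem_empty _)
        omega
    · have hprev := hmin (c - 1) (by omega)
      push Not at hprev
      obtain ⟨p1, p2⟩ := hprev
      have hlen : c - 1 < l.length := by
        by_contra hcon
        have h3 : l.take c = l.take (c - 1) := by
          rw [List.take_of_length_le (by omega), List.take_of_length_le (by omega)]
        rw [h3] at hspec
        omega
      have htake : l.take c = l.take (c - 1) ++ [l[c - 1]] := by
        conv_lhs => rw [show c = (c - 1) + 1 by omega]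
        rw [List.take_succ_eq_append_getElem hlen]
      by_cases hgB : g (l[c - 1]) ∈ B
      · have hgA : g (l[c - 1]) ∉ A := fun h => (disjoint_left.1 hAB) h hgB
        have e1 : occ g A (l.take c) = occ g A (l.take (c - 1)) := by
          rw [htake, occ_append_of_notMem g hgA]
        rw [e1] at hspec
        have h3 : B.card ≤ 2 * (occ g B (l.take c)).card := by omega
        obtain ⟨S, hS, T, hT, f1, f2, L, f3, f4, f5⟩ :=
          step_case g (a := b) (b := a + 1) ih2.symm hAB.symm hB hA (c := c) h3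
            (by rw [e1]; omega)
        have hab : b + 1 + (a + 1) = a + 1 + (b + 1) := by ring
        rw [hab] at f1 f2 f3
        exact ⟨T, hT, S, hS, f2, f1, L, f3, f4, fun d hd => (f5 d hd).symm⟩
      · have e1 : occ g B (l.take c) = occ g B (l.take (c - 1)) := by
          rw [htake, occ_append_of_notMem g hgB]
        rw [e1] at hspec
        have h3 : A.card ≤ 2 * (occ g A (l.take c)).card := by omega
        exact step_case g ih1 hAB hA hB (c := c) h3 (by rw [e1]; omega)
  · push Not at hex
    obtain ⟨h1, h2⟩ := hex l.length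
    rw [List.take_length] at h1
    refine trivial_case g l (S := A \ occ g A l) (T := B) sdiff_subset (Subset.refl B) ?_
      (le_pow_mul _ _) (Or.inl ?_)
    · have h3 : A.card ≤ 2 * (A \ occ g A l).card := by
        rw [card_sdiff_of_subset (occ_sub g _ _)]
        omega
      calc A.card ≤ 2 * (A \ occ g A l).card := h3
        _ ≤ 2 ^ (a + 1 + (b + 1)) * (A \ occ g A l).card := by
            apply Nat.mul_le_mul_right
            calc 2 = 2 ^ 1 := by norm_num
              _ ≤ 2 ^ (a + 1 + (b + 1)) := Nat.pow_le_pow_right (by norm_num) (by omega)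
    · intro s hs hcon
      rw [mem_sdiff, mem_occ] at hcon
      exact hcon.2 ⟨hcon.1, List.mem_map.2 ⟨s, hs, rfl⟩⟩

private theorem zero_case (b : ℕ) : St (α := α) g 0 b := by
  intro l A B hAB hA hB
  refine trivial_case g l (Subset.refl A) (Subset.refl B) (le_pow_mul _ _) (le_pow_mul _ _)
    (Or.inl ?_)
  intro s hs hcon
  have h1 := hA _ hcon
  have h2 : 0 < (l.map g).count (g s) := List.count_pos_iff.2 (List.mem_map.2 ⟨s, hs, rfl⟩)
  omega

private theorem all_case (n : ℕ) : ∀ a b : ℕ, a + b = n → St (α := α) g a b := by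
  induction n with
  | zero =>
    intro a b hab
    have : a = 0 := by omega
    rw [this]
    exact zero_case g b
  | succ n ih =>
    intro a b hab
    rcases a with _ | a
    · exact zero_case g b
    rcases b with _ | b
    · exact (zero_case g (a + 1)).symm
    exact main_case g (ih a (b + 1) (by omega)) (ih (a + 1) b (by omega))

end

/-- The lemma of Alon and Maass. -/
theorem alon_maass {α V : Type} [DecidableEq V] (g : α → V) (a b : ℕ) (l : List α)
    (A B : Finset V) (hAB : Disjoint A B) (hA : ∀ v ∈ A, (l.map g).count v ≤ a)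
    (hB : ∀ v ∈ B, (l.map g).count v ≤ b) :
    ∃ S ⊆ A, ∃ T ⊆ B, A.card ≤ 2 ^ (a + b) * S.card ∧ B.card ≤ 2 ^ (a + b) * T.card ∧
      ∃ L : List (List α), L.length ≤ a + b + 1 ∧ L.flatten = l ∧
        ∀ c ∈ L, (∀ s ∈ c, g s ∉ S) ∨ (∀ s ∈ c, g s ∉ T) :=
  all_case g (a + b) a b rfl l A B hAB hA hB

end Pool.Agent.BBR
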