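import Mathlib

set_option autoImplicit false

/-!
PROJECT BBR (MP_80b7d7_lc, helper82), module BBR-ApA.

Plan. Averaging over all R : Fin l → Finset ι. For fixed x: if h j x = 1 for all j both sides are 1 for every R. If
h j0 x = 0 for some j0 then ∏ j, h j x = 0 and the left product is 1 iff every factor is 1, i.e.
∑ j ∈ R t, (1 + h j x) = 0 for all t; the number of R : Finset ι with this property is exactly half of all
(toggle j0 in R changes the sum by 1 + 0 = 1), so the number of bad R is (1/2^l) of all (2^(card ι))^l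
(Fintype.card_pi / piFinset). So ∑ over R of card(bad x) = ∑ over x of card (bad R) ≤ card X * (number of R) / 2^l
(Finset.sum_comm / card_filter double count), hence some R is at most the average (Finset.exists_le_of_sum_le or by
contradiction).
-/

namespace Pool.Agent.BBR

private theorem half {ι : Type} [Fintype ι] [DecidableEq ι] (c : ι → ZMod 2) (j0 : ι) (h0 : c j0 = 1) :
    (Finset.univ.filter fun R : Finset ι => ∑ j ∈ R, c j = 0).card * 2 = Fintype.card (Finset ι) := by
  obtain ⟨tg, htg⟩ : ∃ tg : Finset ι → Finset ι, tg = fun R => if j0 ∈ R then R.erase j0 else insert j0 R :=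
    ⟨_, rfl⟩
  have h1 : ∀ R, tg (tg R) = R := by
    intro R
    rw [htg]
    by_cases h : j0 ∈ R
    · simp only [if_pos h, Finset.mem_erase, ne_eq, not_true_eq_false, false_and, if_false]
      exact Finset.insert_erase h
    · simp only [if_neg h, Finset.mem_insert, true_or, if_true]
      exact Finset.erase_insert h
  have h2 : ∀ R, ∑ j ∈ tg R, c j = ∑ j ∈ R, c j + 1 := by
    intro R
    rw [htg]
    by_cases h : j0 ∈ R
    · simp only [if_pos h]
      rw [← Finset.add_sum_erase R c h, h0, add_comm (1 : ZMod 2), add_assoc]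
      have h3 : (1 : ZMod 2) + 1 = 0 := by decide
      rw [h3, add_zero]
    · simp only [if_neg h]
      rw [Finset.sum_insert h, h0, add_comm]
  have hz : ∀ s : ZMod 2, s = 0 → ¬ (s + 1 = 0) := by decide
  have hz' : ∀ s : ZMod 2, ¬ (s = 0) → s + 1 = 0 := by decide
  have h3 : (Finset.univ.filter fun R : Finset ι => ∑ j ∈ R, c j = 0).card =
      (Finset.univ.filter fun R : Finset ι => ¬ (∑ j ∈ R, c j = 0)).card := by
    refine Finset.card_nbij' tg tg ?_ ?_ (fun R _ => h1 R) (fun R _ => h1 R)
    · intro R hR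
      rw [Finset.coe_filter] at hR
      refine Finset.mem_coe.2 (Finset.mem_filter.2 ⟨Finset.mem_univ _, ?_⟩)
      rw [h2]
      exact hz _ hR.2
    · intro R hR
      rw [Finset.coe_filter] at hR
      refine Finset.mem_coe.2 (Finset.mem_filter.2 ⟨Finset.mem_univ _, ?_⟩)
      rw [h2]
      exact hz' _ hR.2
  have h4 := Finset.card_filter_add_card_filter_not (s := (Finset.univ : Finset (Finset ι)))
    (fun R : Finset ι => ∑ j ∈ R, c j = 0)
  rw [← h3, Finset.card_univ] at h4
  rw [← h4]
  ring

private theorem powc {ι : Type} [Fintype ι] [DecidableEq ι] (l : ℕ) (c : ι → ZMod 2) (j0 : ι)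
    (h0 : c j0 = 1) :
    (Finset.univ.filter fun R : Fin l → Finset ι => ∀ t, ∑ j ∈ R t, c j = 0).card * 2 ^ l =
      Fintype.card (Fin l → Finset ι) := by
  have h1 : (Finset.univ.filter fun R : Fin l → Finset ι => ∀ t, ∑ j ∈ R t, c j = 0) =
      Fintype.piFinset fun _ => (Finset.univ.filter fun R : Finset ι => ∑ j ∈ R, c j = 0) := by
    ext R
    simp
  rw [h1, Fintype.card_piFinset_const, ← mul_pow, half c j0 h0, Fintype.card_fun, Fintype.card_fin]

/-- Razborov's approximation of a product. -/
theorem approx_prod {X ι : Type} [Fintype X] [Fintype ι] (l : ℕ) (h : ι → X → ZMod 2) :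
    ∃ R : Fin l → Finset ι,
      (Finset.univ.filter fun x => ∏ t, (1 + ∑ j ∈ R t, (1 + h j x)) ≠ ∏ j, h j x).card * 2 ^ l ≤
        Fintype.card X := by
  classical
  have hz : ∀ s : ZMod 2, s ≠ 1 → s = 0 := by decide
  have hz1 : ∀ s : ZMod 2, 1 + s ≠ 0 → s = 0 := by decide
  have hz2 : (1 : ZMod 2) + 1 = 0 := by decide
  have key : ∀ x : X, (Finset.univ.filter fun R : Fin l → Finset ι =>
      ∏ t, (1 + ∑ j ∈ R t, (1 + h j x)) ≠ ∏ j, h j x).card * 2 ^ l ≤ Fintype.card (Fin l → Finset ι) := by
    intro x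
    by_cases hx : ∃ j0, h j0 x ≠ 1
    · obtain ⟨j0, hj0⟩ := hx
      have h0 : h j0 x = 0 := hz _ hj0
      rw [← powc l (fun j => 1 + h j x) j0 (by
        show 1 + h j0 x = 1
        rw [h0, add_zero])]
      refine Nat.mul_le_mul_right _ (Finset.card_le_card ?_)
      intro R hR
      refine Finset.mem_filter.2 ⟨Finset.mem_univ _, ?_⟩
      have h1 := (Finset.mem_filter.1 hR).2
      rw [Finset.prod_eq_zero (Finset.mem_univ j0) h0] at h1
      intro t
      exact hz1 _ (Finset.prod_ne_zero_iff.1 h1 t (Finset.mem_univ t))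
    · have hx' : ∀ j, h j x = 1 := by
        intro j
        by_contra hcon
        exact hx ⟨j, hcon⟩
      have h1 : (Finset.univ.filter fun R : Fin l → Finset ι =>
          ∏ t, (1 + ∑ j ∈ R t, (1 + h j x)) ≠ ∏ j, h j x) = ∅ := by
        refine Finset.filter_eq_empty_iff.2 fun R _ => ?_
        simp only [hx', hz2, Finset.sum_const_zero, add_zero, Finset.prod_const_one, ne_eq,
          not_true_eq_false, not_false_eq_true]
      rw [h1, Finset.card_empty, zero_mul]
      exact Nat.zero_le _
  have hsum : ∑ R : Fin l → Finset ι, (Finset.univ.filter fun x =>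
      ∏ t, (1 + ∑ j ∈ R t, (1 + h j x)) ≠ ∏ j, h j x).card * 2 ^ l ≤
        ∑ _R : Fin l → Finset ι, Fintype.card X := by
    have h1 : ∑ R : Fin l → Finset ι, (Finset.univ.filter fun x =>
        ∏ t, (1 + ∑ j ∈ R t, (1 + h j x)) ≠ ∏ j, h j x).card * 2 ^ l =
        ∑ x : X, (Finset.univ.filter fun R : Fin l → Finset ι =>
          ∏ t, (1 + ∑ j ∈ R t, (1 + h j x)) ≠ ∏ j, h j x).card * 2 ^ l := by
      rw [← Finset.sum_mul, ← Finset.sum_mul]
      congr 1
      simp only [Finset.card_filter]
      exact Finset.sum_comm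
    rw [h1]
    refine (Finset.sum_le_sum fun x _ => key x).trans ?_
    rw [Finset.sum_const, Finset.sum_const, Finset.card_univ, Finset.card_univ, smul_eq_mul, smul_eq_mul,
      mul_comm]
  obtain ⟨R, -, hR⟩ := Finset.exists_le_of_sum_le
    (Finset.univ_nonempty (α := Fin l → Finset ι)) hsum
  exact ⟨R, hR⟩

end Pool.Agent.BBR
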