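import Pool.Agent.BBR.Defs

set_option autoImplicit false

/-!
PROJECT BBR (MP_80b7d7_lc, helper82), module BBR-Pol: functions on the cube of bounded degree over the field with two
elements: products, dimension, degree of the conjunction.
-/

namespace Pool.Agent.BBR

theorem Pol_mono (m : ℕ) {k l : ℕ} (h : k ≤ l) : Pol m k ≤ Pol m l := by
  refine Submodule.span_mono ?_
  rintro f ⟨T, hT, rfl⟩
  exact ⟨T, hT.trans h, rfl⟩

private theorem pl_mon {m k : ℕ} {T : Finset (Fin m)} (hT : T.card ≤ k) :
    (fun y : Fin m → Bool => ∏ i ∈ T, (if y i then (1 : ZMod 2) else 0)) ∈ Pol m k :=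
  Submodule.subset_span ⟨T, hT, rfl⟩

theorem const_mem_Pol (m k : ℕ) (c : ZMod 2) : (fun _ => c) ∈ Pol m k := by
  have h1 := Submodule.smul_mem (Pol m k) c (pl_mon (m := m) (k := k) (T := ∅) (Nat.zero_le _))
  convert h1 using 1
  funext y
  simp

private theorem pl_mul {m : ℕ} (T T' : Finset (Fin m)) (y : Fin m → Bool) :
    (∏ i ∈ T, (if y i then (1 : ZMod 2) else 0)) * (∏ i ∈ T', (if y i then (1 : ZMod 2) else 0)) =
      ∏ i ∈ T ∪ T', (if y i then (1 : ZMod 2) else 0) := by
  rw [Finset.prod_boole, Finset.prod_boole, Finset.prod_boole]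
  by_cases h1 : ∀ i ∈ T, y i = true
  · by_cases h2 : ∀ i ∈ T', y i = true
    · have h3 : ∀ i ∈ T ∪ T', y i = true := by
        intro i hi
        rcases Finset.mem_union.1 hi with h | h
        · exact h1 i h
        · exact h2 i h
      rw [if_pos h1, if_pos h2, if_pos h3, mul_one]
    · have h3 : ¬ ∀ i ∈ T ∪ T', y i = true := fun h => h2 fun i hi => h i (Finset.mem_union_right _ hi)
      rw [if_neg h2, if_neg h3, mul_zero]
  · have h3 : ¬ ∀ i ∈ T ∪ T', y i = true := fun h => h1 fun i hi => h i (Finset.mem_union_left _ hi)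
    rw [if_neg h1, if_neg h3, zero_mul]

theorem mul_mem_Pol (m k l : ℕ) (f g : (Fin m → Bool) → ZMod 2) (hf : f ∈ Pol m k)
    (hg : g ∈ Pol m l) : (fun y => f y * g y) ∈ Pol m (k + l) := by
  refine Submodule.span_induction (p := fun f _ => (fun y => f y * g y) ∈ Pol m (k + l))
    ?_ ?_ ?_ ?_ hf
  · rintro _ ⟨T, hT, rfl⟩
    refine Submodule.span_induction (p := fun g _ => (fun y =>
      (∏ i ∈ T, (if y i then (1 : ZMod 2) else 0)) * g y) ∈ Pol m (k + l)) ?_ ?_ ?_ ?_ hg
    · rintro _ ⟨T', hT', rfl⟩
      have h1 : (fun y : Fin m → Bool => (∏ i ∈ T, (if y i then (1 : ZMod 2) else 0)) *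
          (∏ i ∈ T', (if y i then (1 : ZMod 2) else 0))) =
          fun y => ∏ i ∈ T ∪ T', (if y i then (1 : ZMod 2) else 0) := funext fun y => pl_mul T T' y
      rw [h1]
      exact pl_mon ((Finset.card_union_le _ _).trans (Nat.add_le_add hT hT'))
    · simp only [Pi.zero_apply, mul_zero]
      exact const_mem_Pol m _ 0
    · intro a b _ _ ha hb
      have h1 := Submodule.add_mem _ ha hb
      convert h1 using 1
      funext y
      simp only [Pi.add_apply, mul_add]
    · intro c a _ ha
      have h1 := Submodule.smul_mem _ c ha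
      convert h1 using 1
      funext y
      simp only [Pi.smul_apply, smul_eq_mul]
      ring
  · simp only [Pi.zero_apply, zero_mul]
    exact const_mem_Pol m _ 0
  · intro a b _ _ ha hb
    have h1 := Submodule.add_mem _ ha hb
    convert h1 using 1
    funext y
    simp only [Pi.add_apply, add_mul]
  · intro c a _ ha
    have h1 := Submodule.smul_mem _ c ha
    convert h1 using 1
    funext y
    simp only [Pi.smul_apply, smul_eq_mul]
    ring

theorem prod_mem_Pol (m k : ℕ) {ι : Type} (s : Finset ι) (f : ι → (Fin m → Bool) → ZMod 2)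
    (hf : ∀ i ∈ s, f i ∈ Pol m k) : (fun y => ∏ i ∈ s, f i y) ∈ Pol m (s.card * k) := by
  classical
  induction s using Finset.induction_on with
  | empty =>
    simp only [Finset.prod_empty]
    exact const_mem_Pol m _ 1
  | insert a s ha ih =>
    have h1 := mul_mem_Pol m k (s.card * k) (f a) (fun y => ∏ i ∈ s, f i y)
      (hf a (Finset.mem_insert_self _ _)) (ih fun i hi => hf i (Finset.mem_insert_of_mem hi))
    rw [Finset.card_insert_of_notMem ha]
    have h2 : (s.card + 1) * k = k + s.card * k := by ring
    rw [h2]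
    convert h1 using 1
    funext y
    rw [Finset.prod_insert ha]

/-- The dimension of the space of the functions of degree at most `k`. -/
theorem finrank_Pol_le (m k : ℕ) :
    Module.finrank (ZMod 2) (Pol m k) ≤ ∑ i ∈ Finset.range (k + 1), m.choose i := by
  classical
  let mon : Finset (Fin m) → ((Fin m → Bool) → ZMod 2) := fun T y =>
    ∏ i ∈ T, (if y i then (1 : ZMod 2) else 0)
  let S : Finset (Finset (Fin m)) := Finset.univ.filter fun T => T.card ≤ k
  have h1 : Pol m k = Submodule.span (ZMod 2) ((S.image mon : Finset _) : Set ((Fin m → Bool) → ZMod 2)) := by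
    unfold Pol
    congr 1
    ext f
    rw [Finset.mem_coe, Finset.mem_image]
    constructor
    · rintro ⟨T, hT, rfl⟩
      exact ⟨T, Finset.mem_filter.2 ⟨Finset.mem_univ _, hT⟩, rfl⟩
    · rintro ⟨T, hT, rfl⟩
      exact ⟨T, (Finset.mem_filter.1 hT).2, rfl⟩
  rw [h1]
  refine (finrank_span_finset_le_card _).trans (Finset.card_image_le.trans ?_)
  have h2 : S ⊆ (Finset.range (k + 1)).biUnion fun i => Finset.powersetCard i Finset.univ := by
    intro T hT
    refine Finset.mem_biUnion.2 ⟨T.card, Finset.mem_range.2 (Nat.lt_succ_of_le (Finset.mem_filter.1 hT).2), ?_⟩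
    exact Finset.mem_powersetCard.2 ⟨Finset.subset_univ _, rfl⟩
  refine (Finset.card_le_card h2).trans (Finset.card_biUnion_le.trans (le_of_eq ?_))
  refine Finset.sum_congr rfl fun i _ => ?_
  rw [Finset.card_powersetCard, Finset.card_univ, Fintype.card_fin]

private theorem pl_sum {m k : ℕ} (hk : k < m) {f : (Fin m → Bool) → ZMod 2} (hf : f ∈ Pol m k) :
    ∑ y, f y = 0 := by
  classical
  refine Submodule.span_induction (p := fun f _ => ∑ y, f y = 0) ?_ ?_ ?_ ?_ hf
  · rintro _ ⟨T, hT, rfl⟩
    obtain ⟨i0, hi0⟩ : ∃ i, i ∉ T := by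
      by_contra hcon
      push Not at hcon
      have h1 : T = Finset.univ := Finset.eq_univ_iff_forall.2 hcon
      rw [h1, Finset.card_univ, Fintype.card_fin] at hT
      omega
    have hval : ∀ y : Fin m → Bool, (∏ i ∈ T, (if (Function.update y i0 (!y i0)) i then (1 : ZMod 2) else 0)) =
        ∏ i ∈ T, (if y i then (1 : ZMod 2) else 0) := by
      intro y
      refine Finset.prod_congr rfl fun i hi => ?_
      have h1 : i ≠ i0 := fun h => hi0 (h ▸ hi)
      rw [Function.update_of_ne h1]
    refine Finset.sum_involution (fun y _ => Function.update y i0 (!y i0)) ?_ ?_ ?_ ?_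
    · intro y _
      rw [hval y]
      exact CharTwo.add_self_eq_zero _
    · intro y _ _ h
      have h1 := congrFun h i0
      rw [Function.update_self] at h1
      revert h1
      cases y i0 <;> simp
    · intro y _
      exact Finset.mem_univ _
    · intro y _
      funext i
      by_cases hi : i = i0
      · rw [hi]
        simp
      · rw [Function.update_of_ne hi, Function.update_of_ne hi]
  · simp
  · intro a b _ _ ha hb
    simp only [Pi.add_apply, Finset.sum_add_distrib, ha, hb, add_zero]
  · intro c a _ ha
    simp only [Pi.smul_apply, smul_eq_mul, ← Finset.mul_sum, ha, mul_zero]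

/-- The function `∏ y i` has degree `m`. -/
theorem le_of_and_mem (m k : ℕ)
    (h : (fun y : Fin m → Bool => if wt y = m then (0 : ZMod 2) else 1) ∈ Pol m k) : m ≤ k := by
  classical
  by_contra hcon
  have hk : k < m := by omega
  have h1 := pl_sum hk h
  have h2 : ∀ y : Fin m → Bool, (if wt y = m then (0 : ZMod 2) else 1) =
      1 - (if y = fun _ => true then 1 else 0) := by
    intro y
    have h3 : wt y = m ↔ y = fun _ => true := by
      constructor
      · intro h4
        unfold wt at h4
        have h5 : (Finset.univ.filter fun i => y i = true) = Finset.univ := by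
          rw [← Finset.card_eq_iff_eq_univ, Fintype.card_fin]
          exact h4
        funext i
        have h6 : i ∈ Finset.univ.filter fun i => y i = true := by
          rw [h5]
          exact Finset.mem_univ i
        exact (Finset.mem_filter.1 h6).2
      · intro h4
        rw [h4]
        unfold wt
        simp
    by_cases hy : y = fun _ => true
    · rw [if_pos (h3.2 hy), if_pos hy, sub_self]
    · rw [if_neg (fun h => hy (h3.1 h)), if_neg hy, sub_zero]
  simp only [h2] at h1
  rw [Finset.sum_sub_distrib, Finset.sum_ite_eq' Finset.univ, if_pos (Finset.mem_univ _),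
    Finset.sum_const, Finset.card_univ, Fintype.card_fun, Fintype.card_bool, Fintype.card_fin,
    nsmul_eq_mul, mul_one] at h1
  have h4 : ((2 ^ m : ℕ) : ZMod 2) = 0 := by
    rw [Nat.cast_pow]
    have h5 : ((2 : ℕ) : ZMod 2) = 0 := by decide
    rw [h5, zero_pow (by omega)]
  rw [h4, zero_sub] at h1
  exact absurd h1 (by decide)

end Pool.Agent.BBR
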