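import Pool.Agent.BBR.ApA
import Pool.Agent.BBR.Pol

set_option autoImplicit false

/-!
PROJECT BBR (MP_80b7d7_lc, helper82), module BBR-ApB.

Plan. Let (G, lev, ...) be the circuit and 2 := ZMod 2 reduction. Claim by induction on t: there are Gt : Fin S →
(Fin m → Bool) → ZMod 2 and E : Fin S → Finset such that for every i with lev i < t: Gt i ∈ Pol m (r * l^(lev i + 1)),
(E i).card * 2^l ≤ 2^m and for all y with y ∉ E j for all j with lev j ≤ lev i: Gt i y = (G i y : ZMod 2). Step t → t+1: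
for lev i = t write G i = M.prod, every factor is b + ∑ c_j G_j with b ∈ B, lev j < t (Submodule.mem_sup, mem_span_set or
Submodule.span_induction; it is enough to show by span_induction: for every h ∈ B ⊔ span {G j | lev j < t} there is
ht ∈ Pol m (r * l^t) with ht y = (h y : ZMod 2) for all y outside the E j, lev j < t). Number the factors (M.toList, Fin length)
and apply approx_prod to the ht's: Gt i y = ∏ over a : Fin l of (1 + ∑ j ∈ R a, (1 + ht_j y)) ∈ Pol m (l * (r * l^t)), E i = the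
exceptional set there. At the end f ∈ B ⊔ span (range G): take E = union of the E i, card ≤ S * 2^m / 2^l, degree ≤ r * l^d
(lev i + 1 ≤ d, 1 ≤ l).
-/

namespace Pool.Agent.BBR

private theorem low {m S l r t : ℕ} (hl : 1 ≤ l) {B : Submodule ℤ ((Fin m → Bool) → ℤ)}
    (hB : ∀ f ∈ B, (fun y => ((f y : ℤ) : ZMod 2)) ∈ Pol m r) {G : Fin S → (Fin m → Bool) → ℤ}
    {lev : Fin S → ℕ} {Gt : Fin S → (Fin m → Bool) → ZMod 2} {E : Fin S → Finset (Fin m → Bool)}
    (hG : ∀ i, lev i < t → Gt i ∈ Pol m (r * l ^ (lev i + 1)) ∧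
      ∀ y, (∀ j, lev j ≤ lev i → y ∉ E j) → Gt i y = ((G i y : ℤ) : ZMod 2))
    {h : (Fin m → Bool) → ℤ} (hh : h ∈ B ⊔ Submodule.span ℤ {g | ∃ j, lev j < t ∧ g = G j}) :
    ∃ q ∈ Pol m (r * l ^ t), ∀ y, (∀ j, lev j < t → y ∉ E j) → q y = ((h y : ℤ) : ZMod 2) := by
  obtain ⟨b, hb, s, hs, rfl⟩ := Submodule.mem_sup.1 hh
  have hs' : ∃ q ∈ Pol m (r * l ^ t), ∀ y, (∀ j, lev j < t → y ∉ E j) → q y = ((s y : ℤ) : ZMod 2) := by
    clear hh
    induction hs using Submodule.span_induction with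
    | mem x hx =>
      obtain ⟨j, hj, rfl⟩ := hx
      obtain ⟨h1, h2⟩ := hG j hj
      refine ⟨Gt j, Pol_mono m ?_ h1, fun y hy => h2 y fun j' hj' => hy j' (lt_of_le_of_lt hj' hj)⟩
      exact Nat.mul_le_mul_left r (Nat.pow_le_pow_right hl hj)
    | zero =>
      exact ⟨0, Submodule.zero_mem _, fun y _ => by simp⟩
    | add x y _ _ hx hy =>
      obtain ⟨q, hq, hq'⟩ := hx
      obtain ⟨p, hp, hp'⟩ := hy
      refine ⟨q + p, Submodule.add_mem _ hq hp, fun z hz => ?_⟩
      rw [Pi.add_apply, Pi.add_apply, hq' z hz, hp' z hz, Int.cast_add]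
    | smul c x _ hx =>
      obtain ⟨q, hq, hq'⟩ := hx
      refine ⟨(c : ZMod 2) • q, Submodule.smul_mem _ _ hq, fun z hz => ?_⟩
      rw [Pi.smul_apply, Pi.smul_apply, hq' z hz, smul_eq_mul, smul_eq_mul, Int.cast_mul]
  obtain ⟨q, hq, hq'⟩ := hs'
  have h1 : r ≤ r * l ^ t := Nat.le_mul_of_pos_right r (Nat.pow_pos hl)
  refine ⟨(fun y => ((b y : ℤ) : ZMod 2)) + q, Submodule.add_mem _ (Pol_mono m h1 (hB b hb)) hq, fun y hy => ?_⟩
  rw [Pi.add_apply, Pi.add_apply, hq' y hy, Int.cast_add]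

private theorem one_gate {m l k : ℕ} (U : Finset (Fin m → Bool)) (M : Multiset ((Fin m → Bool) → ℤ))
    (hM : ∀ h ∈ M, ∃ q ∈ Pol m k, ∀ y, y ∉ U → q y = ((h y : ℤ) : ZMod 2)) :
    ∃ p ∈ Pol m (l * k), ∃ E : Finset (Fin m → Bool), E.card * 2 ^ l ≤ 2 ^ m ∧
      ∀ y, y ∉ U → y ∉ E → p y = ((M.prod y : ℤ) : ZMod 2) := by
  classical
  obtain ⟨L, rfl⟩ : ∃ L : List ((Fin m → Bool) → ℤ), (L : Multiset ((Fin m → Bool) → ℤ)) = M := ⟨M.toList, M.coe_toList⟩
  have h1 : ∀ j : Fin L.length, ∃ q ∈ Pol m k, ∀ y, y ∉ U → q y = ((L.get j y : ℤ) : ZMod 2) :=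
    fun j => hM _ (by rw [Multiset.mem_coe]; exact List.get_mem L j)
  choose q hq hq' using h1
  obtain ⟨R, hR⟩ := approx_prod (X := Fin m → Bool) l q
  refine ⟨fun y => ∏ t, (1 + ∑ j ∈ R t, (1 + q j y)), ?_,
    Finset.univ.filter fun x => ∏ t, (1 + ∑ j ∈ R t, (1 + q j x)) ≠ ∏ j, q j x, ?_, ?_⟩
  · have h2 := prod_mem_Pol m k (Finset.univ : Finset (Fin l)) (fun t y => 1 + ∑ j ∈ R t, (1 + q j y)) ?_
    · rwa [Finset.card_univ, Fintype.card_fin] at h2
    · intro t _
      have h3 : (fun y => 1 + ∑ j ∈ R t, (1 + q j y)) =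
          (fun _ => (1 : ZMod 2)) + ∑ j ∈ R t, ((fun _ => (1 : ZMod 2)) + q j) := by
        funext y
        rw [Pi.add_apply, Finset.sum_apply]
        rfl
      rw [h3]
      refine Submodule.add_mem _ (const_mem_Pol m k 1) (Submodule.sum_mem _ fun j _ => ?_)
      exact Submodule.add_mem _ (const_mem_Pol m k 1) (hq j)
  · have h4 : Fintype.card (Fin m → Bool) = 2 ^ m := by simp
    rw [h4] at hR
    exact hR
  · intro y hyU hyE
    rw [Finset.mem_filter, not_and] at hyE
    have h5 := not_not.1 (hyE (Finset.mem_univ y))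
    change ∏ t, (1 + ∑ j ∈ R t, (1 + q j y)) = _
    rw [h5]
    have h6 : ((L : Multiset ((Fin m → Bool) → ℤ)).prod y : ℤ) = ∏ j : Fin L.length, L.get j y := by
      rw [Multiset.prod_coe]
      have h7 : L.prod = ∏ j : Fin L.length, L.get j := by
        rw [← List.prod_ofFn, List.ofFn_get]
      rw [h7, Finset.prod_apply]
    rw [h6, Int.cast_prod]
    exact Finset.prod_congr rfl fun j _ => hq' j y hyU

/-- Razborov's approximation of a circuit by a polynomial of low degree. -/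
theorem approx_circuit (m S d l r : ℕ) (hl : 1 ≤ l) (B : Submodule ℤ ((Fin m → Bool) → ℤ))
    (hB : ∀ f ∈ B, (fun y => ((f y : ℤ) : ZMod 2)) ∈ Pol m r) (f : (Fin m → Bool) → ℤ)
    (hf : Comp B S d f) :
    ∃ p ∈ Pol m (r * l ^ d), ∃ E : Finset (Fin m → Bool), E.card * 2 ^ l ≤ S * 2 ^ m ∧
      ∀ y, y ∉ E → p y = ((f y : ℤ) : ZMod 2) := by
  classical
  obtain ⟨G, lev, hlev, hG, hfB⟩ := hf
  have key : ∀ t, ∃ (Gt : Fin S → (Fin m → Bool) → ZMod 2) (E : Fin S → Finset (Fin m → Bool)),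
      (∀ i, (E i).card * 2 ^ l ≤ 2 ^ m) ∧
      ∀ i, lev i < t → Gt i ∈ Pol m (r * l ^ (lev i + 1)) ∧
        ∀ y, (∀ j, lev j ≤ lev i → y ∉ E j) → Gt i y = ((G i y : ℤ) : ZMod 2) := by
    intro t
    induction t with
    | zero => exact ⟨fun _ => 0, fun _ => ∅, fun i => by simp, fun i hi => absurd hi (Nat.not_lt_zero _)⟩
    | succ t ih =>
      obtain ⟨Gt, E, hE, hGt⟩ := ih
      have hnew : ∀ i, ∃ p : (Fin m → Bool) → ZMod 2, ∃ F : Finset (Fin m → Bool), F.card * 2 ^ l ≤ 2 ^ m ∧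
          (lev i = t → p ∈ Pol m (l * (r * l ^ t)) ∧ ∀ y, (∀ j, lev j < t → y ∉ E j) → y ∉ F →
            p y = ((G i y : ℤ) : ZMod 2)) := by
        intro i
        by_cases hi : lev i = t
        · obtain ⟨M, hM, hM'⟩ := hG i
          obtain ⟨p, hp, F, hF, hpF⟩ := one_gate (l := l) (k := r * l ^ t)
            ((Finset.univ.filter fun j => lev j < t).biUnion E) M (fun h hh => by
              have h1 := hM h hh
              rw [hi] at h1
              obtain ⟨q, hq, hq'⟩ := low (t := t) hl hB hGt h1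
              refine ⟨q, hq, fun y hy => hq' y fun j hj hyj => hy ?_⟩
              exact Finset.mem_biUnion.2 ⟨j, Finset.mem_filter.2 ⟨Finset.mem_univ j, hj⟩, hyj⟩)
          refine ⟨p, F, hF, fun _ => ⟨hp, fun y hy hyF => ?_⟩⟩
          rw [hM']
          refine hpF y (fun h2 => ?_) hyF
          obtain ⟨j, hj, hyj⟩ := Finset.mem_biUnion.1 h2
          exact hy j (Finset.mem_filter.1 hj).2 hyj
        · exact ⟨0, ∅, by simp, fun h => absurd h hi⟩
      choose p F hF hpF using hnew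
      refine ⟨fun i => if lev i < t then Gt i else p i, fun i => if lev i < t then E i else F i, ?_, ?_⟩
      · intro i
        beta_reduce
        by_cases hi : lev i < t
        · rw [if_pos hi]
          exact hE i
        · rw [if_neg hi]
          exact hF i
      · intro i hi
        beta_reduce
        by_cases hit : lev i < t
        · rw [if_pos hit]
          refine ⟨(hGt i hit).1, fun y hy => (hGt i hit).2 y fun j hj => ?_⟩
          have h1 := hy j hj
          rwa [if_pos (lt_of_le_of_lt hj hit)] at h1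
        · have hit' : lev i = t := by omega
          rw [if_neg hit]
          obtain ⟨h1, h2⟩ := hpF i hit'
          refine ⟨?_, fun y hy => h2 y (fun j hj => ?_) ?_⟩
          · rw [hit']
            have h3 : r * l ^ (t + 1) = l * (r * l ^ t) := by ring
            rw [h3]
            exact h1
          · have h3 := hy j (by omega)
            rwa [if_pos hj] at h3
          · have h3 := hy i le_rfl
            rwa [if_neg hit] at h3
  obtain ⟨Gt, E, hE, hGt⟩ := key d
  have hfB' : f ∈ B ⊔ Submodule.span ℤ {g | ∃ j, lev j < d ∧ g = G j} := by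
    have h1 : Set.range G ⊆ {g | ∃ j, lev j < d ∧ g = G j} := by
      rintro _ ⟨j, rfl⟩
      exact ⟨j, hlev j, rfl⟩
    exact sup_le_sup_left (Submodule.span_mono h1) B hfB
  obtain ⟨p, hp, hp'⟩ := low (t := d) hl hB hGt hfB'
  refine ⟨p, hp, Finset.univ.biUnion E, ?_, fun y hy => hp' y fun j _ hyj => hy ?_⟩
  · calc (Finset.univ.biUnion E).card * 2 ^ l ≤ (∑ i, (E i).card) * 2 ^ l :=
        Nat.mul_le_mul_right _ Finset.card_biUnion_le
      _ = ∑ i, (E i).card * 2 ^ l := Finset.sum_mul _ _ _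
      _ ≤ ∑ _i : Fin S, 2 ^ m := Finset.sum_le_sum fun i _ => hE i
      _ = S * 2 ^ m := by simp
  · exact Finset.mem_biUnion.2 ⟨j, Finset.mem_univ j, hyj⟩

end Pool.Agent.BBR
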