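import Pool.Agent.BBR.Defs

set_option autoImplicit false

/-!
PROJECT BBR (MP_80b7d7_lc, helper82), module BBR-Chi: coefficients of the characteristic polynomial.
-/

namespace Pool.Agent.BBR

private theorem chi_eval (n i : ℕ) (z : Fin n × Fin n → ℤ) :
    MvPolynomial.eval (fun q => (z q : ℚ))
      (MvPolynomial.map (Int.castRingHom ℚ) ((Matrix.charpoly.univ ℤ (Fin n)).coeff i)) =
      (((Matrix.of fun a b => z (a, b)).charpoly.coeff i : ℤ) : ℚ) := by
  rw [MvPolynomial.eval_map]
  have h1 := Matrix.charpoly.univ_coeff_eval₂Hom (Fin n) (Int.castRingHom ℚ) (fun q => (z q : ℚ)) i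
  rw [MvPolynomial.coe_eval₂Hom] at h1
  rw [h1]
  have h2 : Matrix.of (Function.curry fun q : Fin n × Fin n => (z q : ℚ)) =
      (Matrix.of fun a b => z (a, b)).map (Int.castRingHom ℚ) := by
    ext a b
    rfl
  rw [h2, Matrix.charpoly_map, Polynomial.coeff_map]
  rfl

private theorem chi_deg (n i : ℕ) :
    (MvPolynomial.map (Int.castRingHom ℚ) ((Matrix.charpoly.univ ℤ (Fin n)).coeff i)).totalDegree < n + 1 := by
  have h0 : MvPolynomial.map (Int.castRingHom ℚ) ((Matrix.charpoly.univ ℤ (Fin n)).coeff i) =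
      (Matrix.charpoly.univ ℚ (Fin n)).coeff i := by
    rw [← Matrix.charpoly.univ_map_map (Fin n) (Int.castRingHom ℚ), Polynomial.coeff_map]
  rw [h0]
  by_cases hi : i ≤ n
  · have h1 := Matrix.charpoly.univ_coeff_isHomogeneous (n := Fin n) ℚ i (n - i)
      (by rw [Fintype.card_fin]; omega)
    have h2 := h1.totalDegree_le
    omega
  · have h1 : (Matrix.charpoly.univ ℚ (Fin n)).coeff i = 0 := by
      refine Polynomial.coeff_eq_zero_of_natDegree_lt ?_
      rw [Matrix.charpoly.univ_natDegree, Fintype.card_fin]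
      omega
    rw [h1, MvPolynomial.totalDegree_zero]
    omega

/-- The coefficients of the characteristic polynomial are polynomials of degree at most `n` in the
entries. -/
theorem chi_mem (n N i : ℕ) :
    (fun b : Bits n N => (mat b).charpoly.coeff i) ∈ Inputs n N (n + 1) 0 := by
  refine Submodule.subset_span ⟨∅, le_rfl, fun b => (mat b).charpoly.coeff i,
    ⟨MvPolynomial.map (Int.castRingHom ℚ) ((Matrix.charpoly.univ ℤ (Fin n)).coeff i), chi_deg n i,
      fun z => ⟨_, chi_eval n i z⟩, fun b => ?_⟩, ?_⟩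
  · have h1 := chi_eval n i (fun q => mat b q.1 q.2)
    exact h1.symm
  · funext b
    rw [Finset.prod_empty, one_mul]

end Pool.Agent.BBR
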