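import Pool.Agent.BBR.VaB
import Pool.Agent.BBR.Pol

set_option autoImplicit false

/-!
PROJECT BBR (MP_80b7d7_lc, helper82), module BBR-PuA: substitution makes the inputs polynomials of
low degree modulo 2.
-/

namespace Pool.Agent.BBR

open MvPolynomial

private theorem bit_mem {n N m : ℕ} (β : Fin n → Fin n → Fin N → Bool ⊕ Fin m) (t : Var n N) :
    (fun y => ((bit t (sub β y) : ℤ) : ZMod 2)) ∈ Pol m 1 := by
  rcases h : β t.1 t.2.1 t.2.2 with c | i
  · have h1 : (fun y => ((bit t (sub β y) : ℤ) : ZMod 2)) =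
        fun _ => (((if c then 1 else 0 : ℤ) : ℤ) : ZMod 2) := by
      funext y
      unfold bit sub
      rw [h]
      rfl
    rw [h1]
    exact const_mem_Pol m 1 _
  · refine Submodule.subset_span ⟨{i}, by rw [Finset.card_singleton], ?_⟩
    funext y
    rw [Finset.prod_singleton]
    unfold bit sub
    rw [h]
    by_cases h2 : y i = true
    · simp [h2]
    · simp [h2]

private theorem mat_mod {n N m L : ℕ} (β : Fin n → Fin n → Fin N → Bool ⊕ Fin m)
    (hβ : ∀ i j (k : Fin N), (k : ℕ) < L → ∃ c, β i j k = Sum.inl c) (y y' : Fin m → Bool)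
    (i j : Fin n) : mat (sub β y) i j ≡ mat (sub β y') i j [ZMOD 2 ^ L] := by
  rw [Int.modEq_iff_dvd]
  unfold mat
  rw [Matrix.of_apply, Matrix.of_apply, ← Finset.sum_sub_distrib]
  refine Finset.dvd_sum fun k _ => ?_
  rw [← mul_sub]
  by_cases hk : (k : ℕ) < L
  · obtain ⟨c, hc⟩ := hβ i j k hk
    have h1 : bit (i, j, k) (sub β y') = bit (i, j, k) (sub β y) := by
      unfold bit sub
      dsimp only
      rw [hc]
      rfl
    rw [h1, sub_self, mul_zero]
    exact dvd_zero _
  · exact Dvd.dvd.mul_right (pow_dvd_pow 2 (not_lt.1 hk)) _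

private theorem val_const {n N D m L : ℕ} (hD : D ≤ 2 ^ L)
    (β : Fin n → Fin n → Fin N → Bool ⊕ Fin m)
    (hβ : ∀ i j (k : Fin N), (k : ℕ) < L → ∃ c, β i j k = Sum.inl c) {g : Bits n N → ℤ}
    (hg : IsVal D g) (y y' : Fin m → Bool) :
    ((g (sub β y) : ℤ) : ZMod 2) = ((g (sub β y') : ℤ) : ZMod 2) := by
  obtain ⟨P, hP, hint, hval⟩ := hg
  have h1 := multi_var L P (lt_of_lt_of_le hP hD) hint (fun q => mat (sub β y) q.1 q.2)
    (fun q => mat (sub β y') q.1 q.2) (fun q => mat_mod β hβ y y' q.1 q.2) _ _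
    (hval (sub β y)).symm (hval (sub β y')).symm
  exact (ZMod.intCast_eq_intCast_iff _ _ 2).2 h1

/-- The inputs become polynomials of degree at most `r` after a substitution which makes the low
bits constant. -/
theorem pull_inputs {n N D r m L : ℕ} (hD : D ≤ 2 ^ L)
    (β : Fin n → Fin n → Fin N → Bool ⊕ Fin m)
    (hβ : ∀ i j (k : Fin N), (k : ℕ) < L → ∃ c, β i j k = Sum.inl c) (f : Bits n N → ℤ)
    (hf : f ∈ Inputs n N D r) :
    (fun y => ((f (sub β y) : ℤ) : ZMod 2)) ∈ Pol m r := by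
  unfold Inputs at hf
  induction hf using Submodule.span_induction with
  | mem f hf =>
    obtain ⟨T, hT, g, hg, rfl⟩ := hf
    have h1 : (fun y => ((((∏ t ∈ T, bit t (sub β y)) * g (sub β y) : ℤ)) : ZMod 2)) =
        fun y => (∏ t ∈ T, ((bit t (sub β y) : ℤ) : ZMod 2)) *
          ((g (sub β fun _ => false) : ℤ) : ZMod 2) := by
      funext y
      rw [Int.cast_mul, Int.cast_prod, val_const hD β hβ hg y fun _ => false]
    have h2 := mul_mem_Pol m (T.card * 1) 0 _ _
      (prod_mem_Pol m 1 T (fun t y => ((bit t (sub β y) : ℤ) : ZMod 2)) fun t _ => bit_mem β t)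
      (const_mem_Pol m 0 ((g (sub β fun _ => false) : ℤ) : ZMod 2))
    show (fun y => ((((∏ t ∈ T, bit t (sub β y)) * g (sub β y) : ℤ)) : ZMod 2)) ∈ Pol m r
    rw [h1]
    exact Pol_mono m (by omega) h2
  | zero =>
    have h1 : (fun y : Fin m → Bool => (((0 : Bits n N → ℤ) (sub β y) : ℤ) : ZMod 2)) = 0 := by
      funext y
      simp
    rw [h1]
    exact Submodule.zero_mem _
  | add f g _ _ hf hg =>
    have h1 : (fun y => (((f + g) (sub β y) : ℤ) : ZMod 2)) =
        (fun y => ((f (sub β y) : ℤ) : ZMod 2)) + fun y => ((g (sub β y) : ℤ) : ZMod 2) := by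
      funext y
      rw [Pi.add_apply, Pi.add_apply, Int.cast_add]
    rw [h1]
    exact Submodule.add_mem _ hf hg
  | smul c f _ hf =>
    have h1 : (fun y => (((c • f) (sub β y) : ℤ) : ZMod 2)) =
        ((c : ℤ) : ZMod 2) • fun y => ((f (sub β y) : ℤ) : ZMod 2) := by
      funext y
      rw [Pi.smul_apply, Pi.smul_apply, smul_eq_mul, smul_eq_mul, Int.cast_mul]
    rw [h1]
    exact Submodule.smul_mem _ _ hf

end Pool.Agent.BBR
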