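import Pool.Agent.BBR.Defs

set_option autoImplicit false

/-!
PROJECT BBR (MP_80b7d7_lc, helper82), module BBR-PuB.

Plan. Comp.comp: gates G i ∘ φ, same levels, the multiset M.map (fun h => fun y => h (φ y)); membership of h ∘ φ in
C ⊔ span {...}: use Submodule.map of LinearMap.funLeft ℤ ℤ φ (map_sup, map_span) or span_induction; Multiset.prod of
functions: Pi/Multiset.prod_map with the ring hom f ↦ f ∘ φ (Pi.ringHom or Multiset.prod_hom). Comp.sum: choose the data
(G s, lev s) for s : Fin c; gates indexed by Fin (c * S) ≃ Fin c × Fin S (finProdFinEquiv), G' k = G (k.1) (k.2),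
lev' likewise; the spans only grow (span_mono, sup_le_sup_left); the sum is in the submodule (Submodule.sum_mem).
-/

namespace Pool.Agent.BBR

private theorem pub_prod {X Y : Type} (φ : Y → X) (M : Multiset (X → ℤ)) :
    (fun y => M.prod (φ y)) = (M.map fun h => fun y => h (φ y)).prod := by
  induction M using Multiset.induction_on with
  | empty => rfl
  | cons a M ih =>
    rw [Multiset.map_cons, Multiset.prod_cons, Multiset.prod_cons, ← ih]
    rfl

private theorem pub_mem {X Y : Type} (φ : Y → X) (B : Submodule ℤ (X → ℤ))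
    (C : Submodule ℤ (Y → ℤ)) (hBC : ∀ f ∈ B, (fun y => f (φ y)) ∈ C) (A : Set (X → ℤ))
    (A' : Set (Y → ℤ)) (hA : ∀ g ∈ A, (fun y => g (φ y)) ∈ A') {h : X → ℤ}
    (hh : h ∈ B ⊔ Submodule.span ℤ A) : (fun y => h (φ y)) ∈ C ⊔ Submodule.span ℤ A' := by
  have h1 : B ⊔ Submodule.span ℤ A ≤
      Submodule.comap (LinearMap.funLeft ℤ ℤ φ) (C ⊔ Submodule.span ℤ A') := by
    refine sup_le (fun f hf => ?_) (Submodule.span_le.2 fun g hg => ?_)
    · exact Submodule.mem_sup_left (hBC f hf)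
    · exact Submodule.mem_sup_right (Submodule.subset_span (hA g hg))
  exact h1 hh

/-- Substitution in a circuit. -/
theorem Comp.comp {X Y : Type} (φ : Y → X) (B : Submodule ℤ (X → ℤ)) (C : Submodule ℤ (Y → ℤ))
    (hBC : ∀ f ∈ B, (fun y => f (φ y)) ∈ C) {S d : ℕ} {f : X → ℤ} (hf : Comp B S d f) :
    Comp C S d (fun y => f (φ y)) := by
  obtain ⟨G, lev, hl, hG, hff⟩ := hf
  refine ⟨fun i y => G i (φ y), lev, hl, fun i => ?_, ?_⟩
  · obtain ⟨M, hM, hGM⟩ := hG i
    refine ⟨M.map fun h => fun y => h (φ y), ?_, ?_⟩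
    · intro h hh
      obtain ⟨h', hh', rfl⟩ := Multiset.mem_map.1 hh
      refine pub_mem φ B C hBC _ _ ?_ (hM h' hh')
      rintro g ⟨j, hj, rfl⟩
      exact ⟨j, hj, rfl⟩
    · rw [← pub_prod, ← hGM]
  · refine pub_mem φ B C hBC _ _ ?_ hff
    rintro g ⟨j, rfl⟩
    exact ⟨j, rfl⟩

/-- The sum of circuits. -/
theorem Comp.sum {X : Type} (B : Submodule ℤ (X → ℤ)) {c S d : ℕ} (f : Fin c → X → ℤ)
    (hf : ∀ s, Comp B S d (f s)) : Comp B (c * S) d (fun x => ∑ s, f s x) := by
  choose G lev hl hG hff using hf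
  refine ⟨fun k => G (finProdFinEquiv.symm k).1 (finProdFinEquiv.symm k).2,
    fun k => lev (finProdFinEquiv.symm k).1 (finProdFinEquiv.symm k).2,
    fun k => hl _ _, fun k => ?_, ?_⟩
  · obtain ⟨M, hM, hGM⟩ := hG (finProdFinEquiv.symm k).1 (finProdFinEquiv.symm k).2
    refine ⟨M, fun h hh => ?_, hGM⟩
    refine (sup_le_sup_left (Submodule.span_mono ?_) B) (hM h hh)
    rintro g ⟨j, hj, rfl⟩
    refine ⟨finProdFinEquiv ((finProdFinEquiv.symm k).1, j), ?_, ?_⟩
    · beta_reduce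
      rw [Equiv.symm_apply_apply]
      exact hj
    · beta_reduce
      rw [Equiv.symm_apply_apply]
  · have h1 : (fun x => ∑ s, f s x) = ∑ s, f s := by
      funext x
      rw [Finset.sum_apply]
    rw [h1]
    refine Submodule.sum_mem _ fun s _ => ?_
    refine (sup_le_sup_left (Submodule.span_mono ?_) B) (hff s)
    rintro g ⟨j, rfl⟩
    refine ⟨finProdFinEquiv (s, j), ?_⟩
    beta_reduce
    rw [Equiv.symm_apply_apply]

end Pool.Agent.BBR
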