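import Pool.Agent.BBR.Defs

set_option autoImplicit false

/-!
PROJECT BBR (MP_80b7d7_lc, helper82), module BBR-Int.
-/

namespace Pool.Agent.BBR

/-- the monomial of a set -/
private def mon {m : ℕ} (T : Finset (Fin m)) : (Fin m → Bool) → ZMod 2 :=
  fun y => ∏ i ∈ T, (if y i then 1 else 0)

private theorem mon_mem {m k : ℕ} (T : Finset (Fin m)) (h : T.card ≤ k) : mon T ∈ Pol m k :=
  Submodule.subset_span ⟨T, h, rfl⟩

private theorem pol_mono {m k l : ℕ} (h : k ≤ l) : Pol m k ≤ Pol m l := by
  refine Submodule.span_mono ?_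
  rintro f ⟨T, hT, rfl⟩
  exact ⟨T, hT.trans h, rfl⟩

/-- the support of a point -/
private def spt {m : ℕ} (y : Fin m → Bool) : Finset (Fin m) := Finset.univ.filter fun i => y i = true

private theorem mem_spt {m : ℕ} (y : Fin m → Bool) (i : Fin m) : i ∈ spt y ↔ y i = true := by
  simp [spt]

private theorem mon_eq_zero {m : ℕ} (T : Finset (Fin m)) (y : Fin m → Bool) (h : ¬ T ⊆ spt y) :
    mon T y = 0 := by
  rw [Finset.subset_iff] at h
  push Not at h
  obtain ⟨i, hi, hy⟩ := h
  refine Finset.prod_eq_zero hi ?_
  rw [mem_spt] at hy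
  rw [if_neg hy]

private theorem mon_eq_one {m : ℕ} (y : Fin m → Bool) : mon (spt y) y = 1 := by
  refine Finset.prod_eq_one fun i hi => ?_
  rw [mem_spt] at hi
  rw [if_pos hi]

private theorem step {m c : ℕ} (g q0 : (Fin m → Bool) → ZMod 2) (hq : q0 ∈ Pol m c)
    (h : ∀ y, wt y < c → q0 y = g y) : ∃ q ∈ Pol m c, ∀ y, wt y ≤ c → q y = g y := by
  classical
  let ind : Finset (Fin m) → Fin m → Bool := fun T i => decide (i ∈ T)
  have hind : ∀ y, ind (spt y) = y := by
    intro y
    funext i
    simp only [ind, mem_spt]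
    cases y i <;> rfl
  refine ⟨q0 + ∑ T ∈ Finset.powersetCard c Finset.univ, (g (ind T) - q0 (ind T)) • mon T, ?_, ?_⟩
  · refine Submodule.add_mem _ hq (Submodule.sum_mem _ fun T hT => Submodule.smul_mem _ _ ?_)
    exact mon_mem T (Finset.mem_powersetCard.1 hT).2.le
  · intro y hy
    rw [Pi.add_apply, Finset.sum_apply]
    rcases lt_or_eq_of_le hy with hlt | heq
    · rw [h y hlt, Finset.sum_eq_zero, add_zero]
      intro T hT
      rw [Pi.smul_apply, mon_eq_zero, smul_zero]
      intro hs
      have h1 := Finset.card_le_card hs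
      rw [(Finset.mem_powersetCard.1 hT).2] at h1
      have h2 : wt y = (spt y).card := rfl
      omega
    · rw [Finset.sum_eq_single (spt y)]
      · rw [Pi.smul_apply, mon_eq_one, hind, smul_eq_mul, mul_one]
        ring
      · intro T hT hne
        rw [Pi.smul_apply, mon_eq_zero, smul_zero]
        intro hs
        apply hne
        refine Finset.eq_of_subset_of_card_le hs ?_
        rw [(Finset.mem_powersetCard.1 hT).2, ← heq]
        exact le_refl _
      · intro hn
        exact absurd (Finset.mem_powersetCard.2 ⟨Finset.subset_univ _, heq⟩) hn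

/-- Interpolation on the points with at most `h` true variables. -/
theorem interp_low (m h : ℕ) (g : (Fin m → Bool) → ZMod 2) :
    ∃ q ∈ Pol m h, ∀ y, wt y ≤ h → q y = g y := by
  induction h with
  | zero => exact step g 0 (Submodule.zero_mem _) fun y hy => absurd hy (Nat.not_lt_zero _)
  | succ h ih =>
    obtain ⟨q, hq, hg⟩ := ih
    exact step g q (pol_mono (Nat.le_succ h) hq) fun y hy => hg y (Nat.lt_succ_iff.1 hy)

private theorem mon_not {m k : ℕ} (q : (Fin m → Bool) → ZMod 2) (hq : q ∈ Pol m k) :
    (fun y : Fin m → Bool => q fun i => !(y i)) ∈ Pol m k := by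
  classical
  induction hq using Submodule.span_induction with
  | mem f hf =>
    obtain ⟨T, hT, rfl⟩ := hf
    have h1 : (fun y : Fin m → Bool => ∏ i ∈ T, (if (!(y i)) = true then (1 : ZMod 2) else 0)) =
        ∑ S ∈ T.powerset, mon S := by
      funext y
      rw [Finset.sum_apply]
      have h2 : ∏ i ∈ T, (if (!(y i)) = true then (1 : ZMod 2) else 0) =
          ∏ i ∈ T, (1 + if y i = true then (1 : ZMod 2) else 0) := by
        refine Finset.prod_congr rfl fun i _ => ?_
        cases y i
        · simp
        · simp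
          decide
      rw [h2, Finset.prod_one_add]
      rfl
    show (fun y : Fin m → Bool => ∏ i ∈ T, (if (!(y i)) = true then (1 : ZMod 2) else 0)) ∈ Pol m k
    rw [h1]
    exact Submodule.sum_mem _ fun S hS => mon_mem S
      ((Finset.card_le_card (Finset.mem_powerset.1 hS)).trans hT)
  | zero => exact Submodule.zero_mem _
  | add f g _ _ hf hg => exact Submodule.add_mem _ hf hg
  | smul c f _ hf => exact Submodule.smul_mem _ c hf

private theorem wt_not {m : ℕ} (y : Fin m → Bool) : wt y + wt (fun i => !(y i)) = m := by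
  have h1 : (Finset.univ.filter fun i => (!(y i)) = true) = (Finset.univ.filter fun i => ¬ y i = true) := by
    ext i
    simp
  unfold wt
  rw [h1, Finset.card_filter_add_card_filter_not, Finset.card_univ, Fintype.card_fin]

/-- Interpolation on the points with at most `h` false variables. -/
theorem interp_high (m h : ℕ) (g : (Fin m → Bool) → ZMod 2) :
    ∃ q ∈ Pol m h, ∀ y, m ≤ wt y + h → q y = g y := by
  obtain ⟨q, hq, hg⟩ := interp_low m h fun y => g fun i => !(y i)
  refine ⟨_, mon_not q hq, fun y hy => ?_⟩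
  have h1 := wt_not y
  have h2 := hg (fun i => !(y i)) (by omega)
  rw [h2]
  simp

end Pool.Agent.BBR
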