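import Pool.Agent.BBR.Pol
import Pool.Agent.BBR.Int

set_option autoImplicit false

/-!
PROJECT BBR (MP_80b7d7_lc, helper82), module BBR-SmA.

Plan. m = 2h+1, A = complement of E. The restriction map from Pol m (h + k) to the functions on A is surjective: given
g : A → ZMod 2 extend it to the cube, let q0, q1 ∈ Pol m h agree with g on wt ≤ h (interp_low) and on wt ≥ h + 1
(interp_high: m ≤ wt y + h iff h + 1 ≤ wt y); then q0 + (q1 - q0) * p ∈ Pol m (h + k) (mul_mem_Pol, Pol_mono) agrees with g
on A, because p = [h < wt] there. Hence card A = finrank (A → ZMod 2) ≤ finrank (Pol m (h+k)) ≤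
∑ i < h + k + 1, choose m i (LinearMap.finrank_le_of_surjective-like: LinearMap.finrank_range_le,
Module.finrank_fintype_fun_eq_card) and 2^m = card E + card A.
-/

namespace Pool.Agent.BBR

/-- Smolensky's argument: a function of degree `k` agrees with the majority function on few
points. -/
theorem smolensky_dim (h k : ℕ) (p : (Fin (2 * h + 1) → Bool) → ZMod 2)
    (hp : p ∈ Pol (2 * h + 1) k) (E : Finset (Fin (2 * h + 1) → Bool))
    (hE : ∀ y, y ∉ E → p y = if h < wt y then 1 else 0) :
    2 ^ (2 * h + 1) ≤ E.card + ∑ i ∈ Finset.range (h + k + 1), (2 * h + 1).choose i := by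
  classical
  let A : Finset (Fin (2 * h + 1) → Bool) := Eᶜ
  let R : Pol (2 * h + 1) (h + k) →ₗ[ZMod 2] (A → ZMod 2) :=
    (LinearMap.funLeft (ZMod 2) (ZMod 2) (fun a : A => (a : Fin (2 * h + 1) → Bool))).comp
      (Pol (2 * h + 1) (h + k)).subtype
  have hR : Function.Surjective R := by
    intro g
    obtain ⟨q0, hq0, hq0'⟩ := interp_low (2 * h + 1) h
      (fun y => if hy : y ∈ A then g ⟨y, hy⟩ else 0)
    obtain ⟨q1, hq1, hq1'⟩ := interp_high (2 * h + 1) h
      (fun y => if hy : y ∈ A then g ⟨y, hy⟩ else 0)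
    have h1 : q0 + (fun y => (q1 - q0) y * p y) ∈ Pol (2 * h + 1) (h + k) :=
      Submodule.add_mem _ (Pol_mono _ (by omega) hq0)
        (mul_mem_Pol _ _ _ _ _ (Submodule.sub_mem _ hq1 hq0) hp)
    refine ⟨⟨_, h1⟩, ?_⟩
    funext a
    have ha : (a : Fin (2 * h + 1) → Bool) ∉ E := Finset.mem_compl.1 a.2
    show (q0 + (fun y => (q1 - q0) y * p y)) a.1 = g a
    rw [Pi.add_apply, hE _ ha, Pi.sub_apply]
    by_cases hw : h < wt a.1
    · rw [if_pos hw, hq1' a.1 (by omega), mul_one, add_sub_cancel, dif_pos a.2]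
    · rw [if_neg hw, mul_zero, add_zero, hq0' a.1 (by omega), dif_pos a.2]
  have h2 : Module.finrank (ZMod 2) (A → ZMod 2) ≤
      Module.finrank (ZMod 2) (Pol (2 * h + 1) (h + k)) :=
    LinearMap.finrank_le_finrank_of_surjective hR
  rw [Module.finrank_fintype_fun_eq_card, Fintype.card_coe] at h2
  have h3 := finrank_Pol_le (2 * h + 1) (h + k)
  have h4 : E.card + A.card = 2 ^ (2 * h + 1) := by
    have := Finset.card_add_card_compl E
    rw [Fintype.card_fun, Fintype.card_bool, Fintype.card_fin] at this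
    exact this
  omega

end Pool.Agent.BBR
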