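import Mathlib

set_option autoImplicit false

/-!
PROJECT BBR (MP_80b7d7_lc, helper82), module BBR-SmB.

Plan. Nat.sum_range_choose_halfway: ∑ i < h + 1, choose (2h+1) i = 4^h. The other k terms are each at most
choose (2h+1) h (Nat.choose_le_middle: the middle binomial coefficient) =: C. So 2 * 4^h ≤ c + 4^h + k C with
4 c ≤ 2 * 4^h, i.e. 4^h ≤ 2 k C, i.e. 4^(2h+1) = 4 * 16^h ≤ 16 k^2 C^2. Next C ≤ 2 * centralBinom h (Pascal; choose (2h) h is
the middle) and (2h+1) * (centralBinom h)^2 ≤ 16^h (induction with Nat.succ_mul_centralBinom_succ: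
(h+1) c(h+1) = 2 (2h+1) c(h), using (2h+3)(2h+1) ≤ 4 (h+1)^2). So (2h+1) C^2 ≤ 4 * 16^h = 4^(2h+1), and
(2h+1) 4^(2h+1) ≤ 16 k^2 C^2 (2h+1) ≤ 16 k^2 4^(2h+1).
-/

namespace Pool.Agent.BBR

private theorem central_sq (h : ℕ) : (2 * h + 1) * (Nat.centralBinom h) ^ 2 ≤ 16 ^ h := by
  induction h with
  | zero => simp
  | succ h ih =>
    have h1 := Nat.succ_mul_centralBinom_succ h
    have h2 : (h + 1) ^ 2 * ((2 * (h + 1) + 1) * (Nat.centralBinom (h + 1)) ^ 2) ≤
        (h + 1) ^ 2 * 16 ^ (h + 1) := by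
      calc (h + 1) ^ 2 * ((2 * (h + 1) + 1) * (Nat.centralBinom (h + 1)) ^ 2)
          = (2 * (h + 1) + 1) * ((h + 1) * Nat.centralBinom (h + 1)) ^ 2 := by ring
        _ = (2 * (h + 1) + 1) * (2 * (2 * h + 1) * Nat.centralBinom h) ^ 2 := by rw [h1]
        _ = 4 * ((2 * h + 3) * (2 * h + 1)) * ((2 * h + 1) * (Nat.centralBinom h) ^ 2) := by ring
        _ ≤ 4 * (4 * (h + 1) ^ 2) * 16 ^ h := by
          apply Nat.mul_le_mul _ ih
          apply Nat.mul_le_mul_left
          nlinarith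
        _ = (h + 1) ^ 2 * 16 ^ (h + 1) := by ring
    exact Nat.le_of_mul_le_mul_left h2 (by positivity)

private theorem choose_half (h : ℕ) : (2 * h + 1).choose h ≤ 2 * Nat.centralBinom h := by
  rcases h with _ | h
  · simp
  · have h1 : (2 * (h + 1) + 1).choose (h + 1) =
        (2 * (h + 1)).choose h + (2 * (h + 1)).choose (h + 1) := Nat.choose_succ_succ _ _
    have h2 := Nat.choose_le_middle h (2 * (h + 1))
    have h3 : 2 * (h + 1) / 2 = h + 1 := by omega
    rw [h3] at h2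
    rw [h1, Nat.centralBinom_eq_two_mul_choose]
    omega

/-- The numerical part of Smolensky's argument. -/
theorem smolensky_num (h k c : ℕ)
    (h1 : 2 ^ (2 * h + 1) ≤ c + ∑ i ∈ Finset.range (h + k + 1), (2 * h + 1).choose i)
    (h2 : 4 * c ≤ 2 ^ (2 * h + 1)) : 2 * h + 1 ≤ 16 * k ^ 2 := by
  have e1 : 2 ^ (2 * h + 1) = 2 * 4 ^ h := by
    rw [pow_succ, pow_mul]
    norm_num
    ring
  have e2 : ∑ i ∈ Finset.range (h + k + 1), (2 * h + 1).choose i ≤
      4 ^ h + k * (2 * h + 1).choose h := by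
    have : h + k + 1 = (h + 1) + k := by ring
    rw [this, Finset.sum_range_add, Nat.sum_range_choose_halfway]
    apply Nat.add_le_add_left
    calc ∑ x ∈ Finset.range k, (2 * h + 1).choose (h + 1 + x)
        ≤ ∑ x ∈ Finset.range k, (2 * h + 1).choose h := by
          apply Finset.sum_le_sum
          intro x _
          have h3 := Nat.choose_le_middle (h + 1 + x) (2 * h + 1)
          have h4 : (2 * h + 1) / 2 = h := by omega
          rwa [h4] at h3
      _ = k * (2 * h + 1).choose h := by simp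
  rw [e1] at h1 h2
  have h3 : 4 ^ h ≤ 2 * (k * (2 * h + 1).choose h) := by omega
  have h4 : (2 * h + 1) * ((2 * h + 1).choose h) ^ 2 ≤ 4 * 16 ^ h := by
    calc (2 * h + 1) * ((2 * h + 1).choose h) ^ 2
        ≤ (2 * h + 1) * (2 * Nat.centralBinom h) ^ 2 := by
          gcongr
          exact choose_half h
      _ = 4 * ((2 * h + 1) * (Nat.centralBinom h) ^ 2) := by ring
      _ ≤ 4 * 16 ^ h := Nat.mul_le_mul_left _ (central_sq h)
  have h5 : (16 : ℕ) ^ h ≤ 4 * k ^ 2 * ((2 * h + 1).choose h) ^ 2 := by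
    calc (16 : ℕ) ^ h = (4 ^ h) ^ 2 := by
          rw [← pow_mul, mul_comm h 2, pow_mul]
          norm_num
      _ ≤ (2 * (k * (2 * h + 1).choose h)) ^ 2 := Nat.pow_le_pow_left h3 2
      _ = 4 * k ^ 2 * ((2 * h + 1).choose h) ^ 2 := by ring
  have h6 : (2 * h + 1) * 16 ^ h ≤ (16 * k ^ 2) * 16 ^ h := by
    calc (2 * h + 1) * 16 ^ h ≤ (2 * h + 1) * (4 * k ^ 2 * ((2 * h + 1).choose h) ^ 2) :=
          Nat.mul_le_mul_left _ h5
      _ = 4 * k ^ 2 * ((2 * h + 1) * ((2 * h + 1).choose h) ^ 2) := by ring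
      _ ≤ 4 * k ^ 2 * (4 * 16 ^ h) := Nat.mul_le_mul_left _ h4
      _ = (16 * k ^ 2) * 16 ^ h := by ring
  exact Nat.le_of_mul_le_mul_right h6 (by positivity)

end Pool.Agent.BBR
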