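import Pool.Agent.BBR.Enc
import Pool.Agent.BBR.SmA
import Pool.Agent.BBR.SmB
import Pool.Agent.BBR.ApB
import Pool.Agent.BBR.PuA
import Pool.Agent.BBR.PuB

set_option autoImplicit false

/-!
PROJECT BBR (MP_80b7d7_lc, helper82), module BBR-Cst.

Plan. By contradiction. K = (r+1)(l+1)^d ≥ 1, h = 8 K^2, m = 2h+1 = 16 K^2 + 1, L = N/2; N > 5000 K^4 gives
L + 8 m^2 + 1 ≤ N (8 m^2 + 1 ≤ 2313 K^4). For s = h+1+a, a : Fin (h+1), encode gives β_a; f_a y = f (sub β_a y),
f_a ≡ [wt y ≠ s] mod 2. Let C be the submodule of all functions u : (Fin m → Bool) → ℤ with (u mod 2) ∈ Pol m r (closed under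
integer multiples; define it as a Submodule ℤ or AddSubgroup.toIntSubmodule). By pull_inputs and Comp.comp each f_a is
Comp C S d, by Comp.sum F = ∑ a, f_a is Comp C ((h+1) * S) d. approx_circuit with l+1 gives p' ∈ Pol m (r (l+1)^d) and E with
E.card * 2^(l+1) ≤ (h+1) S 2^m, p' = F mod 2 outside E. p = p' + (h+1 : ZMod 2) is [h < wt y] outside E, because
∑ a [wt y ≠ h+1+a] = (h+1) - [h < wt y] (wt y ≤ m). 4 * E.card ≤ 2^m: from N * S ≤ 2^l and 4 (h+1) ≤ 2 N. smolensky_dim and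
smolensky_num: 2h+1 ≤ 16 (r (l+1)^d)^2 ≤ 16 K^2, contradiction. (r (l+1)^d ≤ K; no monotonicity of Pol is needed.)
-/

namespace Pool.Agent.BBR

/-- The functions which have degree at most `r` modulo `2`. -/
private def low (m r : ℕ) : Submodule ℤ ((Fin m → Bool) → ℤ) where
  carrier := {u | (fun y => ((u y : ℤ) : ZMod 2)) ∈ Pol m r}
  add_mem' := by
    intro u v hu hv
    have h : (fun y => (((u + v) y : ℤ) : ZMod 2)) =
        (fun y => ((u y : ℤ) : ZMod 2)) + (fun y => ((v y : ℤ) : ZMod 2)) := by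
      funext y
      simp
    simp only [Set.mem_setOf_eq] at hu hv ⊢
    rw [h]
    exact Submodule.add_mem _ hu hv
  zero_mem' := by
    have h : (fun y : Fin m → Bool => (((0 : (Fin m → Bool) → ℤ) y : ℤ) : ZMod 2)) = 0 := by
      funext y
      simp
    simp only [Set.mem_setOf_eq]
    rw [h]
    exact Submodule.zero_mem _
  smul_mem' := by
    intro c u hu
    have h : (fun y => (((c • u) y : ℤ) : ZMod 2)) =
        ((c : ℤ) : ZMod 2) • (fun y => ((u y : ℤ) : ZMod 2)) := by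
      funext y
      simp
    simp only [Set.mem_setOf_eq] at hu ⊢
    rw [h]
    exact Submodule.smul_mem _ _ hu

private theorem mem_low {m r : ℕ} {u : (Fin m → Bool) → ℤ} :
    u ∈ low m r ↔ (fun y => ((u y : ℤ) : ZMod 2)) ∈ Pol m r := Iff.rfl

private theorem wt_le {m : ℕ} (y : Fin m → Bool) : wt y ≤ m := by
  unfold wt
  calc (Finset.univ.filter fun i => y i = true).card ≤ (Finset.univ : Finset (Fin m)).card :=
        Finset.card_filter_le _ _
    _ = m := by simp

/-- The sum over the levels of the upper half. -/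
private theorem sum_levels (h w : ℕ) (hw : w ≤ 2 * h + 1) :
    (∑ a : Fin (h + 1), (if w = h + 1 + (a : ℕ) then (0 : ZMod 2) else 1)) + ((h + 1 : ℕ) : ZMod 2) =
      if h < w then 1 else 0 := by
  have h1 : ∀ a : Fin (h + 1), (if w = h + 1 + (a : ℕ) then (0 : ZMod 2) else 1) =
      1 + (if w = h + 1 + (a : ℕ) then (1 : ZMod 2) else 0) := by
    intro a
    split_ifs
    · decide
    · simp
  rw [Finset.sum_congr rfl fun a _ => h1 a, Finset.sum_add_distrib]
  have h2 : (∑ a : Fin (h + 1), (if w = h + 1 + (a : ℕ) then (1 : ZMod 2) else 0)) =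
      if h < w then 1 else 0 := by
    split_ifs with hc
    · rw [Finset.sum_eq_single (⟨w - (h + 1), by omega⟩ : Fin (h + 1))]
      · rw [if_pos]
        simp only
        omega
      · intro b _ hb
        rw [if_neg]
        intro hwb
        apply hb
        apply Fin.ext
        simp only
        omega
      · intro hn
        exact absurd (Finset.mem_univ _) hn
    · apply Finset.sum_eq_zero
      intro a _
      rw [if_neg]
      omega
  rw [h2]
  simp only [Finset.sum_const, Finset.card_univ, Fintype.card_fin, nsmul_eq_mul, mul_one]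
  have h3 : ∀ x y : ZMod 2, x + y + x = y := by decide
  exact h3 _ _

/-- Lower bound for circuits of constant product depth. -/
theorem const_depth (n : ℕ) (hn : 3 ≤ n) (N r S d l : ℕ) (f : Bits n N → ℤ)
    (hf : Comp (Inputs n N (2 ^ (N / 2)) r) S d f) (hl : N * S ≤ 2 ^ l)
    (h : ∀ b, f b ≡ mu 3 b [ZMOD 2]) :
    N ≤ 5000 * ((r + 1) * (l + 1) ^ d) ^ 4 := by
  by_contra hN
  push Not at hN
  obtain ⟨K, hK⟩ : ∃ K, K = (r + 1) * (l + 1) ^ d := ⟨_, rfl⟩
  rw [← hK] at hN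
  have hK1 : 1 ≤ K := by
    rw [hK]
    exact Nat.one_le_iff_ne_zero.2 (by positivity)
  have hK4 : 1 ≤ K ^ 4 := Nat.one_le_pow _ _ hK1
  have hK24 : K ^ 2 ≤ K ^ 4 := Nat.pow_le_pow_right hK1 (by norm_num)
  obtain ⟨g, hg⟩ : ∃ g, g = 8 * K ^ 2 := ⟨_, rfl⟩
  obtain ⟨m, hm⟩ : ∃ m, m = 2 * g + 1 := ⟨_, rfl⟩
  have hm8 : 8 * m ^ 2 + 1 ≤ 2400 * K ^ 4 := by
    have h1 : m ^ 2 = 256 * K ^ 4 + 32 * K ^ 2 + 1 := by
      rw [hm, hg]
      ring
    rw [h1]
    omega
  have hL : N / 2 + 8 * m ^ 2 + 1 ≤ N := by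
    have h1 : N / 2 * 2 ≤ N := Nat.div_mul_le_self N 2
    omega
  have hm2 : 2 ≤ m := by
    have : 1 ≤ K ^ 2 := Nat.one_le_pow _ _ hK1
    omega
  have henc : ∀ a : Fin (g + 1), ∃ β : Fin n → Fin n → Fin N → Bool ⊕ Fin m,
      (∀ i j (k : Fin N), (k : ℕ) < N / 2 → ∃ c, β i j k = Sum.inl c) ∧
      ∀ y : Fin m → Bool, mu 3 (sub β y) = if wt y = g + 1 + (a : ℕ) then 0 else 1 := by
    intro a
    exact encode n hn m hm2 (N / 2) N hL (g + 1 + (a : ℕ)) (by have := a.2; omega)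
  choose β hβ hmu using henc
  have hcomp : ∀ a : Fin (g + 1), Comp (low m r) S d (fun y => f (sub (β a) y)) := by
    intro a
    exact Comp.comp (sub (β a)) (Inputs n N (2 ^ (N / 2)) r) (low m r)
      (fun u hu => mem_low.2 (pull_inputs (L := N / 2) le_rfl (β a) (hβ a) u hu)) hf
  have hsum := Comp.sum (low m r) (fun (a : Fin (g + 1)) (y : Fin m → Bool) => f (sub (β a) y))
    hcomp
  obtain ⟨p', hp', E, hE, hp'E⟩ := approx_circuit m ((g + 1) * S) d (l + 1) r (by omega)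
    (low m r) (fun u hu => mem_low.1 hu) _ hsum
  have hval : ∀ y : Fin m → Bool,
      (((∑ a : Fin (g + 1), f (sub (β a) y) : ℤ)) : ZMod 2) + ((g + 1 : ℕ) : ZMod 2) =
      if g < wt y then 1 else 0 := by
    intro y
    rw [← sum_levels g (wt y) (by rw [← hm]; exact wt_le y)]
    congr 1
    rw [Int.cast_sum]
    apply Finset.sum_congr rfl
    intro a _
    have h3 := h (sub (β a) y)
    rw [hmu a y] at h3
    have h4 : ((f (sub (β a) y) : ℤ) : ZMod 2) =
        (((if wt y = g + 1 + (a : ℕ) then 0 else 1 : ℤ) : ℤ) : ZMod 2) :=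
      (ZMod.intCast_eq_intCast_iff _ _ 2).2 h3
    rw [h4]
    split_ifs <;> simp
  have hp : (fun y => p' y + ((g + 1 : ℕ) : ZMod 2)) ∈ Pol m (r * (l + 1) ^ d) := by
    have := Submodule.add_mem _ hp' (const_mem_Pol m (r * (l + 1) ^ d) ((g + 1 : ℕ) : ZMod 2))
    exact this
  have hcard : 4 * E.card ≤ 2 ^ m := by
    have h1 : 4 * (g + 1) ≤ 2 * N := by
      have : g = 8 * K ^ 2 := hg
      omega
    have h2 : 4 * E.card * 2 ^ (l + 1) ≤ 2 ^ m * 2 ^ (l + 1) := by
      calc 4 * E.card * 2 ^ (l + 1) = 4 * (E.card * 2 ^ (l + 1)) := by ring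
        _ ≤ 4 * ((g + 1) * S * 2 ^ m) := Nat.mul_le_mul_left _ hE
        _ = (4 * (g + 1)) * S * 2 ^ m := by ring
        _ ≤ (2 * N) * S * 2 ^ m := by gcongr
        _ = 2 * (N * S) * 2 ^ m := by ring
        _ ≤ 2 * 2 ^ l * 2 ^ m := by gcongr
        _ = 2 ^ m * 2 ^ (l + 1) := by ring
    exact Nat.le_of_mul_le_mul_right h2 (by positivity)
  subst hm
  have hdim := smolensky_dim g (r * (l + 1) ^ d) _ hp E (by
    intro y hy
    have h1 := hp'E y hy
    rw [h1]
    exact hval y)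
  have hnum := smolensky_num g (r * (l + 1) ^ d) E.card hdim hcard
  have hKr : r * (l + 1) ^ d ≤ K := by
    rw [hK]
    gcongr
    omega
  have h5 : (r * (l + 1) ^ d) ^ 2 ≤ K ^ 2 := Nat.pow_le_pow_left hKr 2
  omega

end Pool.Agent.BBR
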