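import Mathlib

set_option autoImplicit false

/-!
PROJECT BBR (MP_80b7d7_lc, helper82): the minimal polynomial in bit models. Definitions.
-/

namespace Pool.Agent.BBR

open MvPolynomial

/-- The bits of the entries of an `n × n` matrix with entries in `{0, ..., 2 ^ N - 1}`: the bit of
weight `2 ^ k` of the entry `(i, j)` is `b i j k`. -/
abbrev Bits (n N : ℕ) := Fin n → Fin n → Fin N → Bool

/-- The names of the bits. -/
abbrev Var (n N : ℕ) := Fin n × Fin n × Fin N

/-- The bit with the name `t`, as an integer. -/
def bit {n N : ℕ} (t : Var n N) (b : Bits n N) : ℤ := if b t.1 t.2.1 t.2.2 then 1 else 0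

/-- The matrix with the bits `b`. -/
def mat {n N : ℕ} (b : Bits n N) : Matrix (Fin n) (Fin n) ℤ :=
  Matrix.of fun i j => ∑ k : Fin N, 2 ^ (k : ℕ) * bit (i, j, k) b

/-- The coefficient of `X ^ i` of the minimal polynomial of the matrix with the bits `b`. -/
noncomputable def mu {n N : ℕ} (i : ℕ) (b : Bits n N) : ℤ := (minpoly ℤ (mat b)).coeff i

/-- The values of the integer valued polynomials (with rational coefficients) of degree less than
`D` in the entries of the matrix. -/
def IsVal {n N : ℕ} (D : ℕ) (g : Bits n N → ℤ) : Prop :=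
  ∃ P : MvPolynomial (Fin n × Fin n) ℚ, P.totalDegree < D ∧
    (∀ z : Fin n × Fin n → ℤ, ∃ m : ℤ, eval (fun q => (z q : ℚ)) P = m) ∧
    ∀ b, (g b : ℚ) = eval (fun q => ((mat b q.1 q.2 : ℤ) : ℚ)) P

/-- The integer combinations of products of at most `r` bits and one integer valued polynomial of
degree less than `D` in the entries of the matrix. -/
def Inputs (n N D r : ℕ) : Submodule ℤ (Bits n N → ℤ) :=
  Submodule.span ℤ {f | ∃ T : Finset (Var n N), T.card ≤ r ∧ ∃ g : Bits n N → ℤ, IsVal D g ∧
    f = fun b => (∏ t ∈ T, bit t b) * g b}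

/-- The function `f` is computed by an arithmetic circuit whose inputs are functions in `B`, with at
most `S` product gates, of arbitrary fan-in, and at most `d` of them on every path; sums and
products with integers are free. (`G i` is the `i`-th product gate, `lev i` its level.) -/
def Comp {X : Type} (B : Submodule ℤ (X → ℤ)) (S d : ℕ) (f : X → ℤ) : Prop :=
  ∃ (G : Fin S → X → ℤ) (lev : Fin S → ℕ), (∀ i, lev i < d) ∧
    (∀ i, ∃ M : Multiset (X → ℤ),
      (∀ h ∈ M, h ∈ B ⊔ Submodule.span ℤ {g | ∃ j, lev j < lev i ∧ g = G j}) ∧ G i = M.prod) ∧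
    f ∈ B ⊔ Submodule.span ℤ (Set.range G)

/-- An oblivious branching program of width `W` over `K`: each step reads a variable of `V` and
multiplies the state vector by one of two matrices. -/
structure Prog (K V : Type) (W : ℕ) where
  /-- the steps: the variable which is read, and the two matrices -/
  steps : List (V × (Bool → Matrix (Fin W) (Fin W) K))
  /-- the initial vector -/
  start : Fin W → K
  /-- the final vector -/
  accept : Fin W → K

/-- The value which is computed by the program. -/
def Prog.val {K V : Type} [CommRing K] {W : ℕ} (P : Prog K V W) (x : V → Bool) : K :=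
  P.start ⬝ᵥ (((P.steps.map fun s => s.2 (x s.1)).prod : Matrix (Fin W) (Fin W) K).mulVec P.accept)

/-- Every variable is read at most `k` times. -/
def Prog.ReadAtMost {K V : Type} [DecidableEq V] {W : ℕ} (P : Prog K V W) (k : ℕ) : Prop :=
  ∀ v, (P.steps.map Prod.fst).count v ≤ k

/-! ### auxiliary definitions -/

/-- The matrix with the upper left block `[[z, x], [y, 1]]` and zeros elsewhere. -/
def sp (n : ℕ) (x y z : ℤ) : Matrix (Fin n) (Fin n) ℤ :=
  Matrix.of fun i j =>
    if (i : ℕ) = 0 ∧ (j : ℕ) = 0 then z
    else if (i : ℕ) = 0 ∧ (j : ℕ) = 1 then x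
    else if (i : ℕ) = 1 ∧ (j : ℕ) = 0 then y
    else if (i : ℕ) = 1 ∧ (j : ℕ) = 1 then 1 else 0

/-- The number of the true variables. -/
def wt {m : ℕ} (y : Fin m → Bool) : ℕ := (Finset.univ.filter fun i => y i = true).card

/-- A bit which is a constant or a variable. -/
def sub {n N m : ℕ} (β : Fin n → Fin n → Fin N → Bool ⊕ Fin m) (y : Fin m → Bool) : Bits n N :=
  fun i j k => Sum.elim id y (β i j k)

/-- The functions of degree at most `k` on the cube, over the field with two elements. -/
def Pol (m k : ℕ) : Submodule (ZMod 2) ((Fin m → Bool) → ZMod 2) :=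
  Submodule.span (ZMod 2) {f | ∃ T : Finset (Fin m), T.card ≤ k ∧
    f = fun y => ∏ i ∈ T, (if y i then 1 else 0)}

/-- A decomposition of a function of two arguments into `R` products. -/
def SepRank {X Z K : Type} [Field K] (F : X → Z → K) (R : ℕ) : Prop :=
  ∃ (u : Fin R → X → K) (v : Fin R → Z → K), ∀ x z, F x z = ∑ i, u i x * v i z

end Pool.Agent.BBR
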