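import Pool.Agent.BBR.Defs

set_option autoImplicit false

/-! PROJECT BBR, module BBR-EnA: the hard matrices are substitution instances. -/

namespace Pool.Agent.BBR

open Classical in
private noncomputable def tab {ι : Type} {m : ℕ} (A : Finset ι) (pos : ι → ℕ) (lab : ι → Bool ⊕ Fin m)
    (k : ℕ) : Bool ⊕ Fin m :=
  if h : ∃ q, q ∈ A ∧ pos q = k then lab h.choose else Sum.inl false

private theorem tab_of {ι : Type} {m : ℕ} {A : Finset ι} {pos : ι → ℕ} (lab : ι → Bool ⊕ Fin m)
    (hinj : ∀ p ∈ A, ∀ q ∈ A, pos p = pos q → p = q) {q : ι} (hq : q ∈ A) :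
    tab A pos lab (pos q) = lab q := by
  have h : ∃ q', q' ∈ A ∧ pos q' = pos q := ⟨q, hq, rfl⟩
  unfold tab
  rw [dif_pos h, hinj _ h.choose_spec.1 q hq h.choose_spec.2]

private theorem tab_not {ι : Type} {m : ℕ} {A : Finset ι} {pos : ι → ℕ} (lab : ι → Bool ⊕ Fin m) {k : ℕ}
    (h : ¬ ∃ q, q ∈ A ∧ pos q = k) : tab A pos lab k = Sum.inl false := dif_neg h

private theorem tab_lt {ι : Type} {m L : ℕ} {A : Finset ι} {pos : ι → ℕ} {lab : ι → Bool ⊕ Fin m}
    (h : ∀ q ∈ A, pos q < L → ∃ c, lab q = Sum.inl c) (k : ℕ) (hk : k < L) :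
    ∃ c, tab A pos lab k = Sum.inl c := by
  by_cases h1 : ∃ q, q ∈ A ∧ pos q = k
  · unfold tab
    rw [dif_pos h1]
    refine h _ h1.choose_spec.1 ?_
    rw [h1.choose_spec.2]
    exact hk
  · exact ⟨false, tab_not lab h1⟩

private theorem tab_sum {ι : Type} {m N : ℕ} {A : Finset ι} {pos : ι → ℕ} (lab : ι → Bool ⊕ Fin m)
    (hinj : ∀ p ∈ A, ∀ q ∈ A, pos p = pos q → p = q) (hlt : ∀ q ∈ A, pos q < N) (y : Fin m → Bool) :
    ∑ k : Fin N, (2 : ℤ) ^ (k : ℕ) * (if Sum.elim id y (tab A pos lab k) then 1 else 0) =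
      ∑ q ∈ A, if Sum.elim id y (lab q) then 2 ^ pos q else 0 := by
  classical
  rw [Fin.sum_univ_eq_sum_range
    (fun k => (2 : ℤ) ^ k * (if Sum.elim id y (tab A pos lab k) then 1 else 0)) N]
  have h1 : A.image pos ⊆ Finset.range N := by
    intro k hk
    obtain ⟨q, hq, rfl⟩ := Finset.mem_image.1 hk
    exact Finset.mem_range.2 (hlt q hq)
  rw [← Finset.sum_subset h1, Finset.sum_image fun p hp q hq h => hinj p hp q hq h]
  · refine Finset.sum_congr rfl fun q hq => ?_
    rw [tab_of lab hinj hq, mul_ite, mul_one, mul_zero]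
  · intro k _ hk
    rw [tab_not lab (k := k) fun ⟨q, hq, h⟩ => hk (Finset.mem_image.2 ⟨q, hq, h⟩)]
    exact mul_zero _

private theorem sum_bits (m s : ℕ) (h : s < 2 ^ m) :
    ∑ a ∈ Finset.range m, (if s.testBit a then (2 : ℤ) ^ a else 0) = s := by
  induction m generalizing s with
  | zero =>
    rw [pow_zero] at h
    have h1 : s = 0 := by omega
    rw [h1]
    rfl
  | succ m ih =>
    rw [Finset.sum_range_succ']
    have h1 : ∀ a ∈ Finset.range m, (if s.testBit (a + 1) then (2 : ℤ) ^ (a + 1) else 0) =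
        2 * (if (s / 2).testBit a then (2 : ℤ) ^ a else 0) := by
      intro a _
      rw [Nat.testBit_succ, mul_ite, mul_zero, pow_succ']
    rw [Finset.sum_congr rfl h1, ← Finset.mul_sum, ih (s / 2) (by rw [pow_succ] at h; omega), pow_zero,
      Nat.testBit_zero]
    have h2 := Nat.div_add_mod s 2
    have h3 := Nat.mod_two_eq_zero_or_one s
    rcases h3 with h3 | h3
    · rw [h3]
      rw [h3] at h2
      simp only [decide_eq_true_eq, zero_ne_one, if_false, add_zero]
      have h4 : 2 * (s / 2) = s := by omega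
      exact_mod_cast h4
    · rw [h3]
      rw [h3] at h2
      simp only [decide_true, if_true]
      exact_mod_cast h2

/-- The hard matrices have the form of a substitution. -/
theorem exists_sub (n : ℕ) (hn : 3 ≤ n) (m M L N s : ℕ) (e : Fin m → ℕ) (hN : L + 2 * M + 1 ≤ N)
    (hm : m ≤ M) (he : ∀ i, e i ≤ M) (hgap : ∀ i j, i < j → e i + m ≤ e j)
    (hdif : ∀ i j k l, e i + e j = e k + e l → (i = k ∧ j = l) ∨ (i = l ∧ j = k))
    (hs : s ≤ m) :
    ∃ β : Fin n → Fin n → Fin N → Bool ⊕ Fin m,
      (∀ i j (k : Fin N), (k : ℕ) < L → ∃ c, β i j k = Sum.inl c) ∧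
      ∀ y : Fin m → Bool, mat (sub β y) = sp n (2 ^ L * ∑ i, if y i then 2 ^ e i else 0)
        (∑ i, 2 ^ (M - e i))
        (2 ^ L * (s * 2 ^ M + ∑ i, ∑ j, if j = i then 0 else if y i then 2 ^ (M + e i - e j) else 0))
    := by
  have hinj : ∀ i j, e i = e j → i = j := by
    intro i j h
    rcases lt_trichotomy i j with h1 | h1 | h1
    · have h2 := hgap i j h1
      have h3 := i.isLt
      omega
    · exact h1
    · have h2 := hgap j i h1
      have h3 := i.isLt
      omega
  obtain ⟨A, hA⟩ : ∃ A : Finset (Fin m ⊕ (Fin m × Fin m)),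
      A = Finset.disjSum Finset.univ (Finset.univ.filter fun p : Fin m × Fin m => p.2 ≠ p.1) := ⟨_, rfl⟩
  obtain ⟨pos, hpos⟩ : ∃ pos : Fin m ⊕ (Fin m × Fin m) → ℕ,
      pos = Sum.elim (fun a : Fin m => L + M + (a : ℕ)) (fun p : Fin m × Fin m => L + (M + e p.1 - e p.2)) := ⟨_, rfl⟩
  obtain ⟨lab, hlab⟩ : ∃ lab : Fin m ⊕ (Fin m × Fin m) → Bool ⊕ Fin m,
      lab = Sum.elim (fun a : Fin m => Sum.inl (s.testBit (a : ℕ))) (fun p : Fin m × Fin m => Sum.inr p.1) := ⟨_, rfl⟩
  have hmr : ∀ p : Fin m × Fin m, Sum.inr p ∈ A ↔ p.2 ≠ p.1 := by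
    intro p
    rw [hA, Finset.inr_mem_disjSum, Finset.mem_filter]
    exact ⟨fun h => h.2, fun h => ⟨Finset.mem_univ _, h⟩⟩
  have hpinj : ∀ p ∈ A, ∀ q ∈ A, pos p = pos q → p = q := by
    have hlr : ∀ (a : Fin m) (p : Fin m × Fin m), p.2 ≠ p.1 → L + M + (a : ℕ) = L + (M + e p.1 - e p.2) → False := by
      intro a p hp h
      have h1 := he p.2
      have h2 := a.isLt
      rcases lt_or_gt_of_ne hp with h3 | h3
      · have h4 := hgap _ _ h3
        omega
      · have h4 := hgap _ _ h3
        omega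
    rintro (a | p) hp (b | q) hq h
    · rw [hpos] at h
      have h' : L + M + (a : ℕ) = L + M + (b : ℕ) := h
      rw [Fin.ext (by omega : (a : ℕ) = b)]
    · rw [hpos] at h
      exact (hlr a q ((hmr q).1 hq) h).elim
    · rw [hpos] at h
      exact (hlr b p ((hmr p).1 hp) h.symm).elim
    · rw [hpos] at h
      have h' : L + (M + e p.1 - e p.2) = L + (M + e q.1 - e q.2) := h
      have h1 := he p.2
      have h2 := he q.2
      rcases hdif p.1 q.2 q.1 p.2 (by omega) with h3 | h3
      · rw [Prod.ext h3.1 h3.2.symm]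
      · exact absurd h3.1.symm ((hmr p).1 hp)
  have hplt : ∀ p ∈ A, pos p < N := by
    rintro (a | p) _
    · rw [hpos]
      have h1 := a.isLt
      show L + M + (a : ℕ) < N
      omega
    · rw [hpos]
      have h1 := he p.1
      show L + (M + e p.1 - e p.2) < N
      omega
  obtain ⟨β, hβ⟩ : ∃ β : Fin n → Fin n → Fin N → Bool ⊕ Fin m,
      β = fun (i j : Fin n) (k : Fin N) => if (i : ℕ) = 0 ∧ (j : ℕ) = 0 then tab A pos lab k
    else if (i : ℕ) = 0 ∧ (j : ℕ) = 1 then tab Finset.univ (fun q => L + e q) (fun q => Sum.inr q) k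
    else if (i : ℕ) = 1 ∧ (j : ℕ) = 0 then tab Finset.univ (fun q : Fin m => M - e q) (fun _ => Sum.inl true) k
    else if (i : ℕ) = 1 ∧ (j : ℕ) = 1 then tab {()} (fun _ => 0) (fun _ => Sum.inl true) k
    else Sum.inl false := ⟨_, rfl⟩
  refine ⟨β, ?_, ?_⟩
  · intro i j k hk
    rw [hβ]
    beta_reduce
    split_ifs
    · refine tab_lt (fun q hq h => ?_) _ hk
      rcases q with a | p
      · rw [hpos] at h
        have h' : L + M + (a : ℕ) < L := h
        omega
      · rw [hpos] at h
        have h' : L + (M + e p.1 - e p.2) < L := h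
        omega
    · exact tab_lt (fun q _ h => by omega) _ hk
    · exact tab_lt (fun q _ _ => ⟨true, rfl⟩) _ hk
    · exact tab_lt (fun q _ _ => ⟨true, rfl⟩) _ hk
    · exact ⟨false, rfl⟩
  · intro y
    ext i j
    have hmat : mat (sub β y) i j =
        ∑ k : Fin N, (2 : ℤ) ^ (k : ℕ) * (if Sum.elim id y (β i j k) then 1 else 0) := rfl
    unfold sp
    rw [Matrix.of_apply, hmat]
    by_cases h00 : (i : ℕ) = 0 ∧ (j : ℕ) = 0
    · rw [if_pos h00]
      have h1 : ∀ k : Fin N, β i j k = tab A pos lab k := by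
        intro k
        rw [hβ]
        beta_reduce
        rw [if_pos h00]
      simp only [h1]
      rw [tab_sum lab hpinj hplt y, hA, Finset.sum_disjSum, hpos, hlab]
      have h2 : ∑ a : Fin m, (if Sum.elim id y (Sum.elim (fun a : Fin m => Sum.inl (s.testBit (a : ℕ)))
          (fun p : Fin m × Fin m => Sum.inr p.1) (Sum.inl a) : Bool ⊕ Fin m) then
          (2 : ℤ) ^ (Sum.elim (fun a : Fin m => L + M + (a : ℕ)) (fun p : Fin m × Fin m => L + (M + e p.1 - e p.2)) (Sum.inl a) : ℕ)
          else 0) = 2 ^ L * (s * 2 ^ M) := by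
        show ∑ a : Fin m, (if s.testBit (a : ℕ) then (2 : ℤ) ^ (L + M + (a : ℕ)) else 0) = _
        rw [Fin.sum_univ_eq_sum_range (fun a => if s.testBit a then (2 : ℤ) ^ (L + M + a) else 0) m]
        have h3 : ∀ a ∈ Finset.range m, (if s.testBit a then (2 : ℤ) ^ (L + M + a) else 0) =
            2 ^ L * 2 ^ M * (if s.testBit a then (2 : ℤ) ^ a else 0) := by
          intro a _
          split_ifs
          · rw [pow_add, pow_add]
          · rw [mul_zero]
        rw [Finset.sum_congr rfl h3, ← Finset.mul_sum, sum_bits m s (lt_of_le_of_lt hs (Nat.lt_two_pow_self))]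
        ring
      have h4 : ∑ p ∈ Finset.univ.filter (fun p : Fin m × Fin m => p.2 ≠ p.1), (if Sum.elim id y (Sum.elim (fun a : Fin m => Sum.inl (s.testBit (a : ℕ)))
          (fun p : Fin m × Fin m => Sum.inr p.1) (Sum.inr p) : Bool ⊕ Fin m) then
          (2 : ℤ) ^ (Sum.elim (fun a : Fin m => L + M + (a : ℕ)) (fun p : Fin m × Fin m => L + (M + e p.1 - e p.2)) (Sum.inr p) : ℕ)
          else 0) = 2 ^ L * ∑ i, ∑ j, (if j = i then 0 else if y i then 2 ^ (M + e i - e j) else 0) := by
        show ∑ p ∈ Finset.univ.filter (fun p : Fin m × Fin m => p.2 ≠ p.1),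
          (if y p.1 then (2 : ℤ) ^ (L + (M + e p.1 - e p.2)) else 0) = _
        rw [Finset.sum_filter, Fintype.sum_prod_type, Finset.mul_sum]
        refine Finset.sum_congr rfl fun a _ => ?_
        rw [Finset.mul_sum]
        refine Finset.sum_congr rfl fun b _ => ?_
        show (if b ≠ a then (if y a then (2 : ℤ) ^ (L + (M + e a - e b)) else 0) else 0) = _
        by_cases hab : b = a
        · rw [if_neg (not_not.2 hab), if_pos hab, mul_zero]
        · rw [if_pos hab, if_neg hab, mul_ite, mul_zero, pow_add]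
      rw [h2, h4]
      ring
    · rw [if_neg h00]
      by_cases h01 : (i : ℕ) = 0 ∧ (j : ℕ) = 1
      · rw [if_pos h01]
        have h1 : ∀ k : Fin N, β i j k = tab Finset.univ (fun q => L + e q) (fun q => Sum.inr q) k := by
          intro k
          rw [hβ]
          beta_reduce
          rw [if_neg h00, if_pos h01]
        simp only [h1]
        rw [tab_sum (fun q => Sum.inr q) (fun p _ q _ h => hinj p q (by omega))
          (fun q _ => by have := he q; omega) y, Finset.mul_sum]
        refine Finset.sum_congr rfl fun q _ => ?_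
        show (if y q then (2 : ℤ) ^ (L + e q) else 0) = _
        rw [mul_ite, mul_zero, pow_add]
      · rw [if_neg h01]
        by_cases h10 : (i : ℕ) = 1 ∧ (j : ℕ) = 0
        · rw [if_pos h10]
          have h1 : ∀ k : Fin N, β i j k = tab Finset.univ (fun q : Fin m => M - e q) (fun _ => Sum.inl true) k := by
            intro k
            rw [hβ]
            beta_reduce
            rw [if_neg h00, if_neg h01, if_pos h10]
          simp only [h1]
          rw [tab_sum (fun _ => Sum.inl true) (fun p _ q _ h => hinj p q (by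
              have h2 := he p
              have h3 := he q
              omega)) (fun q _ => by omega) y]
          refine Finset.sum_congr rfl fun q _ => ?_
          show (if true then (2 : ℤ) ^ (M - e q) else 0) = _
          rfl
        · rw [if_neg h10]
          by_cases h11 : (i : ℕ) = 1 ∧ (j : ℕ) = 1
          · rw [if_pos h11]
            have h1 : ∀ k : Fin N, β i j k = tab {()} (fun _ => 0) (fun _ => Sum.inl true) k := by
              intro k
              rw [hβ]
              beta_reduce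
              rw [if_neg h00, if_neg h01, if_neg h10, if_pos h11]
            simp only [h1]
            rw [tab_sum (fun _ => Sum.inl true) (fun p _ q _ _ => rfl) (fun q _ => by omega) y,
              Finset.sum_singleton]
            show (if true then (2 : ℤ) ^ 0 else 0) = 1
            rfl
          · rw [if_neg h11]
            refine Finset.sum_eq_zero fun k _ => ?_
            have h1 : β i j k = Sum.inl false := by
              rw [hβ]
              beta_reduce
              rw [if_neg h00, if_neg h01, if_neg h10, if_neg h11]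
            rw [h1]
            exact mul_zero _

end Pool.Agent.BBR
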