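import Pool.Agent.BBR.Defs

set_option autoImplicit false

/-!
PROJECT BBR (MP_80b7d7_lc, helper82), module BBR-Rul.

Plan. p prime with m < p ≤ 2 m (Nat.exists_prime_lt_and_le_two_mul), M = 2 p m, e i = 2 p i + (i^2 % p).
Bounds are immediate: e i < 2 p (m-1) + p ≤ M; e j - e i ≥ 2 p - (p - 1) ≥ m for i < j. If e i + e j = e k + e l then,
since the sums of the two residues are < 2 p, i + j = k + l (divide by 2p) and i^2 % p + j^2 % p = k^2 % p + l^2 % p, so
i^2 + j^2 ≡ k^2 + l^2 mod p; with i - k = l - j: p ∣ 2 (i - k)(i - l) in ℤ (since i + k - l - j = 2 (i - l) when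
i + j = k + l). p is odd (p > m ≥ 2), |i - k|, |i - l| < p, hence i = k or i = l.
-/

namespace Pool.Agent.BBR

/-- A Golomb ruler of quadratic length with large gaps (Erdős and Turán). -/
theorem exists_ruler (m : ℕ) (hm : 2 ≤ m) : ∃ (M : ℕ) (e : Fin m → ℕ), M ≤ 4 * m ^ 2 ∧ m ≤ M ∧
    (∀ i, e i ≤ M) ∧ (∀ i j, i < j → e i + m ≤ e j) ∧
    (∀ i j k l, e i + e j = e k + e l → (i = k ∧ j = l) ∨ (i = l ∧ j = k)) := by
  obtain ⟨p, hp, hmp, hpm⟩ := Nat.exists_prime_lt_and_le_two_mul m (by omega)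
  have hlt : ∀ a : ℕ, a ^ 2 % p < p := fun a => Nat.mod_lt _ hp.pos
  refine ⟨2 * p * m, fun i => 2 * p * (i : ℕ) + (i : ℕ) ^ 2 % p, ?_, ?_, ?_, ?_, ?_⟩
  · nlinarith
  · nlinarith [hp.pos]
  · intro i
    have h1 := hlt i
    have h2 : (i : ℕ) + 1 ≤ m := i.2
    calc 2 * p * (i : ℕ) + (i : ℕ) ^ 2 % p ≤ 2 * p * (i : ℕ) + 2 * p := by omega
      _ = 2 * p * ((i : ℕ) + 1) := by ring
      _ ≤ 2 * p * m := Nat.mul_le_mul_left _ h2
  · intro i j hij
    have h1 := hlt i
    have h2 : (i : ℕ) + 1 ≤ j := hij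
    calc 2 * p * (i : ℕ) + (i : ℕ) ^ 2 % p + m ≤ 2 * p * (i : ℕ) + 2 * p := by omega
      _ = 2 * p * ((i : ℕ) + 1) := by ring
      _ ≤ 2 * p * (j : ℕ) := Nat.mul_le_mul_left _ h2
      _ ≤ 2 * p * (j : ℕ) + (j : ℕ) ^ 2 % p := Nat.le_add_right _ _
  · intro i j k l h
    simp only at h
    have hi := hlt i
    have hj := hlt j
    have hk := hlt k
    have hl := hlt l
    have h1 : (2 * p) * ((i : ℕ) + j) + ((i : ℕ) ^ 2 % p + (j : ℕ) ^ 2 % p) =
        (2 * p) * ((k : ℕ) + l) + ((k : ℕ) ^ 2 % p + (l : ℕ) ^ 2 % p) := by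
      linarith
    have h2 : (i : ℕ) + j = k + l := by
      have e1 : ((2 * p) * ((i : ℕ) + j) + ((i : ℕ) ^ 2 % p + (j : ℕ) ^ 2 % p)) / (2 * p) =
          (i : ℕ) + j := by
        rw [Nat.mul_add_div (by omega), Nat.div_eq_of_lt (by omega), add_zero]
      have e2 : ((2 * p) * ((k : ℕ) + l) + ((k : ℕ) ^ 2 % p + (l : ℕ) ^ 2 % p)) / (2 * p) =
          (k : ℕ) + l := by
        rw [Nat.mul_add_div (by omega), Nat.div_eq_of_lt (by omega), add_zero]
      rw [← e1, h1, e2]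
    have h3 : (i : ℕ) ^ 2 % p + (j : ℕ) ^ 2 % p = (k : ℕ) ^ 2 % p + (l : ℕ) ^ 2 % p := by
      rw [h2] at h1
      omega
    have h4 : (p : ℤ) ∣ 2 * (((i : ℕ) : ℤ) - (k : ℕ)) * (((i : ℕ) : ℤ) - (l : ℕ)) := by
      have h5 : ((i : ℕ) ^ 2 + (j : ℕ) ^ 2) ≡ ((k : ℕ) ^ 2 + (l : ℕ) ^ 2) [MOD p] := by
        unfold Nat.ModEq
        rw [Nat.add_mod, h3, ← Nat.add_mod]
      have h6 := (Nat.modEq_iff_dvd.1 h5.symm)
      push_cast at h6
      have h7 : ((j : ℕ) : ℤ) = (k : ℕ) + (l : ℕ) - (i : ℕ) := by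
        have : ((i : ℕ) : ℤ) + (j : ℕ) = (k : ℕ) + (l : ℕ) := by exact_mod_cast h2
        linarith
      have h8 : 2 * (((i : ℕ) : ℤ) - (k : ℕ)) * (((i : ℕ) : ℤ) - (l : ℕ)) =
          ((i : ℕ) : ℤ) ^ 2 + ((j : ℕ) : ℤ) ^ 2 - (((k : ℕ) : ℤ) ^ 2 + ((l : ℕ) : ℤ) ^ 2) := by
        rw [h7]
        ring
      rw [h8]
      exact h6
    have hpp : Prime (p : ℤ) := Nat.prime_iff_prime_int.1 hp
    have hcase : i = k ∨ i = l := by
      rcases hpp.dvd_or_dvd h4 with h5 | h5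
      · rcases hpp.dvd_or_dvd h5 with h6 | h6
        · exfalso
          have h7 : p ∣ 2 := by exact_mod_cast h6
          have := Nat.le_of_dvd (by norm_num) h7
          omega
        · left
          by_contra hne
          have h7 : ((i : ℕ) : ℤ) - (k : ℕ) ≠ 0 := by
            intro h8
            apply hne
            apply Fin.ext
            omega
          have h8 := Int.le_of_dvd (abs_pos.2 h7) ((dvd_abs _ _).2 h6)
          have h9 : |((i : ℕ) : ℤ) - (k : ℕ)| < m := by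
            rw [abs_lt]
            have := i.2
            have := k.2
            omega
          omega
      · right
        by_contra hne
        have h7 : ((i : ℕ) : ℤ) - (l : ℕ) ≠ 0 := by
          intro h8
          apply hne
          apply Fin.ext
          omega
        have h8 := Int.le_of_dvd (abs_pos.2 h7) ((dvd_abs _ _).2 h5)
        have h9 : |((i : ℕ) : ℤ) - (l : ℕ)| < m := by
          rw [abs_lt]
          have := i.2
          have := l.2
          omega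
        omega
    rcases hcase with h5 | h5
    · left
      refine ⟨h5, Fin.ext ?_⟩
      rw [h5] at h2
      omega
    · right
      refine ⟨h5, Fin.ext ?_⟩
      rw [h5] at h2
      omega

end Pool.Agent.BBR
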