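import Pool.Agent.BBR.MuS
import Pool.Agent.BBR.Rul
import Pool.Agent.BBR.EnA

set_option autoImplicit false

/-!
PROJECT BBR (MP_80b7d7_lc, helper82), module BBR-Enc.

Plan. Take M, e from exists_ruler, β from exists_sub (L + 2 M + 1 ≤ L + 8 m^2 + 1 ≤ N). mu 3 (sub β y) =
(minpoly ℤ (sp n X Y Z)).coeff 3 = if X * Y = Z then 0 else 1 by coeff_sp (Y = sum of powers of 2 ≠ 0 since m ≥ 2 > 0).
X * Y = 2^L sum_{i,j} (y i) 2^(e i) 2^(M - e j) = 2^L (wt y * 2^M + sum_{i} sum_{j ≠ i} (y i) 2^(M + e i - e j)) (the terms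
with j = i give 2^M each), so X * Y = Z iff wt y * 2^M = s * 2^M iff wt y = s.
-/

namespace Pool.Agent.BBR

/-- Counting the true variables is a substitution instance of the degree of the minimal
polynomial. -/
theorem encode (n : ℕ) (hn : 3 ≤ n) (m : ℕ) (hm : 2 ≤ m) (L N : ℕ) (hN : L + 8 * m ^ 2 + 1 ≤ N)
    (s : ℕ) (hs : s ≤ m) :
    ∃ β : Fin n → Fin n → Fin N → Bool ⊕ Fin m,
      (∀ i j (k : Fin N), (k : ℕ) < L → ∃ c, β i j k = Sum.inl c) ∧
      ∀ y : Fin m → Bool, mu 3 (sub β y) = if wt y = s then 0 else 1 := by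
  obtain ⟨M, e, hM, hmM, heM, hgap, hdif⟩ := exists_ruler m hm
  obtain ⟨β, hβ, hmat⟩ := exists_sub n hn m M L N s e (by omega) hmM heM hgap hdif hs
  refine ⟨β, hβ, fun y => ?_⟩
  have hY : (∑ i : Fin m, (2 : ℤ) ^ (M - e i)) ≠ 0 := by
    apply ne_of_gt
    have : Nonempty (Fin m) := ⟨⟨0, by omega⟩⟩
    apply Finset.sum_pos
    · intro i _
      positivity
    · exact Finset.univ_nonempty
  have hprod : (2 ^ L * ∑ i : Fin m, if y i then (2 : ℤ) ^ e i else 0) *
      (∑ i : Fin m, (2 : ℤ) ^ (M - e i)) =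
      2 ^ L * ((wt y : ℤ) * 2 ^ M + ∑ i, ∑ j, if j = i then 0 else
        if y i then (2 : ℤ) ^ (M + e i - e j) else 0) := by
    rw [mul_assoc]
    congr 1
    rw [Finset.sum_mul_sum]
    have h1 : ∀ i : Fin m, (∑ j : Fin m, (if y i then (2 : ℤ) ^ e i else 0) * 2 ^ (M - e j)) =
        (if y i then 2 ^ M else 0) + ∑ j, if j = i then 0 else
        if y i then (2 : ℤ) ^ (M + e i - e j) else 0 := by
      intro i
      rw [← Finset.sum_erase_add Finset.univ _ (Finset.mem_univ i), add_comm]
      congr 1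
      · split_ifs
        · rw [← pow_add]
          congr 1
          have := heM i
          omega
        · simp
      · rw [← Finset.sum_erase_add Finset.univ (fun j => if j = i then (0 : ℤ) else
          if y i then (2 : ℤ) ^ (M + e i - e j) else 0) (Finset.mem_univ i)]
        rw [if_pos rfl, add_zero]
        apply Finset.sum_congr rfl
        intro j hj
        rw [if_neg (Finset.ne_of_mem_erase hj)]
        split_ifs
        · rw [← pow_add]
          congr 1
          have := heM j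
          omega
        · simp
    rw [Finset.sum_congr rfl fun i _ => h1 i, Finset.sum_add_distrib]
    congr 1
    rw [← Finset.sum_filter, Finset.sum_const, nsmul_eq_mul]
    rfl
  unfold mu
  rw [hmat y, coeff_sp n hn _ _ _ hY, hprod]
  by_cases hw : wt y = s
  · rw [if_pos hw, if_pos (by rw [hw])]
  · rw [if_neg hw, if_neg]
    intro h1
    apply hw
    have h2 : (2 : ℤ) ^ L ≠ 0 := by positivity
    have h3 := mul_left_cancel₀ h2 h1
    have h4 := add_right_cancel h3
    have h5 : (2 : ℤ) ^ M ≠ 0 := by positivity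
    have h6 := mul_right_cancel₀ h5 h4
    exact_mod_cast h6

end Pool.Agent.BBR
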