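import Pool.Agent.BBR.Enc
import Pool.Agent.BBR.PuA

set_option autoImplicit false

/-!
PROJECT BBR (MP_80b7d7_lc, helper82), module BBR-Few.

Plan. By contradiction: N > 16 (r+2)^2. Put m = r + 2, L = N / 2: L + 8 m^2 + 1 ≤ N. encode with s = m gives β;
pull_inputs (D = 2^(N/2) = 2^L) gives (fun y => (f (sub β y) : ZMod 2)) ∈ Pol m r, and this function is
(if wt y = m then 0 else 1) (from h and ZMod.intCast_eq_intCast_iff / Int.ModEq). le_of_and_mem: m ≤ r, contradiction.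
-/

namespace Pool.Agent.BBR

/-- Lower bound for the number of the inspected bits. -/
theorem few_bits (n : ℕ) (hn : 3 ≤ n) (N r : ℕ) (f : Bits n N → ℤ)
    (hf : f ∈ Inputs n N (2 ^ (N / 2)) r) (h : ∀ b, f b ≡ mu 3 b [ZMOD 2]) :
    N ≤ 16 * (r + 2) ^ 2 := by
  by_contra hN
  push Not at hN
  have hL : N / 2 + 8 * (r + 2) ^ 2 + 1 ≤ N := by
    have h1 : N / 2 * 2 ≤ N := Nat.div_mul_le_self N 2
    omega
  obtain ⟨β, hβ, hmu⟩ := encode n hn (r + 2) (by omega) (N / 2) N hL (r + 2) le_rfl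
  have h1 := pull_inputs (L := N / 2) le_rfl β hβ f hf
  have h2 : (fun y => ((f (sub β y) : ℤ) : ZMod 2)) =
      (fun y : Fin (r + 2) → Bool => if wt y = r + 2 then (0 : ZMod 2) else 1) := by
    funext y
    have h3 := h (sub β y)
    rw [hmu y] at h3
    have h4 : ((f (sub β y) : ℤ) : ZMod 2) = (((if wt y = r + 2 then 0 else 1 : ℤ) : ℤ) : ZMod 2) :=
      (ZMod.intCast_eq_intCast_iff _ _ 2).2 h3
    rw [h4]
    split_ifs <;> simp
  rw [h2] at h1
  have := le_of_and_mem (r + 2) r h1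
  omega

end Pool.Agent.BBR
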