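import Pool.Agent.BBR.Defs

set_option autoImplicit false

/-!
PROJECT BBR (MP_80b7d7_lc, helper82), module BBR-Rnk.

Plan. (1) By induction on the list (from the left, generalising the row vector): for a row-vector valued function
w : X → Z → Fin W → K whose coordinates have SepRank R, and Q depending on one argument only, the coordinates of
w ᵥ* Q have SepRank (W * R): ∑ p, w p (x,z) * Q p q; the factor Q p q can be absorbed into u (if it does not depend on z) or
into v (if it does not depend on x; use Nonempty to pick the other argument); index Fin (W*R) ≃ Fin W × Fin R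
(finProdFinEquiv). Start: u is constant, rank 1. End: the sum over W coordinates times v. Total W^(length) * W. Helper lemmas:
SepRank.sum, SepRank.mul_left, change of index set by a Fintype equivalence. (2) The matrix F of the function satisfies
1 + F = J (all ones) with entries in K; F = U * V with inner dimension R, so 1 = J - U V has rank ≤ 1 + R (Matrix.rank_add_le if
available, Matrix.rank_mul_le, Matrix.rank_le_card_width) or write 1 as a product of a Y × Fin (R+1) and a Fin (R+1) × Y matrix
and use Matrix.rank_mul_le_left, rank_le_width, rank_one.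
-/

namespace Pool.Agent.BBR

private theorem of_fintype {X Z K ι : Type} [Field K] [Fintype ι] {F : X → Z → K} {R : ℕ}
    (hR : Fintype.card ι = R) (u : ι → X → K) (v : ι → Z → K)
    (h : ∀ x z, F x z = ∑ i, u i x * v i z) : SepRank F R := by
  subst hR
  refine ⟨fun i => u ((Fintype.equivFin ι).symm i), fun i => v ((Fintype.equivFin ι).symm i),
    fun x z => ?_⟩
  rw [h x z]
  exact (Equiv.sum_comp (Fintype.equivFin ι).symm (fun i => u i x * v i z)).symm

private theorem step {X Z K : Type} [Field K] [Nonempty X] [Nonempty Z] {W R : ℕ}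
    (w : X → Z → Fin W → K) (hw : ∀ p, SepRank (fun x z => w x z p) R)
    (Q : X → Z → Matrix (Fin W) (Fin W) K)
    (hQ : (∀ x x' z, Q x z = Q x' z) ∨ (∀ x z z', Q x z = Q x z')) (q : Fin W) :
    SepRank (fun x z => (Matrix.vecMul (w x z) (Q x z)) q) (W * R) := by
  choose u v huv using hw
  rcases hQ with hQ | hQ
  · obtain ⟨x0⟩ := ‹Nonempty X›
    refine of_fintype (ι := Fin W × Fin R) (by simp) (fun pi x => u pi.1 pi.2 x)
      (fun pi z => v pi.1 pi.2 z * Q x0 z pi.1 q) ?_
    intro x z
    rw [Fintype.sum_prod_type]
    simp only [Matrix.vecMul, dotProduct]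
    refine Finset.sum_congr rfl fun p _ => ?_
    have h5 : w x z p = ∑ i, u p i x * v p i z := huv p x z
    have h6 : Q x z = Q x0 z := hQ x x0 z
    rw [h5, h6, Finset.sum_mul]
    exact Finset.sum_congr rfl fun i _ => by ring
  · obtain ⟨z0⟩ := ‹Nonempty Z›
    refine of_fintype (ι := Fin W × Fin R) (by simp)
      (fun pi x => u pi.1 pi.2 x * Q x z0 pi.1 q)
      (fun pi z => v pi.1 pi.2 z) ?_
    intro x z
    rw [Fintype.sum_prod_type]
    simp only [Matrix.vecMul, dotProduct]
    refine Finset.sum_congr rfl fun p _ => ?_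
    have h5 : w x z p = ∑ i, u p i x * v p i z := huv p x z
    have h6 : Q x z = Q x z0 := hQ x z z0
    rw [h5, h6, Finset.sum_mul]
    exact Finset.sum_congr rfl fun i _ => by ring

private theorem main {X Z K : Type} [Field K] [Nonempty X] [Nonempty Z] {W : ℕ}
    (v : Fin W → K) (L : List (X → Z → Matrix (Fin W) (Fin W) K))
    (hL : ∀ Q ∈ L, (∀ x x' z, Q x z = Q x' z) ∨ (∀ x z z', Q x z = Q x z')) :
    ∀ (R : ℕ) (w : X → Z → Fin W → K), (∀ p, SepRank (fun x z => w x z p) R) →
    SepRank (fun x z => w x z ⬝ᵥ
      (((L.map fun Q => Q x z).prod : Matrix (Fin W) (Fin W) K).mulVec v))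
      (W ^ (L.length + 1) * R) := by
  induction L with
  | nil =>
    intro R w hw
    choose u' v' huv using hw
    refine of_fintype (ι := Fin W × Fin R) (by simp) (fun pi x => u' pi.1 pi.2 x)
      (fun pi z => v' pi.1 pi.2 z * v pi.1) ?_
    intro x z
    rw [Fintype.sum_prod_type]
    simp only [List.map_nil, List.prod_nil, Matrix.one_mulVec, dotProduct]
    refine Finset.sum_congr rfl fun p _ => ?_
    have h5 : w x z p = ∑ i, u' p i x * v' p i z := huv p x z
    rw [h5, Finset.sum_mul]
    exact Finset.sum_congr rfl fun i _ => by ring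
  | cons Q L ih =>
    intro R w hw
    have h1 := ih (fun Q' hQ' => hL Q' (List.mem_cons_of_mem _ hQ')) (W * R)
      (fun x z => Matrix.vecMul (w x z) (Q x z))
      (fun q => step w hw Q (hL Q List.mem_cons_self) q)
    have h2 : W ^ ((Q :: L).length + 1) * R = W ^ (L.length + 1) * (W * R) := by
      rw [List.length_cons, pow_succ W (L.length + 1)]
      ring
    rw [h2]
    have h3 : (fun x z => w x z ⬝ᵥ
        ((((Q :: L).map fun Q => Q x z).prod : Matrix (Fin W) (Fin W) K).mulVec v)) =
        (fun x z => Matrix.vecMul (w x z) (Q x z) ⬝ᵥ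
        (((L.map fun Q => Q x z).prod : Matrix (Fin W) (Fin W) K).mulVec v)) := by
      funext x z
      rw [List.map_cons, List.prod_cons, ← Matrix.mulVec_mulVec, Matrix.dotProduct_mulVec]
    rw [h3]
    exact h1

/-- The rank of a function which is computed by a product of matrices each of which depends on one
of the two arguments only. -/
theorem sepRank_prod {X Z K : Type} [Field K] [Nonempty X] [Nonempty Z] {W : ℕ}
    (L : List (X → Z → Matrix (Fin W) (Fin W) K))
    (hL : ∀ Q ∈ L, (∀ x x' z, Q x z = Q x' z) ∨ (∀ x z z', Q x z = Q x z'))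
    (u v : Fin W → K) :
    SepRank (fun x z => u ⬝ᵥ (((L.map fun Q => Q x z).prod : Matrix (Fin W) (Fin W) K).mulVec v))
      (W ^ (L.length + 1)) := by
  have h := main v L hL 1 (fun _ _ => u) (fun p => ⟨fun _ _ => u p, fun _ _ => 1, fun x z => by
    simp⟩)
  rwa [mul_one] at h

/-- The rank of the inequality function. -/
theorem card_le_of_sepRank {Y K : Type} [Field K] [Fintype Y] [DecidableEq Y] {R : ℕ}
    (h : SepRank (fun x z : Y => if x = z then (0 : K) else 1) R) : Fintype.card Y ≤ R + 1 := by
  obtain ⟨u, v, huv⟩ := h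
  have h1 : (Matrix.of (fun (x : Y) (o : Option (Fin R)) =>
      Option.elim o (1 : K) (fun i => - u i x))) *
      (Matrix.of (fun (o : Option (Fin R)) (z : Y) => Option.elim o (1 : K) (fun i => v i z))) =
      (1 : Matrix Y Y K) := by
    ext x z
    rw [Matrix.mul_apply, Fintype.sum_option, Matrix.one_apply]
    simp only [Matrix.of_apply, Option.elim]
    have h2 : (if x = z then (0 : K) else 1) = ∑ i, u i x * v i z := huv x z
    simp only [neg_mul, Finset.sum_neg_distrib, mul_one]
    rw [← h2]
    by_cases hxz : x = z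
    · simp [hxz]
    · simp [hxz]
  have h3 := Matrix.rank_mul_le_left (Matrix.of (fun (x : Y) (o : Option (Fin R)) =>
      Option.elim o (1 : K) (fun i => - u i x)))
      (Matrix.of (fun (o : Option (Fin R)) (z : Y) => Option.elim o (1 : K) (fun i => v i z)))
  rw [h1, Matrix.rank_one] at h3
  refine h3.trans ((Matrix.rank_le_card_width _).trans (le_of_eq ?_))
  simp

end Pool.Agent.BBR
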