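import Pool.Agent.BBR.MuS
import Pool.Agent.BBR.AlM
import Pool.Agent.BBR.Rnk

set_option autoImplicit false

/-!
PROJECT BBR (MP_80b7d7_lc, helper82), module BBR-Rdk.

Plan. h = N / 2. If h = 0 then N / (4 * 16^k) = 0 and the claim is 1 ≤ _ + 1. Variables: A = {(0,1,i) | i < h},
B = {(0,0,j) | h ≤ j < 2 h} (indices in Fin n × Fin n × Fin N; 2 h ≤ N), disjoint. alon_maass with g = Prod.fst, a = b = k,
l = P.steps gives S, T with h ≤ 4^k |S|, h ≤ 4^k |T| and the blocks L, L.length ≤ 2k+1. Pigeonhole on c = j - i ∈ [1, 2h-1]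
(i from S, j from T): some c has at least |S||T|/(2h) pairs, so the set I of i with (0,1,i) ∈ S and (0,0,i+c) ∈ T has
h^2 ≤ 16^k * 2 h * |I|, i.e. N / (4*16^k) = h / (2 * 16^k) ≤ |I| (Nat.div_div_eq_div_mul). For x z : I → Bool let b(x,z) be the
bits: entry (0,1) bit i = x i for i ∈ I, entry (0,0) bit i + c = z i, entry (1,0) only bit c, entry (1,1) only bit 0, all
others false. Then mat = sp n (∑ x_i 2^i) (2^c) (∑ z_i 2^(i+c)), X * Y = Z iff x = z (binary expansions are unique), so by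
coeff_sp the value is [x ≠ z]. For a block avoiding S the matrices do not depend on x, for one avoiding T not on z. So
(P.steps = L.flatten; List.map_flatten, prod_flatten) sepRank_prod and card_le_of_sepRank (Y = I → Bool, card 2^|I|):
2^|I| ≤ W^(L.length+1) + 1 ≤ W^(2k+2) + 1 (if W = 0: both powers are 0 ; if W ≥ 1 monotone).
-/

namespace Pool.Agent.BBR

open Finset

private def U (c : ℕ) (x z : Finset ℕ) (p q : ℕ) : Finset ℕ :=
  if p = 0 ∧ q = 0 then z.image (fun t => t + c)
  else if p = 0 ∧ q = 1 then x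
  else if p = 1 ∧ q = 0 then {c}
  else if p = 1 ∧ q = 1 then {0} else ∅

private def bb (n N c : ℕ) (x z : Finset ℕ) : Bits n N := fun p q t =>
  decide ((t : ℕ) ∈ U c x z p q)

private theorem sum_bits {N : ℕ} {u : Finset ℕ} (hu : ∀ t ∈ u, t < N) :
    ∑ t : Fin N, (2 : ℤ) ^ (t : ℕ) * (if decide ((t : ℕ) ∈ u) = true then 1 else 0) =
      ∑ t ∈ u, (2 : ℤ) ^ t := by
  have h1 : ∑ t : Fin N, (2 : ℤ) ^ (t : ℕ) * (if decide ((t : ℕ) ∈ u) = true then 1 else 0) =
      ∑ t ∈ range N, (2 : ℤ) ^ t * (if decide (t ∈ u) = true then 1 else 0) :=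
    Fin.sum_univ_eq_sum_range
      (fun t => (2 : ℤ) ^ t * (if decide (t ∈ u) = true then 1 else 0)) N
  rw [h1]
  have h2 : u ⊆ range N := fun t ht => mem_range.2 (hu t ht)
  rw [← sum_subset h2]
  · refine sum_congr rfl fun t ht => ?_
    rw [if_pos (decide_eq_true ht), mul_one]
  · intro t _ ht
    rw [if_neg (by simpa using ht), mul_zero]

private theorem U_lt {N c : ℕ} {x z : Finset ℕ} (hN : 0 < N) (hc : c < N)
    (hx : ∀ t ∈ x, t < N) (hz : ∀ t ∈ z, t + c < N) (p q : ℕ) : ∀ t ∈ U c x z p q, t < N := by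
  intro t ht
  unfold U at ht
  split_ifs at ht with h1 h2 h3 h4
  · obtain ⟨a, ha, rfl⟩ := mem_image.1 ht
    exact hz a ha
  · exact hx t ht
  · rw [mem_singleton] at ht; omega
  · rw [mem_singleton] at ht; omega
  · exact absurd ht (notMem_empty t)

private theorem sum_shift (c : ℕ) (z : Finset ℕ) :
    ∑ t ∈ z.image (fun t => t + c), (2 : ℤ) ^ t = (∑ t ∈ z, (2 : ℤ) ^ t) * 2 ^ c := by
  rw [sum_image (fun a _ b _ h => by simpa using h), sum_mul]
  exact sum_congr rfl fun t _ => pow_add _ _ _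

private theorem mat_bb {n N c : ℕ} {x z : Finset ℕ} (hN : 0 < N) (hc : c < N)
    (hx : ∀ t ∈ x, t < N) (hz : ∀ t ∈ z, t + c < N) :
    mat (bb n N c x z) = sp n (∑ t ∈ x, (2 : ℤ) ^ t) (2 ^ c) ((∑ t ∈ z, (2 : ℤ) ^ t) * 2 ^ c) := by
  ext p q
  have h1 : mat (bb n N c x z) p q = ∑ t ∈ U c x z p q, (2 : ℤ) ^ t := by
    rw [← sum_bits (U_lt hN hc hx hz p q)]
    rfl
  rw [h1]
  unfold U sp
  simp only [Matrix.of_apply]
  split_ifs with h1 h2 h3 h4
  · exact sum_shift c z
  · rfl
  · rw [sum_singleton]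
  · rw [sum_singleton, pow_zero]
  · rw [sum_empty]

private theorem sum_two_inj {x z : Finset ℕ} :
    (∑ t ∈ x, (2 : ℤ) ^ t) * 2 ^ (0 : ℕ) = (∑ t ∈ z, (2 : ℤ) ^ t) ↔ x = z := by
  constructor
  · intro h
    rw [pow_zero, mul_one] at h
    have h1 : ∑ t ∈ x, 2 ^ t = ∑ t ∈ z, 2 ^ t := by exact_mod_cast h
    exact geomSum_injective (le_refl 2) h1
  · rintro rfl
    rw [pow_zero, mul_one]

private theorem mu_bb {n N c : ℕ} (hn : 3 ≤ n) {x z : Finset ℕ} (hN : 0 < N) (hc : c < N)
    (hx : ∀ t ∈ x, t < N) (hz : ∀ t ∈ z, t + c < N) :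
    mu 3 (bb n N c x z) = if x = z then 0 else 1 := by
  unfold mu
  rw [mat_bb hN hc hx hz, coeff_sp n hn _ _ _ (pow_ne_zero c two_ne_zero)]
  have h : (∑ t ∈ x, (2 : ℤ) ^ t) * 2 ^ c = (∑ t ∈ z, (2 : ℤ) ^ t) * 2 ^ c ↔ x = z := by
    rw [mul_left_inj' (pow_ne_zero c two_ne_zero), ← sum_two_inj, pow_zero, mul_one]
  by_cases hxz : x = z
  · rw [if_pos (h.2 hxz), if_pos hxz]
  · rw [if_neg (fun h' => hxz (h.1 h')), if_neg hxz]

private theorem pigeon {h k : ℕ} (hh : 0 < h) {S T : Finset ℕ} (hS : ∀ i ∈ S, i < h)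
    (hT : ∀ j ∈ T, h ≤ j ∧ j < 2 * h) (h1 : h ≤ 4 ^ k * S.card) (h2 : h ≤ 4 ^ k * T.card) :
    ∃ c < 2 * h, h ≤ 2 * 16 ^ k * (S.filter (fun i => i + c ∈ T)).card := by
  by_contra hcon
  push Not at hcon
  have h3 : (S ×ˢ T).card = ∑ c ∈ range (2 * h), ((S ×ˢ T).filter (fun z => z.2 - z.1 = c)).card :=
    card_eq_sum_card_fiberwise fun z hz => by
      obtain ⟨hz1, hz2⟩ := mem_product.1 hz
      have := hT _ hz2
      exact mem_coe.2 (mem_range.2 (by omega))
  have h4 : ∀ c ∈ range (2 * h), ((S ×ˢ T).filter (fun z => z.2 - z.1 = c)).card * (2 * 16 ^ k) <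
      h := by
    intro c hc
    have h5 : ((S ×ˢ T).filter (fun z => z.2 - z.1 = c)).card ≤
        (S.filter (fun i => i + c ∈ T)).card := by
      apply card_le_card_of_injOn (fun z => z.1)
      · intro z hz
        obtain ⟨hz1, hz2⟩ := mem_filter.1 (mem_coe.1 hz)
        obtain ⟨hz3, hz4⟩ := mem_product.1 hz1
        have e1 := hS _ hz3
        have e2 := hT _ hz4
        refine mem_coe.2 (mem_filter.2 ⟨hz3, ?_⟩)
        have e3 : z.1 + c = z.2 := by omega
        rw [e3]; exact hz4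
      · intro z hz w hw hzw
        obtain ⟨hz1, hz2⟩ := mem_filter.1 (mem_coe.1 hz)
        obtain ⟨hz3, hz4⟩ := mem_product.1 hz1
        obtain ⟨hw1, hw2⟩ := mem_filter.1 (mem_coe.1 hw)
        obtain ⟨hw3, hw4⟩ := mem_product.1 hw1
        have e1 := hS _ hz3
        have e2 := hT _ hz4
        have e3 := hS _ hw3
        have e4 := hT _ hw4
        simp only at hzw
        ext1
        · exact hzw
        · omega
    have h6 := hcon c (mem_range.1 hc)
    calc ((S ×ˢ T).filter (fun z => z.2 - z.1 = c)).card * (2 * 16 ^ k) ≤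
        (S.filter (fun i => i + c ∈ T)).card * (2 * 16 ^ k) := Nat.mul_le_mul_right _ h5
      _ = 2 * 16 ^ k * (S.filter (fun i => i + c ∈ T)).card := mul_comm _ _
      _ < h := h6
  have h7 : (S ×ˢ T).card * (2 * 16 ^ k) < 2 * h * h := by
    rw [h3, sum_mul]
    calc ∑ c ∈ range (2 * h), ((S ×ˢ T).filter (fun z => z.2 - z.1 = c)).card * (2 * 16 ^ k) <
        ∑ c ∈ range (2 * h), h :=
          sum_lt_sum_of_nonempty ⟨0, mem_range.2 (by omega)⟩ h4
      _ = 2 * h * h := by rw [sum_const, card_range, smul_eq_mul]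
  rw [card_product] at h7
  have h8 : h * h ≤ (4 ^ k * S.card) * (4 ^ k * T.card) := Nat.mul_le_mul h1 h2
  have h9 : (4 ^ k * S.card) * (4 ^ k * T.card) = S.card * T.card * 16 ^ k := by
    have : (16 : ℕ) ^ k = 4 ^ k * 4 ^ k := by
      rw [← mul_pow]
      norm_num
    rw [this]; ring
  rw [h9] at h8
  have h10 : S.card * T.card * (2 * 16 ^ k) = 2 * (S.card * T.card * 16 ^ k) := by ring
  rw [h10] at h7
  have h11 : 2 * h * h = 2 * (h * h) := by ring
  omega

/-- Lower bound for oblivious branching programs in which every bit is read at most `k` times. -/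
theorem read_k (n : ℕ) (hn : 3 ≤ n) (N W k : ℕ) (K : Type) [Field K] (P : Prog K (Var n N) W)
    (hP : P.ReadAtMost k)
    (h : ∀ b : Bits n N, P.val (fun t => b t.1 t.2.1 t.2.2) = ((mu 3 b : ℤ) : K)) :
    2 ^ (N / (4 * 16 ^ k)) ≤ W ^ (2 * k + 2) + 1 := by
  obtain ⟨m, hm⟩ : ∃ m, m = N / 2 := ⟨_, rfl⟩
  have hdiv : N / (4 * 16 ^ k) = m / (2 * 16 ^ k) := by
    rw [hm, Nat.div_div_eq_div_mul]
    congr 1
    ring
  rcases Nat.eq_zero_or_pos m with hm0 | hmpos
  · rw [hdiv, hm0, Nat.zero_div, pow_zero]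
    omega
  have hmN : 2 * m ≤ N := by omega
  have hNpos : 0 < N := by omega
  -- the variables
  obtain ⟨e0, he0⟩ : ∃ e0 : Fin n, (e0 : ℕ) = 0 := ⟨⟨0, by omega⟩, rfl⟩
  obtain ⟨e1, he1⟩ : ∃ e1 : Fin n, (e1 : ℕ) = 1 := ⟨⟨1, by omega⟩, rfl⟩
  have he01 : e0 ≠ e1 := by
    intro hcon
    rw [hcon] at he0
    omega
  obtain ⟨A, hA⟩ : ∃ A : Finset (Var n N),
      A = univ.filter fun t => t.1 = e0 ∧ t.2.1 = e1 ∧ (t.2.2 : ℕ) < m := ⟨_, rfl⟩
  obtain ⟨B, hB⟩ : ∃ B : Finset (Var n N),
      B = univ.filter fun t => t.1 = e0 ∧ t.2.1 = e0 ∧ m ≤ (t.2.2 : ℕ) ∧ (t.2.2 : ℕ) < 2 * m :=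
    ⟨_, rfl⟩
  have memA : ∀ t, t ∈ A ↔ t.1 = e0 ∧ t.2.1 = e1 ∧ (t.2.2 : ℕ) < m := by
    intro t; rw [hA]; simp
  have memB : ∀ t, t ∈ B ↔ t.1 = e0 ∧ t.2.1 = e0 ∧ m ≤ (t.2.2 : ℕ) ∧ (t.2.2 : ℕ) < 2 * m := by
    intro t; rw [hB]; simp
  have hAB : Disjoint A B := by
    rw [disjoint_left]
    intro t h1 h2
    have := ((memB t).1 h2).2.1
    rw [((memA t).1 h1).2.1] at this
    exact he01 this.symm
  have cA : m ≤ A.card := by
    have : (univ : Finset (Fin m)).card ≤ A.card := by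
      apply card_le_card_of_injOn
        (fun i : Fin m => ((e0, e1, ⟨(i : ℕ), by omega⟩) : Var n N))
      · intro i _
        exact mem_coe.2 ((memA _).2 ⟨rfl, rfl, i.2⟩)
      · intro i _ j _ hij
        simp only [Prod.mk.injEq, Fin.mk.injEq, true_and] at hij
        exact Fin.ext hij
    simpa using this
  have cB : m ≤ B.card := by
    have : (univ : Finset (Fin m)).card ≤ B.card := by
      apply card_le_card_of_injOn
        (fun i : Fin m => ((e0, e0, ⟨m + (i : ℕ), by omega⟩) : Var n N))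
      · intro i _
        refine mem_coe.2 ((memB _).2 ⟨rfl, rfl, ?_, ?_⟩)
        · show m ≤ m + (i : ℕ)
          omega
        · show m + (i : ℕ) < 2 * m
          omega
      · intro i _ j _ hij
        simp only [Prod.mk.injEq, Fin.mk.injEq, true_and] at hij
        exact Fin.ext (by omega)
    simpa using this
  obtain ⟨S, hSA, T, hTB, hS, hT, L, hLlen, hLfl, hL⟩ :=
    alon_maass (Prod.fst) k k P.steps A B hAB (fun v _ => hP v) (fun v _ => hP v)
  obtain ⟨S', hS'⟩ : ∃ S' : Finset ℕ, S' = S.image (fun t => (t.2.2 : ℕ)) := ⟨_, rfl⟩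
  obtain ⟨T', hT'⟩ : ∃ T' : Finset ℕ, T' = T.image (fun t => (t.2.2 : ℕ)) := ⟨_, rfl⟩
  have cS : S'.card = S.card := by
    rw [hS']
    apply card_image_of_injOn
    intro t ht u hu htu
    have h1 := (memA t).1 (hSA ht)
    have h2 := (memA u).1 (hSA hu)
    ext1
    · rw [h1.1, h2.1]
    · ext1
      · rw [h1.2.1, h2.2.1]
      · exact Fin.ext htu
  have cT : T'.card = T.card := by
    rw [hT']
    apply card_image_of_injOn
    intro t ht u hu htu
    have h1 := (memB t).1 (hTB ht)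
    have h2 := (memB u).1 (hTB hu)
    ext1
    · rw [h1.1, h2.1]
    · ext1
      · rw [h1.2.1, h2.2.1]
      · exact Fin.ext htu
  have four : ∀ q : ℕ, 2 ^ (k + k) * q = 4 ^ k * q := by
    intro q
    rw [← two_mul, pow_mul]
    norm_num
  rw [four] at hS hT
  obtain ⟨c, hc, hI⟩ := pigeon (k := k) hmpos (S := S') (T := T')
    (by
      intro i hi
      rw [hS'] at hi
      obtain ⟨t, ht, rfl⟩ := mem_image.1 hi
      exact ((memA t).1 (hSA ht)).2.2)
    (by
      intro i hi
      rw [hT'] at hi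
      obtain ⟨t, ht, rfl⟩ := mem_image.1 hi
      exact ((memB t).1 (hTB ht)).2.2)
    (by rw [cS]; exact cA.trans hS) (by rw [cT]; exact cB.trans hT)
  obtain ⟨I, hIdef⟩ : ∃ I, I = S'.filter (fun i => i + c ∈ T') := ⟨_, rfl⟩
  rw [← hIdef] at hI
  have hIS : ∀ i ∈ I, ∀ t : Var n N, t.1 = e0 → t.2.1 = e1 → (t.2.2 : ℕ) = i → t ∈ S := by
    intro i hi t h1 h2 h3
    rw [hIdef] at hi
    have h4 := (mem_filter.1 hi).1
    rw [hS'] at h4
    obtain ⟨u, hu, hui⟩ := mem_image.1 h4
    have h5 := (memA u).1 (hSA hu)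
    have : t = u := by
      ext1
      · rw [h1, h5.1]
      · ext1
        · rw [h2, h5.2.1]
        · exact Fin.ext (h3.trans hui.symm)
    rw [this]; exact hu
  have hIT : ∀ i ∈ I, ∀ t : Var n N, t.1 = e0 → t.2.1 = e0 → (t.2.2 : ℕ) = i + c → t ∈ T := by
    intro i hi t h1 h2 h3
    rw [hIdef] at hi
    have h4 := (mem_filter.1 hi).2
    rw [hT'] at h4
    obtain ⟨u, hu, hui⟩ := mem_image.1 h4
    have h5 := (memB u).1 (hTB hu)
    have : t = u := by
      ext1
      · rw [h1, h5.1]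
      · ext1
        · rw [h2, h5.2.1]
        · exact Fin.ext (h3.trans hui.symm)
    rw [this]; exact hu
  have hIlt : ∀ i ∈ I, i < N ∧ i + c < N := by
    intro i hi
    rw [hIdef] at hi
    obtain ⟨h4, h5⟩ := mem_filter.1 hi
    rw [hS'] at h4
    rw [hT'] at h5
    obtain ⟨u, hu, hui⟩ := mem_image.1 h4
    obtain ⟨w, hw, hwi⟩ := mem_image.1 h5
    rw [← hui]
    refine ⟨u.2.2.2, ?_⟩
    rw [hui, ← hwi]
    exact w.2.2.2
  haveI : Nonempty I.powerset := ⟨⟨∅, empty_mem_powerset I⟩⟩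
  have hmain : SepRank (fun x z : I.powerset => if x = z then (0 : K) else 1)
      (W ^ (L.length + 1)) := by
    obtain ⟨Qf, hQf⟩ : ∃ Qf : List (Var n N × (Bool → Matrix (Fin W) (Fin W) K)) →
        I.powerset → I.powerset → Matrix (Fin W) (Fin W) K,
        ∀ l x z, Qf l x z = (l.map fun s => s.2 (bb n N c x.1 z.1 s.1.1 s.1.2.1 s.1.2.2)).prod :=
      ⟨_, fun _ _ _ => rfl⟩
    have hsr := sepRank_prod (X := I.powerset) (Z := I.powerset) (L.map Qf) (by
      intro Q hQ
      obtain ⟨l, hl, rfl⟩ := List.mem_map.1 hQ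
      rcases hL l hl with h1 | h1
      · left
        intro x x' z
        rw [hQf, hQf]
        congr 1
        apply List.map_congr_left
        intro s hs
        congr 1
        have h2 := h1 s hs
        unfold bb U
        split_ifs with g1 g2 g3 g4
        · rfl
        · have n1 : ∀ x : I.powerset, (s.1.2.2 : ℕ) ∉ (x : Finset ℕ) := by
            intro x hx
            apply h2
            exact hIS _ (mem_powerset.1 x.2 hx) s.1 (Fin.ext (g2.1.trans he0.symm))
              (Fin.ext (g2.2.trans he1.symm)) rfl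
          rw [decide_eq_false (n1 x), decide_eq_false (n1 x')]
        · rfl
        · rfl
        · rfl
      · right
        intro x z z'
        rw [hQf, hQf]
        congr 1
        apply List.map_congr_left
        intro s hs
        congr 1
        have h2 := h1 s hs
        unfold bb U
        split_ifs with g1 g2 g3 g4
        · have n1 : ∀ z : I.powerset, (s.1.2.2 : ℕ) ∉ (z : Finset ℕ).image (fun t => t + c) := by
            intro z hz
            apply h2
            obtain ⟨i, hi, hi2⟩ := mem_image.1 hz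
            exact hIT i (mem_powerset.1 z.2 hi) s.1 (Fin.ext (g1.1.trans he0.symm))
              (Fin.ext (g1.2.trans he0.symm)) hi2.symm
          rw [decide_eq_false (n1 z), decide_eq_false (n1 z')]
        · rfl
        · rfl
        · rfl
        · rfl) P.start P.accept
    rw [List.length_map] at hsr
    have hfun : (fun x z : I.powerset => if x = z then (0 : K) else 1) =
        fun x z => P.start ⬝ᵥ ((((L.map Qf).map fun Q => Q x z).prod :
          Matrix (Fin W) (Fin W) K).mulVec P.accept) := by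
      funext x z
      have h1 := h (bb n N c x.1 z.1)
      rw [mu_bb hn hNpos (by omega) (fun t ht => (hIlt t (mem_powerset.1 x.2 ht)).1)
        (fun t ht => (hIlt t (mem_powerset.1 z.2 ht)).2)] at h1
      have h2 : (((if (x : Finset ℕ) = (z : Finset ℕ) then (0 : ℤ) else 1) : ℤ) : K) =
          if x = z then (0 : K) else 1 := by
        by_cases hxz : x = z
        · rw [if_pos hxz, if_pos (congrArg Subtype.val hxz), Int.cast_zero]
        · rw [if_neg hxz, if_neg (fun h' => hxz (Subtype.ext h')), Int.cast_one]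
      rw [h2] at h1
      rw [← h1]
      unfold Prog.val
      have h3 : (P.steps.map fun s => s.2 ((fun t : Var n N => bb n N c x.1 z.1 t.1 t.2.1 t.2.2)
          s.1)).prod = ((L.map Qf).map fun Q => Q x z).prod := by
        rw [← hLfl, List.map_flatten, List.prod_flatten, List.map_map, List.map_map]
        congr 1
        apply List.map_congr_left
        intro l _
        rw [Function.comp_apply, Function.comp_apply, hQf]
      rw [h3]
    rw [hfun]
    exact hsr
  have hfin := card_le_of_sepRank hmain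
  rw [Fintype.card_coe, card_powerset] at hfin
  have hle : m / (2 * 16 ^ k) ≤ I.card := by
    apply Nat.div_le_of_le_mul
    exact hI
  rw [hdiv]
  calc 2 ^ (m / (2 * 16 ^ k)) ≤ 2 ^ I.card := Nat.pow_le_pow_right (by norm_num) hle
    _ ≤ W ^ (L.length + 1) + 1 := hfin
    _ ≤ W ^ (2 * k + 2) + 1 := by
        apply Nat.add_le_add_right
        rcases Nat.eq_zero_or_pos W with hW | hW
        · have h0 : W ^ (L.length + 1) = 0 := by
            rw [Nat.pow_eq_zero]
            exact ⟨hW, by omega⟩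
          rw [h0]
          exact Nat.zero_le _
        · exact Nat.pow_le_pow_right hW (by omega)

end Pool.Agent.BBR
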