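import Pool.Agent.BBR.Defs

set_option autoImplicit false

/-!
PROJECT BBR (MP_80b7d7_lc, helper82), module BBR-Two.
-/

namespace Pool.Agent.BBR

open MvPolynomial in
private theorem inp_val {N : ℕ} {g : Bits 2 N → ℤ} (hg : IsVal 3 g) : g ∈ Inputs 2 N 3 2 := by
  refine Submodule.subset_span ⟨∅, by simp, g, hg, ?_⟩
  funext b
  rw [Finset.prod_empty, one_mul]

private theorem one_val {N : ℕ} : IsVal 3 (fun _ : Bits 2 N => (1 : ℤ)) := by
  refine ⟨1, by rw [MvPolynomial.totalDegree_one]; norm_num, fun z => ⟨1, by simp⟩, fun b => by simp⟩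

private theorem ent_val {N : ℕ} (p : Fin 2 × Fin 2) : IsVal 3 (fun b : Bits 2 N => mat b p.1 p.2) := by
  refine ⟨MvPolynomial.X p, by rw [MvPolynomial.totalDegree_X]; norm_num, fun z => ⟨z p, by simp⟩,
    fun b => by simp⟩

private theorem ent2_val {N : ℕ} (p q : Fin 2 × Fin 2) :
    IsVal 3 (fun b : Bits 2 N => mat b p.1 p.2 * mat b q.1 q.2) := by
  refine ⟨MvPolynomial.X p * MvPolynomial.X q, ?_, fun z => ⟨z p * z q, by simp⟩, fun b => by simp⟩
  refine lt_of_le_of_lt (MvPolynomial.totalDegree_mul _ _) ?_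
  rw [MvPolynomial.totalDegree_X, MvPolynomial.totalDegree_X]
  norm_num

private theorem inp_bits {N : ℕ} (T : Finset (Var 2 N)) (hT : T.card ≤ 2) :
    (fun b : Bits 2 N => ∏ t ∈ T, bit t b) ∈ Inputs 2 N 3 2 := by
  refine Submodule.subset_span ⟨T, hT, fun _ => 1, one_val, ?_⟩
  funext b
  rw [mul_one]

private theorem inp_bit {N : ℕ} (t : Var 2 N) : (fun b : Bits 2 N => bit t b) ∈ Inputs 2 N 3 2 := by
  have h := inp_bits {t} (by simp)
  simpa using h

private theorem inp_bit2 {N : ℕ} {t u : Var 2 N} (h : t ≠ u) :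
    (fun b : Bits 2 N => bit t b * bit u b) ∈ Inputs 2 N 3 2 := by
  have h1 := inp_bits {t, u} (by rw [Finset.card_pair h])
  simpa [Finset.prod_pair h] using h1

/-- the two diagonal bits are equal -/
private def fE {N : ℕ} (k : Fin N) (b : Bits 2 N) : ℤ :=
  1 - bit (0, 0, k) b - bit (1, 1, k) b + 2 * (bit (0, 0, k) b * bit (1, 1, k) b)

/-- the bit is zero -/
private def fZ {N : ℕ} (p : Fin 2 × Fin 2) (k : Fin N) (b : Bits 2 N) : ℤ := 1 - bit (p.1, p.2, k) b

private theorem fE_mem {N : ℕ} (k : Fin N) : fE k ∈ Inputs 2 N 3 2 := by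
  have h1 : (fE k : Bits 2 N → ℤ) = (fun _ => (1 : ℤ)) - (fun b => bit (0, 0, k) b) -
      (fun b => bit (1, 1, k) b) + (2 : ℤ) • (fun b => bit (0, 0, k) b * bit (1, 1, k) b) := by
    funext b
    simp [fE]
  rw [h1]
  refine Submodule.add_mem _ (Submodule.sub_mem _ (Submodule.sub_mem _ (inp_val one_val) (inp_bit _))
    (inp_bit _)) (Submodule.smul_mem _ _ (inp_bit2 ?_))
  intro h
  have h2 := congrArg Prod.fst h
  exact absurd h2 (by simp)

private theorem fZ_mem {N : ℕ} (p : Fin 2 × Fin 2) (k : Fin N) : fZ p k ∈ Inputs 2 N 3 2 := by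
  have h1 : (fZ p k : Bits 2 N → ℤ) = (fun _ => (1 : ℤ)) - (fun b => bit (p.1, p.2, k) b) := by
    funext b
    simp [fZ]
  rw [h1]
  exact Submodule.sub_mem _ (inp_val one_val) (inp_bit _)

private theorem fE_val {N : ℕ} (k : Fin N) (b : Bits 2 N) :
    fE k b = if b 0 0 k = b 1 1 k then 1 else 0 := by
  unfold fE bit
  cases b 0 0 k <;> cases b 1 1 k <;> simp

private theorem fZ_val {N : ℕ} (p : Fin 2 × Fin 2) (k : Fin N) (b : Bits 2 N) :
    fZ p k b = if b p.1 p.2 k = false then 1 else 0 := by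
  unfold fZ bit
  cases b p.1 p.2 k <;> simp

/-- the first gate -/
private def sig {N : ℕ} : Bits 2 N → ℤ := (∏ k : Fin N, fE k) * (∏ k : Fin N, fZ (0, 1) k) * ∏ k : Fin N, fZ (1, 0) k

private theorem num_inj {N : ℕ} (x y : Fin N → Bool)
    (h : ∑ k : Fin N, (2 : ℤ) ^ (k : ℕ) * (if x k then 1 else 0) =
      ∑ k : Fin N, (2 : ℤ) ^ (k : ℕ) * (if y k then 1 else 0)) : x = y := by
  induction N with
  | zero =>
    funext k
    exact k.elim0
  | succ N ih =>
    rw [Fin.sum_univ_succ, Fin.sum_univ_succ] at h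
    have e : ∀ z : Fin (N + 1) → Bool, ∑ k : Fin N, (2 : ℤ) ^ ((Fin.succ k : Fin (N + 1)) : ℕ) *
        (if z (Fin.succ k) then 1 else 0) =
        2 * ∑ k : Fin N, (2 : ℤ) ^ (k : ℕ) * (if z (Fin.succ k) then 1 else 0) := by
      intro z
      rw [Finset.mul_sum]
      refine Finset.sum_congr rfl fun k _ => ?_
      rw [Fin.val_succ, pow_succ]
      ring
    rw [e x, e y, Fin.val_zero, pow_zero, one_mul, one_mul] at h
    have h0 : x 0 = y 0 := by
      cases hx : x 0 <;> cases hy : y 0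
      · rfl
      · rw [hx, hy] at h
        simp only [if_true, Bool.false_eq_true, if_false] at h
        omega
      · rw [hx, hy] at h
        simp only [if_true, Bool.false_eq_true, if_false] at h
        omega
      · rfl
    have h1 : (fun k : Fin N => x (Fin.succ k)) = fun k => y (Fin.succ k) := by
      refine ih _ _ ?_
      rw [h0] at h
      linarith
    funext k
    refine Fin.cases h0 (fun k => ?_) k
    exact congrFun h1 k

private theorem mat_apply {N : ℕ} (b : Bits 2 N) (i j : Fin 2) :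
    mat b i j = ∑ k : Fin N, (2 : ℤ) ^ (k : ℕ) * (if b i j k then 1 else 0) := rfl

private theorem sig_val {N : ℕ} (b : Bits 2 N) :
    sig b = if mat b 0 1 = 0 ∧ mat b 1 0 = 0 ∧ mat b 0 0 = mat b 1 1 then 1 else 0 := by
  have h0 : ∀ i j : Fin 2, mat b i j = 0 → ∀ k, b i j k = false := by
    intro i j hij k
    have h1 : (b i j : Fin N → Bool) = fun _ => false := by
      refine num_inj _ _ ?_
      rw [← mat_apply, hij]
      simp
    rw [h1]
  have hs : sig b = (∏ k : Fin N, fE k b) * (∏ k : Fin N, fZ (0, 1) k b) * ∏ k : Fin N, fZ (1, 0) k b := by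
    unfold sig
    rw [Pi.mul_apply, Pi.mul_apply, Finset.prod_apply, Finset.prod_apply, Finset.prod_apply]
  rw [hs]
  split_ifs with hc
  · obtain ⟨h1, h2, h3⟩ := hc
    have h4 : (b 0 0 : Fin N → Bool) = b 1 1 := num_inj _ _ h3
    rw [Finset.prod_eq_one fun k _ => ?_, Finset.prod_eq_one fun k _ => ?_,
      Finset.prod_eq_one fun k _ => ?_, one_mul, one_mul]
    · rw [fZ_val, if_pos (h0 1 0 h2 k)]
    · rw [fZ_val, if_pos (h0 0 1 h1 k)]
    · rw [fE_val, if_pos (congrFun h4 k)]
  · by_contra hne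
    apply hc
    have g1 := left_ne_zero_of_mul (left_ne_zero_of_mul hne)
    have g2 := right_ne_zero_of_mul (left_ne_zero_of_mul hne)
    have g3 := right_ne_zero_of_mul hne
    rw [Finset.prod_ne_zero_iff] at g1 g2 g3
    have k1 : ∀ k, b 0 0 k = b 1 1 k := by
      intro k
      by_contra h
      apply g1 k (Finset.mem_univ _)
      rw [fE_val, if_neg h]
    have k2 : ∀ k, b 0 1 k = false := by
      intro k
      by_contra h
      apply g2 k (Finset.mem_univ _)
      rw [fZ_val, if_neg h]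
    have k3 : ∀ k, b 1 0 k = false := by
      intro k
      by_contra h
      apply g3 k (Finset.mem_univ _)
      rw [fZ_val, if_neg h]
    refine ⟨?_, ?_, ?_⟩
    · rw [mat_apply]
      simp [k2]
    · rw [mat_apply]
      simp [k3]
    · rw [mat_apply, mat_apply]
      simp [k1]

private theorem mp_scalar (A : Matrix (Fin 2) (Fin 2) ℤ) (h : A 0 1 = 0 ∧ A 1 0 = 0 ∧ A 0 0 = A 1 1) :
    minpoly ℤ A = Polynomial.X - Polynomial.C (A 0 0) := by
  have h1 : A = algebraMap ℤ (Matrix (Fin 2) (Fin 2) ℤ) (A 0 0) := by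
    ext i j
    fin_cases i <;> fin_cases j <;> simp [Matrix.algebraMap_matrix_apply, h.1, h.2.1, h.2.2]
  have h2 : Function.Injective (algebraMap ℤ (Matrix (Fin 2) (Fin 2) ℤ)) := by
    intro x y hxy
    have h3 := congrFun (congrFun hxy 0) 0
    simpa [Matrix.algebraMap_matrix_apply] using h3
  have h3 := minpoly.eq_X_sub_C_of_algebraMap_inj (A 0 0) h2
  rw [← h1] at h3
  exact h3

private theorem mp_gen (A : Matrix (Fin 2) (Fin 2) ℤ) (h : ¬ (A 0 1 = 0 ∧ A 1 0 = 0 ∧ A 0 0 = A 1 1)) :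
    minpoly ℤ A = Polynomial.X ^ 2 - Polynomial.C (A 0 0 + A 1 1) * Polynomial.X +
      Polynomial.C (A 0 0 * A 1 1 - A 0 1 * A 1 0) := by
  have h1 : minpoly ℤ A = A.charpoly := by
    refine (minpoly.unique' ℤ A A.charpoly_monic A.aeval_self_charpoly ?_).symm
    intro q hq
    by_contra hcon
    push Not at hcon
    obtain ⟨hq0, hqA⟩ := hcon
    have hd : q.natDegree ≤ 1 := by
      have h2 : A.charpoly.degree = ((2 : ℕ) : WithBot ℕ) := by
        rw [Matrix.charpoly_degree_eq_dim]
        simp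
      rw [h2] at hq
      have h3 := (Polynomial.natDegree_lt_iff_degree_lt hq0).2 hq
      omega
    obtain ⟨u, v, rfl⟩ := Polynomial.exists_eq_X_add_C_of_natDegree_le_one hd
    rw [map_add, map_mul, Polynomial.aeval_C, Polynomial.aeval_C, Polynomial.aeval_X,
      Algebra.algebraMap_eq_smul_one, Algebra.algebraMap_eq_smul_one, smul_mul_assoc, one_mul] at hqA
    have e00 := congrFun (congrFun hqA 0) 0
    have e01 := congrFun (congrFun hqA 0) 1
    have e10 := congrFun (congrFun hqA 1) 0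
    have e11 := congrFun (congrFun hqA 1) 1
    simp only [Matrix.add_apply, Matrix.smul_apply, Matrix.zero_apply, smul_eq_mul, Matrix.one_apply_eq,
      mul_one] at e00 e11
    simp only [Matrix.add_apply, Matrix.smul_apply, Matrix.zero_apply, smul_eq_mul,
      Matrix.one_apply_ne (show (0 : Fin 2) ≠ 1 by decide),
      Matrix.one_apply_ne (show (1 : Fin 2) ≠ 0 by decide), mul_zero, add_zero] at e01 e10
    by_cases hu : u = 0
    · apply hq0
      rw [hu] at e00 ⊢
      have hv : v = 0 := by linarith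
      rw [hv]
      simp
    · refine h ⟨?_, ?_, ?_⟩
      · exact (mul_eq_zero.1 e01).resolve_left hu
      · exact (mul_eq_zero.1 e10).resolve_left hu
      · have h3 : u * (A 0 0 - A 1 1) = 0 := by linarith
        have h4 := (mul_eq_zero.1 h3).resolve_left hu
        linarith
  rw [h1, Matrix.charpoly_fin_two, Matrix.trace_fin_two, Matrix.det_fin_two]

private theorem comp_of {N : ℕ} (V L : Bits 2 N → ℤ) (hV : V ∈ Inputs 2 N 3 2) (hL : L ∈ Inputs 2 N 3 2)
    (c0 c1 : ℤ) {f : Bits 2 N → ℤ} (hf : f = L + c0 • sig + c1 • (V * sig)) :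
    Comp (Inputs 2 N 3 2) 2 2 f := by
  refine ⟨![sig, V * sig], ![0, 1], ?_, ?_, ?_⟩
  · intro i
    fin_cases i <;> simp
  · intro i
    fin_cases i
    · refine ⟨(Finset.univ.val.map fE) + (Finset.univ.val.map (fZ (0, 1))) +
        (Finset.univ.val.map (fZ (1, 0))), ?_, ?_⟩
      · intro h hh
        refine Submodule.mem_sup_left ?_
        rw [Multiset.mem_add, Multiset.mem_add, Multiset.mem_map, Multiset.mem_map,
          Multiset.mem_map] at hh
        rcases hh with (⟨k, -, rfl⟩ | ⟨k, -, rfl⟩) | ⟨k, -, rfl⟩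
        · exact fE_mem k
        · exact fZ_mem _ k
        · exact fZ_mem _ k
      · rw [Multiset.prod_add, Multiset.prod_add]
        rfl
    · refine ⟨V ::ₘ {sig}, ?_, ?_⟩
      · intro h hh
        rw [Multiset.mem_cons, Multiset.mem_singleton] at hh
        rcases hh with rfl | rfl
        · exact Submodule.mem_sup_left hV
        · exact Submodule.mem_sup_right (Submodule.subset_span ⟨0, by simp, rfl⟩)
      · rw [Multiset.prod_cons, Multiset.prod_singleton]
        rfl
  · rw [hf]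
    refine Submodule.add_mem _ (Submodule.add_mem _ (Submodule.mem_sup_left hL) ?_) ?_
    · exact Submodule.smul_mem _ _ (Submodule.mem_sup_right (Submodule.subset_span ⟨0, rfl⟩))
    · exact Submodule.smul_mem _ _ (Submodule.mem_sup_right (Submodule.subset_span ⟨1, rfl⟩))

private theorem det_mem {N : ℕ} :
    (fun b : Bits 2 N => mat b 0 0 * mat b 1 1 - mat b 0 1 * mat b 1 0) ∈ Inputs 2 N 3 2 :=
  Submodule.sub_mem _ (inp_val (ent2_val (0, 0) (1, 1))) (inp_val (ent2_val (0, 1) (1, 0)))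

private theorem tr_mem {N : ℕ} : (fun b : Bits 2 N => mat b 0 0 + mat b 1 1) ∈ Inputs 2 N 3 2 :=
  Submodule.add_mem _ (inp_val (ent_val (0, 0))) (inp_val (ent_val (1, 1)))

private theorem co_s (a : ℤ) (i : ℕ) : (Polynomial.X - Polynomial.C a : Polynomial ℤ).coeff i =
    (if 1 = i then 1 else 0) - (if i = 0 then a else 0) := by
  rw [Polynomial.coeff_sub, Polynomial.coeff_X, Polynomial.coeff_C]

private theorem co_g (t δ : ℤ) (i : ℕ) :
    (Polynomial.X ^ 2 - Polynomial.C t * Polynomial.X + Polynomial.C δ : Polynomial ℤ).coeff i =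
    (if i = 2 then 1 else 0) - t * (if 1 = i then 1 else 0) + (if i = 0 then δ else 0) := by
  rw [Polynomial.coeff_add, Polynomial.coeff_sub, Polynomial.coeff_X_pow, Polynomial.coeff_C_mul,
    Polynomial.coeff_X, Polynomial.coeff_C]

/-- The minimal polynomial of `2 × 2` matrices is computed with two product gates. -/
theorem two (N i : ℕ) : Comp (Inputs 2 N 3 2) 2 2 (mu i : Bits 2 N → ℤ) := by
  have key : ∀ b : Bits 2 N, (mu i b : ℤ) = if mat b 0 1 = 0 ∧ mat b 1 0 = 0 ∧ mat b 0 0 = mat b 1 1 then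
      (Polynomial.X - Polynomial.C (mat b 0 0) : Polynomial ℤ).coeff i else
      (Polynomial.X ^ 2 - Polynomial.C (mat b 0 0 + mat b 1 1) * Polynomial.X +
      Polynomial.C (mat b 0 0 * mat b 1 1 - mat b 0 1 * mat b 1 0) : Polynomial ℤ).coeff i := by
    intro b
    unfold mu
    split_ifs with h
    · rw [mp_scalar _ h]
    · rw [mp_gen _ h]
  match i, key with
  | 0, key =>
    refine comp_of (fun b => mat b 0 0 + (mat b 0 0 * mat b 1 1 - mat b 0 1 * mat b 1 0)) _
      (Submodule.add_mem _ (inp_val (ent_val (0, 0))) det_mem) det_mem 0 (-1) ?_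
    funext b
    rw [key b]
    simp only [Pi.add_apply, Pi.smul_apply, Pi.mul_apply, sig_val, co_s, co_g]
    by_cases h : mat b 0 1 = 0 ∧ mat b 1 0 = 0 ∧ mat b 0 0 = mat b 1 1
    · rw [if_pos h, if_pos h]
      simp
      ring
    · rw [if_neg h, if_neg h]
      simp
  | 1, key =>
    refine comp_of (fun b => 1 + (mat b 0 0 + mat b 1 1)) (fun b => -(mat b 0 0 + mat b 1 1))
      (Submodule.add_mem _ (inp_val one_val) tr_mem) (Submodule.neg_mem _ tr_mem) 0 1 ?_
    funext b
    rw [key b]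
    simp only [Pi.add_apply, Pi.smul_apply, Pi.mul_apply, sig_val, co_s, co_g]
    by_cases h : mat b 0 1 = 0 ∧ mat b 1 0 = 0 ∧ mat b 0 0 = mat b 1 1
    · rw [if_pos h, if_pos h]
      simp
      ring
    · rw [if_neg h, if_neg h]
      simp
  | 2, key =>
    refine comp_of (fun _ => 1) (fun _ => 1) (inp_val one_val) (inp_val one_val) (-1) 0 ?_
    funext b
    rw [key b]
    simp only [Pi.add_apply, Pi.smul_apply, Pi.mul_apply, sig_val, co_s, co_g]
    by_cases h : mat b 0 1 = 0 ∧ mat b 1 0 = 0 ∧ mat b 0 0 = mat b 1 1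
    · rw [if_pos h, if_pos h]
      simp
    · rw [if_neg h, if_neg h]
      simp
  | (i + 3), key =>
    refine comp_of (fun _ => 1) 0 (inp_val one_val) (Submodule.zero_mem _) 0 0 ?_
    funext b
    rw [key b]
    simp only [Pi.add_apply, Pi.smul_apply, Pi.mul_apply, sig_val, co_s, co_g]
    have e1 : ¬ 1 = i + 3 := by omega
    have e2 : ¬ i + 3 = 2 := by omega
    have e3 : ¬ i + 3 = 0 := by omega
    by_cases h : mat b 0 1 = 0 ∧ mat b 1 0 = 0 ∧ mat b 0 0 = mat b 1 1
    · rw [if_pos h, if_pos h, if_neg e1, if_neg e3]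
      simp
    · rw [if_neg h, if_neg h, if_neg e1, if_neg e2, if_neg e3]
      simp

end Pool.Agent.BBR
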