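import Pool.Agent.BBR.Few
import Pool.Agent.BBR.Cst
import Pool.Agent.BBR.Rdk
import Pool.Agent.BBR.Chi
import Pool.Agent.BBR.Two

set_option autoImplicit false

/-!
PROJECT BBR (MP_80b7d7_lc, helper82): the main theorem.
-/

namespace Pool.Agent.BBR

theorem main :
    (∀ n N i : ℕ, (fun b : Bits n N => (mat b).charpoly.coeff i) ∈ Inputs n N (n + 1) 0) ∧
    (∀ N i : ℕ, Comp (Inputs 2 N 3 2) 2 2 (mu i : Bits 2 N → ℤ)) ∧
    (∀ n N r : ℕ, 3 ≤ n → ∀ f ∈ Inputs n N (2 ^ (N / 2)) r, (∀ b, f b ≡ mu 3 b [ZMOD 2]) →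
      N ≤ 16 * (r + 2) ^ 2) ∧
    (∀ n N r S d l : ℕ, 3 ≤ n → N * S ≤ 2 ^ l → ∀ f, Comp (Inputs n N (2 ^ (N / 2)) r) S d f →
      (∀ b, f b ≡ mu 3 b [ZMOD 2]) → N ≤ 5000 * ((r + 1) * (l + 1) ^ d) ^ 4) ∧
    (∀ n N W k : ℕ, 3 ≤ n → ∀ (K : Type) [Field K] (P : Prog K (Var n N) W), P.ReadAtMost k →
      (∀ b : Bits n N, P.val (fun t => b t.1 t.2.1 t.2.2) = ((mu 3 b : ℤ) : K)) →
      2 ^ (N / (4 * 16 ^ k)) ≤ W ^ (2 * k + 2) + 1) :=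
  ⟨chi_mem, two, fun n N r hn f hf h => few_bits n hn N r f hf h,
    fun n N r S d l hn hl f hf h => const_depth n hn N r S d l f hf hl h,
    fun n N W k hn K _ P hP h => read_k n hn N W k K P hP h⟩

end Pool.Agent.BBR
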