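import Pool.Agent.BBR.Defs

set_option autoImplicit false

/-!
PROJECT BBR (MP_80b7d7_lc, helper82), module BBR-MuS.

Plan. Write A = sp n x y z, P = minpoly ℤ A (A is integral, Matrix.isIntegral). Direct computation (entries (i,j) with
i,j < 2, Finset.sum over Fin n collapses to the indices 0,1; use Matrix.ext, Fin.sum_univ_succ for n = m+3, or
Finset.sum_eq... ): A^2 has upper left block [[z^2+xy, z x + x], [y z + y, x y + 1]] and zeros elsewhere.
(1) if x*y = z then A^2 - (z+1) A = 0, hence natDegree P ≤ 2 (minpoly.min) and coeff 3 = 0.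
(2) always A^3 - (z+1) A^2 + (z - x y) A = 0 (Cayley-Hamilton of the block times A), so natDegree P ≤ 3.
(3) if x*y ≠ z then natDegree P ≥ 3: suppose a monic P of degree d ≤ 2 kills A; multiply by X^(2-d): a monic
polynomial X^2 + p X + q kills A. Entry (2,2): q = 0. Entry (1,0): y (z + 1 + p) = 0, so p = -(z+1). Entry (1,1):
x y + 1 + p = 0, so x y = z, contradiction. So P is monic of degree 3 and coeff 3 = 1.
-/

namespace Pool.Agent.BBR

open Polynomial

/-- The matrix with a `2 × 2` block in the upper left corner and zeros elsewhere. -/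
private def blk (n : ℕ) (a b c d : ℤ) : Matrix (Fin n) (Fin n) ℤ :=
  Matrix.of fun i j =>
    if (i : ℕ) = 0 ∧ (j : ℕ) = 0 then a
    else if (i : ℕ) = 0 ∧ (j : ℕ) = 1 then b
    else if (i : ℕ) = 1 ∧ (j : ℕ) = 0 then c
    else if (i : ℕ) = 1 ∧ (j : ℕ) = 1 then d else 0

private theorem sp_eq (n : ℕ) (x y z : ℤ) : sp n x y z = blk n z x y 1 := rfl

private theorem blk_add (n : ℕ) (a b c d a' b' c' d' : ℤ) :
    blk n a b c d + blk n a' b' c' d' = blk n (a + a') (b + b') (c + c') (d + d') := by
  ext i j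
  simp only [blk, Matrix.add_apply, Matrix.of_apply]
  split_ifs <;> simp

private theorem blk_smul (n : ℕ) (t a b c d : ℤ) :
    t • blk n a b c d = blk n (t * a) (t * b) (t * c) (t * d) := by
  ext i j
  simp only [blk, Matrix.smul_apply, Matrix.of_apply, smul_eq_mul]
  split_ifs <;> simp

private theorem blk_zero (n : ℕ) : blk n 0 0 0 0 = 0 := by
  ext i j
  simp only [blk, Matrix.of_apply]
  split_ifs <;> simp

private theorem blk_mul (m : ℕ) (a b c d a' b' c' d' : ℤ) :
    blk (m + 3) a b c d * blk (m + 3) a' b' c' d' =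
      blk (m + 3) (a * a' + b * c') (a * b' + b * d') (c * a' + d * c') (c * b' + d * d') := by
  ext i j
  rw [Matrix.mul_apply, Fin.sum_univ_succ, Fin.sum_univ_succ]
  have h0 : ∑ k : Fin (m + 1), blk (m + 3) a b c d i k.succ.succ *
      blk (m + 3) a' b' c' d' k.succ.succ j = 0 := by
    apply Finset.sum_eq_zero
    intro k _
    have : blk (m + 3) a b c d i k.succ.succ = 0 := by
      have h1 : ¬ ((k : ℕ) + 1 + 1 = 0) := by omega
      have h2 : ¬ ((k : ℕ) + 1 + 1 = 1) := by omega
      simp only [blk, Matrix.of_apply, Fin.val_succ, h1, h2, and_false, if_false]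
    rw [this, zero_mul]
  rw [h0, add_zero]
  simp only [blk, Matrix.of_apply, Fin.val_succ, Fin.val_zero]
  by_cases hi0 : (i : ℕ) = 0
  · by_cases hj0 : (j : ℕ) = 0
    · simp [hi0, hj0]
    · by_cases hj1 : (j : ℕ) = 1
      · simp [hi0, hj1]
      · simp [hi0, hj0, hj1]
  · by_cases hi1 : (i : ℕ) = 1
    · by_cases hj0 : (j : ℕ) = 0
      · simp [hi1, hj0]
      · by_cases hj1 : (j : ℕ) = 1
        · simp [hi1, hj1]
        · simp [hi1, hj0, hj1]
    · simp [hi0, hi1]

/-- The minimal polynomial of the matrix `[[z, x], [y, 1]] ⊕ 0` has degree `3` if and only if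
`x * y ≠ z`. -/
theorem coeff_sp (n : ℕ) (hn : 3 ≤ n) (x y z : ℤ) (hy : y ≠ 0) :
    (minpoly ℤ (sp n x y z)).coeff 3 = if x * y = z then 0 else 1 := by
  obtain ⟨m, rfl⟩ : ∃ m, n = m + 3 := ⟨n - 3, by omega⟩
  rw [sp_eq]
  obtain ⟨A, hA⟩ : ∃ A, A = blk (m + 3) z x y 1 := ⟨_, rfl⟩
  rw [← hA]
  have hint : IsIntegral ℤ A := Matrix.isIntegral A
  have hmon := minpoly.monic hint
  have hsq : A ^ 2 = blk (m + 3) (z * z + x * y) (z * x + x) (y * z + y) (y * x + 1) := by
    rw [pow_two, hA, blk_mul]
    simp
  split_ifs with hxy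
  · -- the polynomial `X ^ 2 - (z + 1) X`
    have hq : (X ^ 2 - C (z + 1) * X : ℤ[X]).Monic := by
      have h1 : (X ^ 2 - C (z + 1) * X : ℤ[X]) = X ^ 2 + (-(C (z + 1) * X)) := by ring
      rw [h1]
      apply Polynomial.monic_X_pow_add
      rw [degree_neg]
      calc degree (C (z + 1) * X : ℤ[X]) ≤ 1 := Polynomial.degree_C_mul_X_le _
        _ < 2 := by norm_num
    have hk : aeval A (X ^ 2 - C (z + 1) * X : ℤ[X]) = 0 := by
      rw [map_sub, map_mul, map_pow, aeval_X, aeval_C, Algebra.algebraMap_eq_smul_one,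
        smul_mul_assoc, one_mul, hsq]
      have h1 : (z + 1) • A = blk (m + 3) (z * z + x * y) (z * x + x) (y * z + y) (y * x + 1) := by
        rw [hA, blk_smul]
        congr 1
        · rw [← hxy]; ring
        · ring
        · ring
        · rw [← hxy]; ring
      rw [h1, sub_self]
    have hdeg := minpoly.min ℤ A hq hk
    apply Polynomial.coeff_eq_zero_of_degree_lt
    refine lt_of_le_of_lt hdeg ?_
    refine lt_of_le_of_lt (degree_sub_le _ _) ?_
    rw [max_lt_iff]
    refine ⟨?_, ?_⟩
    · rw [degree_X_pow]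
      norm_num
    · exact lt_of_le_of_lt (Polynomial.degree_C_mul_X_le _) (by norm_num)
  · have hcub : A ^ 3 = (z + 1) • A ^ 2 + (x * y - z) • A := by
      rw [pow_succ, hsq, hA, blk_mul, blk_smul, blk_smul, blk_add]
      congr 1 <;> ring
    have hle : (minpoly ℤ A).natDegree ≤ 3 := by
      have hq : (X ^ 3 - (C (z + 1) * X ^ 2 + C (x * y - z) * X) : ℤ[X]).Monic := by
        have h1 : (X ^ 3 - (C (z + 1) * X ^ 2 + C (x * y - z) * X) : ℤ[X]) =
          X ^ 3 + (-(C (z + 1) * X ^ 2 + C (x * y - z) * X)) := by ring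
        rw [h1]
        apply Polynomial.monic_X_pow_add
        rw [degree_neg]
        refine lt_of_le_of_lt (degree_add_le _ _) ?_
        rw [max_lt_iff]
        refine ⟨?_, ?_⟩
        · exact lt_of_le_of_lt (Polynomial.degree_C_mul_X_pow_le _ _) (by norm_num)
        · exact lt_of_le_of_lt (Polynomial.degree_C_mul_X_le _) (by norm_num)
      have hk : aeval A (X ^ 3 - (C (z + 1) * X ^ 2 + C (x * y - z) * X) : ℤ[X]) = 0 := by
        rw [map_sub, map_add, map_mul, map_mul, map_pow, map_pow, aeval_X, aeval_C, aeval_C,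
          Algebra.algebraMap_eq_smul_one, Algebra.algebraMap_eq_smul_one, smul_mul_assoc,
          smul_mul_assoc, one_mul, one_mul, hcub, sub_self]
      have hdeg := minpoly.min ℤ A hq hk
      apply natDegree_le_of_degree_le
      refine le_trans hdeg ?_
      refine le_trans (degree_sub_le _ _) ?_
      rw [max_le_iff]
      refine ⟨?_, ?_⟩
      · exact degree_X_pow_le 3
      · refine le_trans (degree_add_le _ _) ?_
        rw [max_le_iff]
        refine ⟨?_, ?_⟩
        · exact le_trans (Polynomial.degree_C_mul_X_pow_le _ _) (by norm_num)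
        · exact le_trans (Polynomial.degree_C_mul_X_le _) (by norm_num)
    have hge : ¬ (minpoly ℤ A).natDegree ≤ 2 := by
      intro h2
      -- a monic polynomial of degree 2 which kills A
      obtain ⟨q, hq⟩ : ∃ q : ℤ[X], q = minpoly ℤ A * X ^ (2 - (minpoly ℤ A).natDegree) := ⟨_, rfl⟩
      have hqm : q.Monic := by
        rw [hq]
        exact hmon.mul (monic_X_pow _)
      have hqd : q.natDegree = 2 := by
        rw [hq, hmon.natDegree_mul (monic_X_pow _), natDegree_X_pow]
        omega
      have hqk : aeval A q = 0 := by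
        rw [hq, map_mul, minpoly.aeval, zero_mul]
      have hexp : q = C (q.coeff 0) + C (q.coeff 1) * X + X ^ 2 := by
        have h3 : q.coeff 2 = 1 := by
          have := hqm.coeff_natDegree
          rwa [hqd] at this
        conv_lhs => rw [q.as_sum_range, hqd]
        simp only [Finset.sum_range_succ, Finset.sum_range_zero, zero_add, h3,
          ← C_mul_X_pow_eq_monomial, pow_zero, mul_one, pow_one, C_1, one_mul]
      rw [hexp, map_add, map_add, map_mul, map_pow, aeval_X, aeval_C, aeval_C,
        Algebra.algebraMap_eq_smul_one, Algebra.algebraMap_eq_smul_one, smul_mul_assoc, one_mul,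
        hsq, hA, blk_smul] at hqk
      have e22 := congrFun (congrFun hqk ⟨2, by omega⟩) ⟨2, by omega⟩
      have e10 := congrFun (congrFun hqk ⟨1, by omega⟩) ⟨0, by omega⟩
      have e11 := congrFun (congrFun hqk ⟨1, by omega⟩) ⟨1, by omega⟩
      simp only [Matrix.add_apply, Matrix.smul_apply, Matrix.one_apply, Matrix.zero_apply, blk,
        Matrix.of_apply, Fin.mk.injEq, smul_eq_mul] at e22 e10 e11
      norm_num at e22 e10 e11
      apply hxy
      rw [e22] at e11
      have h4 : y * (q.coeff 1 + z + 1) = 0 := by linarith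
      have h5 : q.coeff 1 + z + 1 = 0 := by
        rcases mul_eq_zero.1 h4 with h | h
        · exact absurd h hy
        · exact h
      linarith
    have h3 : (minpoly ℤ A).natDegree = 3 := by omega
    have := hmon.coeff_natDegree
    rwa [h3] at this

end Pool.Agent.BBR
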