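import Pool.Agent.BBR.Defs

set_option autoImplicit false

/-!
PROJECT BBR (MP_80b7d7_lc, helper82), module BBR-VaA.

Plan. Newton's formula: p(z + 2^L) = sum_{k ≤ 2^L} choose (2^L) k * (Δ^k p)(z) (Mathlib: shift_eq_sum_fwdDiff_iter for
f : ℤ → ℚ, f z = p.eval z, step h = 1, n = 2^L). (Δ^k f)(z) is an integer for all k (induction, or
fwdDiff_iter_eq_sum_shift), (Δ^k f) = 0 for k > natDegree p (Mathlib may have it for polynomials, else: each
difference lowers the degree: p.comp (X + 1) - p has smaller natDegree), in particular for k = 2^L; and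
choose (2^L) k is even for 0 < k < 2^L (Nat.Prime.dvd_choose_pow). So b - a is an even integer.
-/

namespace Pool.Agent.BBR

/-- An integer valued polynomial of degree less than `2 ^ L` is periodic modulo `2`, with period
`2 ^ L`. -/
theorem one_var (L : ℕ) (p : Polynomial ℚ) (hp : p.natDegree < 2 ^ L)
    (hint : ∀ z : ℤ, ∃ m : ℤ, p.eval (z : ℚ) = m) (z a b : ℤ) (ha : p.eval (z : ℚ) = a)
    (hb : p.eval ((z + 2 ^ L : ℤ) : ℚ) = b) : a ≡ b [ZMOD 2] := by
  have hI : ∀ k : ℕ, ∃ m : ℤ, (fwdDiff (1 : ℚ))^[k] (fun x => p.eval x) (z : ℚ) = m := by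
    intro k
    choose g hg using hint
    refine ⟨∑ i ∈ Finset.range (k + 1), ((-1 : ℤ) ^ (k - i) * k.choose i) * g (z + i), ?_⟩
    rw [fwdDiff_iter_eq_sum_shift, Int.cast_sum]
    refine Finset.sum_congr rfl fun i _ => ?_
    have h := hg (z + i)
    rw [zsmul_eq_mul, Int.cast_mul (_ * _) (g (z + i)), ← h]
    have h2 : ((z : ℚ) + i • (1 : ℚ)) = ((z + i : ℤ) : ℚ) := by
      rw [nsmul_eq_mul, mul_one, Int.cast_add, Int.cast_natCast]
    rw [h2]
  choose d hd using hI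
  have h1 := shift_eq_sum_fwdDiff_iter (1 : ℚ) (fun x => p.eval x) (2 ^ L) (z : ℚ)
  have h0 : d 0 = a := by
    have h := hd 0
    rw [Function.iterate_zero, id_eq, ha] at h
    exact_mod_cast h.symm
  have hN : d (2 ^ L) = 0 := by
    have h := hd (2 ^ L)
    have h' := congrFun (Polynomial.fwdDiff_iter_eq_zero_of_degree_lt hp) (z : ℚ)
    have h3 : (fun x => p.eval x) = fun x : ℚ => Polynomial.eval x p := rfl
    rw [h3, h', Pi.zero_apply] at h
    exact_mod_cast h.symm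
  obtain ⟨m, hm⟩ : ∃ m, 2 ^ L = m + 1 := ⟨2 ^ L - 1, by have := Nat.pow_pos (n := L) (show 0 < 2 by norm_num); omega⟩
  have h2 : (z : ℚ) + (2 ^ L) • (1 : ℚ) = ((z + 2 ^ L : ℤ) : ℚ) := by
    rw [nsmul_eq_mul]; push_cast; ring
  have h3 : b = ∑ k ∈ Finset.range (2 ^ L + 1), (((2 ^ L).choose k : ℕ) : ℤ) * d k := by
    rw [h2] at h1
    have h4 : ((b : ℤ) : ℚ) = ((∑ k ∈ Finset.range (2 ^ L + 1), (((2 ^ L).choose k : ℕ) : ℤ) * d k : ℤ) : ℚ) := by
      rw [← hb, Int.cast_sum]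
      refine h1.trans (Finset.sum_congr rfl fun k _ => ?_)
      rw [hd, nsmul_eq_mul, Int.cast_mul, Int.cast_natCast]
    exact_mod_cast h4
  rw [Finset.sum_range_succ, hN, mul_zero, add_zero, hm, Finset.sum_range_succ', ← hm, h0,
    Nat.choose_zero_right, Nat.cast_one, one_mul] at h3
  have h5 : (2 : ℤ) ∣ ∑ k ∈ Finset.range m, (((2 ^ L).choose (k + 1) : ℕ) : ℤ) * d (k + 1) := by
    refine Finset.dvd_sum fun k hk => ?_
    refine Dvd.dvd.mul_right ?_ _
    have h6 : 2 ∣ (2 ^ L).choose (k + 1) :=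
      Nat.Prime.dvd_choose_pow Nat.prime_two (Nat.succ_ne_zero k) (by
        have := Finset.mem_range.1 hk
        omega)
    exact_mod_cast h6
  rw [h3]
  refine (Int.modEq_iff_dvd).2 ?_
  rw [add_sub_cancel_right]
  exact h5

end Pool.Agent.BBR
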