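import Pool.Agent.BBR.VaA

set_option autoImplicit false

/-!
PROJECT BBR (MP_80b7d7_lc, helper82), module BBR-VaB.

Plan. One coordinate at a time. For fixed z and q0 the function t ↦ P(update z q0 t) is the evaluation of the
polynomial p = eval₂/aeval of P at (X at q0, constants z q elsewhere) in ℚ[X], natDegree p ≤ totalDegree P < 2^L
(MvPolynomial.aeval and natDegree bounds: sum over the monomials, Polynomial.natDegree_sum_le_of_forall_le,
natDegree_prod_le, exponent at q0 ≤ total degree), p is integer valued. By one_var the parity does not change when t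
changes by 2^L, hence (induction over integers) when t changes by a multiple of 2^L. Then change the coordinates of z
into those of w one after another (Finset induction on the set of changed coordinates).
-/

namespace Pool.Agent.BBR

open MvPolynomial

/-- the values on a line parallel to a coordinate axis are the values of a polynomial -/
private theorem slice {ι : Type} [DecidableEq ι] (P : MvPolynomial ι ℚ) (z : ι → ℤ) (q0 : ι) :
    ∃ p : Polynomial ℚ, p.natDegree ≤ P.totalDegree ∧
      ∀ t : ℤ, p.eval (t : ℚ) = eval (fun q => ((Function.update z q0 t q : ℤ) : ℚ)) P := by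
  refine ⟨aeval (fun q => if q = q0 then Polynomial.X else Polynomial.C (z q : ℚ)) P, ?_, ?_⟩
  · have h1 := aeval_natDegree_le P le_rfl
      (fun q => if q = q0 then Polynomial.X else Polynomial.C (z q : ℚ)) (n := 1) (by
        intro q
        split_ifs
        · exact Polynomial.natDegree_X_le
        · rw [Polynomial.natDegree_C]
          exact Nat.zero_le _)
    rwa [mul_one] at h1
  · intro t
    have h1 : (fun q => ((Function.update z q0 t q : ℤ) : ℚ)) =
        fun q => Polynomial.evalRingHom (t : ℚ)
          (if q = q0 then Polynomial.X else Polynomial.C (z q : ℚ)) := by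
      funext q
      by_cases hq : q = q0
      · rw [if_pos hq, hq, Function.update_self, Polynomial.coe_evalRingHom, Polynomial.eval_X]
      · rw [if_neg hq, Function.update_of_ne hq, Polynomial.coe_evalRingHom, Polynomial.eval_C]
    rw [h1, aeval_def, ← Polynomial.coe_evalRingHom, eval₂_comp_left]
    have h2 : (Polynomial.evalRingHom (t : ℚ)).comp (algebraMap ℚ (Polynomial ℚ)) =
        RingHom.id ℚ := Subsingleton.elim _ _
    rw [h2]
    rfl

private theorem line_par (L : ℕ) (g : ℤ → ℤ) (h : ∀ t, g t ≡ g (t + 2 ^ L) [ZMOD 2]) (t m : ℤ) :
    g t ≡ g (t + 2 ^ L * m) [ZMOD 2] := by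
  induction m using Int.induction_on with
  | zero => rw [mul_zero, add_zero]
  | succ m ih =>
    have h1 := h (t + 2 ^ L * m)
    rw [add_assoc, ← mul_add_one] at h1
    exact ih.trans h1
  | pred m ih =>
    have h1 := h (t + 2 ^ L * (-(m : ℤ) - 1))
    rw [add_assoc, ← mul_add_one, sub_add_cancel] at h1
    exact ih.trans h1.symm

/-- The parity of the value of an integer valued polynomial of degree less than `2 ^ L` depends only
on the residues of the arguments modulo `2 ^ L`. -/
theorem multi_var {ι : Type} [Fintype ι] (L : ℕ) (P : MvPolynomial ι ℚ)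
    (hP : P.totalDegree < 2 ^ L)
    (hint : ∀ z : ι → ℤ, ∃ m : ℤ, eval (fun q => (z q : ℚ)) P = m) (z w : ι → ℤ)
    (h : ∀ q, z q ≡ w q [ZMOD 2 ^ L]) (a b : ℤ) (ha : eval (fun q => (z q : ℚ)) P = a)
    (hb : eval (fun q => (w q : ℚ)) P = b) : a ≡ b [ZMOD 2] := by
  classical
  choose v hv using hint
  have hline : ∀ (x : ι → ℤ) (q0 : ι) (t m : ℤ),
      v (Function.update x q0 t) ≡ v (Function.update x q0 (t + 2 ^ L * m)) [ZMOD 2] := by
    intro x q0 t m
    obtain ⟨p, hp1, hp2⟩ := slice P x q0
    refine line_par L (fun t => v (Function.update x q0 t)) (fun t => ?_) t m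
    refine one_var L p (hp1.trans_lt hP) (fun z => ⟨v (Function.update x q0 z), ?_⟩) t _ _ ?_ ?_
    · rw [hp2, hv]
    · rw [hp2, hv]
    · rw [hp2, hv]
  have key : ∀ s : Finset ι, v z ≡ v (fun q => if q ∈ s then w q else z q) [ZMOD 2] := by
    intro s
    induction s using Finset.induction_on with
    | empty => simp only [Finset.notMem_empty, if_false]; exact Int.ModEq.refl _
    | insert q0 s hq ih =>
      refine ih.trans ?_
      obtain ⟨m, hm⟩ := (h q0).dvd
      have h1 : (fun q => if q ∈ s then w q else z q) =
          Function.update (fun q => if q ∈ s then w q else z q) q0 (z q0) := by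
        funext q
        by_cases h2 : q = q0
        · rw [h2, Function.update_self, if_neg hq]
        · rw [Function.update_of_ne h2]
      have h2 : (fun q => if q ∈ insert q0 s then w q else z q) =
          Function.update (fun q => if q ∈ s then w q else z q) q0 (z q0 + 2 ^ L * m) := by
        funext q
        by_cases h2 : q = q0
        · rw [h2, Function.update_self, if_pos (Finset.mem_insert_self q0 s), ← hm]
          ring
        · rw [Function.update_of_ne h2]
          exact if_congr (by rw [Finset.mem_insert, or_iff_right h2]) rfl rfl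
      rw [h2]
      have h3 := hline (fun q => if q ∈ s then w q else z q) q0 (z q0) m
      rwa [← h1] at h3
  have h1 := key Finset.univ
  simp only [Finset.mem_univ, if_true] at h1
  have h2 : a = v z := by
    have h3 := hv z
    rw [ha] at h3
    exact_mod_cast h3
  have h4 : b = v w := by
    have h3 := hv w
    rw [hb] at h3
    exact_mod_cast h3
  rw [h2, h4]
  exact h1

end Pool.Agent.BBR
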